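import Pool.Agent.Lib.MP_80d0cf_nt.Sg.Spec

/-! Sums over affine relations. -/

open Set MeasureTheory ComplexConjugate Filter Topology

namespace Pool.Agent.Lib.MP_80d0cf_nt.Sg

open Up

namespace AffAux

lemma fibre {ε : ℝ} (hε : 0 < ε) : ∃ C : ℝ, 0 < C ∧ ∀ N L : ℕ, L ≤ N → ∀ i ∈ Ls N ×ˢ Ls L,
    (((Ls N ×ˢ Ls L).filter fun i' => i'.1 * i'.2 = i.1 * i.2).card : ℝ) ≤ C * (N : ℝ) ^ ε := by
  obtain ⟨C, hC, h⟩ := Six.divisor_bound (half_pos hε)
  refine ⟨2 * C, by linarith, fun N L hL i hi => ?_⟩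
  simp only [Finset.mem_product, mem_Ls] at hi
  have h0 : (i.1 * i.2).natAbs ≠ 0 := Int.natAbs_ne_zero.2 (mul_ne_zero hi.1.1 hi.2.1)
  have h1 : ((Ls N ×ˢ Ls L).filter fun i' => i'.1 * i'.2 = i.1 * i.2).card ≤
      ((i.1 * i.2).natAbs.divisors ×ˢ ({1, -1} : Finset ℤ)).card := by
    refine Finset.card_le_card_of_injOn (fun z => (z.2.natAbs, z.2.sign)) (fun z hz => ?_)
      fun z hz z' hz' hh => ?_
    · simp only [Finset.coe_filter, Finset.mem_product, mem_ofPred_eq, mem_Ls] at hz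
      simp only [Finset.coe_product, mem_prod, Finset.mem_coe, Nat.mem_divisors, Finset.mem_insert,
        Finset.mem_singleton]
      refine ⟨⟨?_, h0⟩, ?_⟩
      · rw [← hz.2, Int.natAbs_mul]; exact dvd_mul_left _ _
      · rcases lt_or_gt_of_ne hz.1.2.1 with a | a
        · exact Or.inr (Int.sign_eq_neg_one_of_neg a)
        · exact Or.inl (Int.sign_eq_one_of_pos a)
    · simp only [Finset.coe_filter, Finset.mem_product, mem_ofPred_eq, mem_Ls] at hz hz'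
      simp only [Prod.mk.injEq] at hh
      have a1 : z.2 = z'.2 := by
        rw [← Int.sign_mul_natAbs z.2, ← Int.sign_mul_natAbs z'.2, hh.1, hh.2]
      refine Prod.ext (mul_right_cancel₀ hz.1.2.1 ?_) a1
      rw [hz.2, a1, hz'.2]
  rw [Finset.card_product, Finset.card_pair (by norm_num)] at h1
  have h2 := h (i.1 * i.2).natAbs
  rw [Six.D_two] at h2
  have h3 : (((i.1 * i.2).natAbs : ℕ) : ℝ) ≤ (N : ℝ) ^ (2 : ℝ) := by
    have a1 : i.1.natAbs ≤ N := by have := abs_le.1 hi.1.2; omega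
    have a2 : i.2.natAbs ≤ N := by have := abs_le.1 hi.2.2; omega
    rw [Real.rpow_two, Int.natAbs_mul, sq]
    exact_mod_cast Nat.mul_le_mul a1 a2
  have h4 := Real.rpow_le_rpow (Nat.cast_nonneg _) h3 (half_pos hε).le
  rw [← Real.rpow_mul (Nat.cast_nonneg N), show 2 * (ε / 2) = ε by ring] at h4
  have h5 := mul_le_mul_of_nonneg_left h4 (by linarith : 0 ≤ C)
  have h6 : (((Ls N ×ˢ Ls L).filter fun i' => i'.1 * i'.2 = i.1 * i.2).card : ℝ) ≤
      (i.1 * i.2).natAbs.divisors.card * 2 := by exact_mod_cast h1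
  linarith

lemma exp_le {p : ℝ} (hp : p ≤ 10) : Real.exp p ≤ 25000 := by
  refine (Real.exp_le_exp.2 hp).trans ?_
  rw [show (10 : ℝ) = (10 : ℕ) * 1 by norm_num, Real.exp_nat_mul]
  exact (pow_le_pow_left₀ (Real.exp_pos 1).le Real.exp_one_lt_d9.le 10).trans (by norm_num)

lemma log_sq {ε : ℝ} (hε : 0 < ε) {N : ℝ} (hN : 1 ≤ N) :
    Real.log (N + 2) ≤ 3 ^ ε / ε * N ^ ε := by
  refine (Real.log_le_rpow_div (by linarith) hε).trans ?_
  rw [div_mul_eq_mul_div, ← Real.mul_rpow (by norm_num) (by linarith)]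
  gcongr
  linarith

/-- the majorant as a function of the inner variable -/
noncomputable def gq (N L : ℕ) (φ : ℤ → ℝ) (f : ℝ → ℝ) (p q : ℝ) : ℂ :=
  ∑ k ∈ Finset.Icc (-(N : ℤ)) N, ∑ l1 ∈ Ls L,
    φ k * (∑ l ∈ Ls L, (f q : ℂ) * e ((k * l : ℤ) * Real.exp q)) * e ((k * l1 : ℤ) * Real.exp p)

lemma le_gq {N L : ℕ} {φ : ℤ → ℝ} {f : ℝ → ℝ} (h0 : ∀ q, 0 ≤ f q)
    (hφ : ∀ y : ℝ, |y| ≤ 50000 * L → ∑ l ∈ Ls L, 1 / (1 + N * |y + l|) ≤
      (∑ k ∈ Finset.Icc (-(N : ℤ)) N, (φ k : ℂ) * e (k * y)).re) {p q : ℝ} (hp : p ≤ 10)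
    (hq : q ≤ 10) : f q * Kk N L p q ≤ (gq N L φ f p q).re := by
  have e1 : gq N L φ f p q = f q * ∑ l1 ∈ Ls L, ∑ l2 ∈ Ls L, ∑ k ∈ Finset.Icc (-(N : ℤ)) N,
      (φ k : ℂ) * e (k * (l1 * Real.exp p + l2 * Real.exp q)) := by
    simp only [gq, Finset.mul_sum, Finset.sum_mul]
    rw [Finset.sum_comm]
    refine Finset.sum_congr rfl fun l1 _ => ?_
    rw [Finset.sum_comm]
    refine Finset.sum_congr rfl fun l2 _ => Finset.sum_congr rfl fun k _ => ?_
    rw [mul_add, e_add]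
    push_cast
    simp only [mul_assoc]
    ring
  rw [e1, Complex.re_ofReal_mul, Complex.re_sum, Kk]
  refine mul_le_mul_of_nonneg_left (Finset.sum_le_sum fun l1 h1 => ?_) (h0 q)
  rw [Complex.re_sum]
  refine Finset.sum_le_sum fun l2 h2 => hφ _ ?_
  have a1 : |(l1 : ℝ)| ≤ L := by exact_mod_cast (mem_Ls.1 h1).2
  have a2 : |(l2 : ℝ)| ≤ L := by exact_mod_cast (mem_Ls.1 h2).2
  refine (abs_add_le _ _).trans ?_
  rw [abs_mul, abs_mul, abs_of_pos (Real.exp_pos p), abs_of_pos (Real.exp_pos q)]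
  calc _ ≤ (L : ℝ) * 25000 + L * 25000 := by gcongr; exacts [exp_le hp, exp_le hq]
    _ = _ := by ring

lemma int_gq (N L : ℕ) (φ : ℤ → ℝ) {f : ℝ → ℝ} (hc : Continuous f) (p : ℝ) :
    ∫ q in (-10 : ℝ)..10, gq N L φ f p q = ∑ k ∈ Finset.Icc (-(N : ℤ)) N, ∑ l1 ∈ Ls L,
      (φ k * ∑ l ∈ Ls L, ∫ q in (-10 : ℝ)..10, (f q : ℂ) * e ((k * l : ℤ) * Real.exp q)) *
        e ((k * l1 : ℤ) * Real.exp p) := by
  have c1 : ∀ k l : ℤ, Continuous fun q => (f q : ℂ) * e ((k * l : ℤ) * Real.exp q) :=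
    fun k l => by fun_prop
  have c2 : ∀ k l1 : ℤ, Continuous fun q => φ k * (∑ l ∈ Ls L,
      (f q : ℂ) * e ((k * l : ℤ) * Real.exp q)) * e ((k * l1 : ℤ) * Real.exp p) := fun k l1 =>
    (continuous_const.mul (continuous_finsetSum _ fun l _ => c1 k l)).mul continuous_const
  unfold gq
  rw [intervalIntegral.integral_finsetSum fun k _ =>
    (continuous_finsetSum _ fun l1 _ => c2 k l1).intervalIntegrable _ _]
  refine Finset.sum_congr rfl fun k _ => ?_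
  rw [intervalIntegral.integral_finsetSum fun l1 _ => (c2 k l1).intervalIntegrable _ _]
  refine Finset.sum_congr rfl fun l1 _ => ?_
  rw [intervalIntegral.integral_mul_const, intervalIntegral.integral_const_mul,
    intervalIntegral.integral_finsetSum fun l _ => (c1 k l).intervalIntegrable _ _]

lemma point {N L : ℕ} {φ : ℤ → ℝ} {f : ℝ → ℝ} (hc : Continuous f) (h0 : ∀ q, 0 ≤ f q)
    (hφ : ∀ y : ℝ, |y| ≤ 50000 * L → ∑ l ∈ Ls L, 1 / (1 + N * |y + l|) ≤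
      (∑ k ∈ Finset.Icc (-(N : ℤ)) N, (φ k : ℂ) * e (k * y)).re) {p : ℝ} (hp : p ≤ 10) :
    ∫ q in (-10 : ℝ)..10, f q * Kk N L p q ≤ |φ 0| * (2 * L) ^ 2 * (∫ q in (-10 : ℝ)..10, f q) +
      ‖∑ i ∈ Ls N ×ˢ Ls L, (φ i.1 * ∑ l ∈ Ls L, ∫ q in (-10 : ℝ)..10,
        (f q : ℂ) * e ((i.1 * l : ℤ) * Real.exp q)) * e ((i.1 * i.2 : ℤ) * Real.exp p)‖ := by
  have hgc : Continuous (gq N L φ f p) := by unfold gq; fun_prop
  have hK : Continuous fun q => Kk N L p q :=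
    Continuous.uncurry_left (f := Kk N L) p (continuous_Kk N L)
  have e1 : ∫ q in (-10 : ℝ)..10, f q * Kk N L p q ≤ ∫ q in (-10 : ℝ)..10, (gq N L φ f p q).re :=
    intervalIntegral.integral_mono_on (by norm_num) ((hc.mul hK).intervalIntegrable _ _)
      ((Complex.continuous_re.comp hgc).intervalIntegrable _ _) fun q hq => le_gq h0 hφ hp hq.2
  have e2 := Complex.reCLM.intervalIntegral_comp_comm (hgc.intervalIntegrable (μ := volume) (-10) 10)
  simp only [Complex.reCLM_apply] at e2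
  rw [e2] at e1
  refine e1.trans ((Complex.re_le_norm _).trans ?_)
  rw [int_gq N L φ hc, ← Finset.add_sum_erase _ _ (show (0 : ℤ) ∈ Finset.Icc (-(N : ℤ)) N by simp),
    Finset.sum_product, ← Ls]
  refine (norm_add_le _ _).trans (add_le_add (le_of_eq ?_) le_rfl)
  have hI : 0 ≤ ∫ q in (-10 : ℝ)..10, f q :=
    intervalIntegral.integral_nonneg (by norm_num) fun q _ => h0 q
  simp only [zero_mul, Int.cast_zero, e_zero, mul_one, Finset.sum_const, card_Ls, nsmul_eq_mul,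
    intervalIntegral.integral_ofReal, norm_mul, Complex.norm_real, Complex.norm_natCast,
    Real.norm_eq_abs, abs_of_nonneg hI]
  push_cast
  ring

end AffAux

open AffAux in
theorem aff (h2 : L2S) (hm : MajS) : AffS := by
  intro ε hε
  obtain ⟨C2, hC2, h2⟩ := h2
  obtain ⟨Cm, hCm, hm⟩ := hm
  have hε4 : 0 < ε / 4 := by positivity
  obtain ⟨Cd, hCd, hd⟩ := fibre hε4
  set A := Cm * (3 ^ (ε / 4) / (ε / 4)) with hA
  have hA0 : 0 < A := by positivity
  refine ⟨A ^ 2 * (640 + 8 * (C2 * Cd) ^ 2), by positivity, fun N L f hN hL hc h0 => ?_⟩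
  have hN1 : (1 : ℝ) ≤ N := by exact_mod_cast hN
  obtain ⟨φ, hφ, hφ2⟩ := hm N L hN hL
  set x := (N : ℝ) ^ (ε / 4) with hx
  have hx1 : 1 ≤ x := Real.one_le_rpow hN1 hε4.le
  have hx4 : (N : ℝ) ^ ε = x ^ 4 := by
    rw [hx, ← Real.rpow_natCast, ← Real.rpow_mul (by positivity)]; congr 1; push_cast; ring
  have hφ3 : ∀ k, |φ k| ≤ A * x / N := fun k => (hφ k).trans (by
    rw [hA, mul_assoc]; gcongr; exact log_sq hε4 hN1)
  obtain ⟨h3, h4⟩ := h2 (ℤ × ℤ) (Ls N ×ˢ Ls L) (fun i => i.1 * i.2) (Cd * x) (by positivity)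
    (hd N L hL)
  set z : ℤ → ℂ := fun j => ∫ q in (-10 : ℝ)..10, (f q : ℂ) * e (j * Real.exp q) with hz
  set I1 := ∫ q in (-10 : ℝ)..10, f q with hI1
  set I2 := ∫ q in (-10 : ℝ)..10, f q ^ 2 with hI2
  have hI : 0 ≤ I1 := intervalIntegral.integral_nonneg (by norm_num) fun q _ => h0 q
  have hI' : 0 ≤ I2 := intervalIntegral.integral_nonneg (by norm_num) fun q _ => sq_nonneg _
  have h5 := h3 fun i => φ i.1 * ∑ l ∈ Ls L, z (i.1 * l)
  have h6 : ∑ i ∈ Ls N ×ˢ Ls L, ‖φ i.1 * ∑ l ∈ Ls L, z (i.1 * l)‖ ^ 2 ≤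
      (A * x / N) ^ 2 * (2 * L) ^ 2 * (C2 * (Cd * x) * I2) := by
    calc _ ≤ ∑ i ∈ Ls N ×ˢ Ls L, (A * x / N) ^ 2 * (2 * L * ∑ l ∈ Ls L, ‖z (i.1 * l)‖ ^ 2) := by
          refine Finset.sum_le_sum fun i _ => ?_
          rw [norm_mul, mul_pow, Complex.norm_real, Real.norm_eq_abs]
          gcongr
          · exact hφ3 _
          · refine (pow_le_pow_left₀ (norm_nonneg _) (norm_sum_le _ _) 2).trans
              (sq_sum_le_card_mul_sum_sq.trans (le_of_eq ?_))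
            rw [card_Ls]; push_cast; rfl
      _ = (A * x / N) ^ 2 * (2 * L) ^ 2 * ∑ i ∈ Ls N ×ˢ Ls L, ‖z (i.1 * i.2)‖ ^ 2 := by
          simp only [Finset.sum_product, Finset.sum_const, card_Ls, nsmul_eq_mul, ← Finset.mul_sum]
          push_cast
          ring
      _ ≤ _ := by gcongr; exact h4 f hc
  set g : ℝ → ℂ := fun p => ∑ i ∈ Ls N ×ˢ Ls L, (φ i.1 * ∑ l ∈ Ls L, z (i.1 * l)) *
    e ((i.1 * i.2 : ℤ) * Real.exp p) with hg
  have hgc : Continuous g := by rw [hg]; fun_prop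
  have hG : Continuous fun p => ∫ q in (-10 : ℝ)..10, f q * Kk N L p q :=
    intervalIntegral.continuous_parametric_intervalIntegral_of_continuous'
      ((hc.comp continuous_snd).mul (continuous_Kk N L)) _ _
  calc _ ≤ ∫ p in (-10 : ℝ)..10, (2 * (A * x / N * (2 * L) ^ 2 * I1) ^ 2 + 2 * ‖g p‖ ^ 2) := by
        refine intervalIntegral.integral_mono_on (by norm_num) ((hG.pow 2).intervalIntegrable _ _)
          (Continuous.intervalIntegrable (by fun_prop) _ _) fun p hp => ?_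
        have a1 : ∫ q in (-10 : ℝ)..10, f q * Kk N L p q ≤ A * x / N * (2 * L) ^ 2 * I1 + ‖g p‖ :=
          (point hc h0 hφ2 hp.2).trans (add_le_add (by gcongr; exact hφ3 0) le_rfl)
        refine (pow_le_pow_left₀ (intervalIntegral.integral_nonneg (by norm_num) fun q _ =>
          mul_nonneg (h0 q) (Kk_nonneg _ _ _ _)) a1 2).trans ?_
        nlinarith [sq_nonneg (A * x / N * (2 * L) ^ 2 * I1 - ‖g p‖)]
    _ = 40 * (A * x / N * (2 * L) ^ 2 * I1) ^ 2 + 2 * ∫ p in (-10 : ℝ)..10, ‖g p‖ ^ 2 := by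
        rw [intervalIntegral.integral_add (continuous_const.intervalIntegrable _ _)
          (Continuous.intervalIntegrable (by fun_prop) _ _), intervalIntegral.integral_const_mul
          2 fun p => ‖g p‖ ^ 2, intervalIntegral.integral_const, smul_eq_mul]
        ring
    _ ≤ 40 * (A * x ^ 2 / N * (2 * L) ^ 2 * I1) ^ 2 + 2 * (C2 * (Cd * x) *
          ((A * x / N) ^ 2 * (2 * L) ^ 2 * (C2 * (Cd * x) * I2))) := by
        refine add_le_add ?_ (mul_le_mul_of_nonneg_left (h5.trans (by gcongr)) zero_le_two)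
        gcongr
        exact le_self_pow₀ hx1 two_ne_zero
    _ = A ^ 2 * x ^ 4 / N ^ 2 * (640 * (L ^ 4 * I1 ^ 2) + 8 * (C2 * Cd) ^ 2 * (L ^ 2 * I2)) := by
        ring
    _ ≤ A ^ 2 * x ^ 4 / N ^ 2 * ((640 + 8 * (C2 * Cd) ^ 2) * (L ^ 4 * I1 ^ 2) +
          (640 + 8 * (C2 * Cd) ^ 2) * (L ^ 2 * I2)) := by
        gcongr
        · exact le_add_of_nonneg_right (by positivity)
        · exact le_add_of_nonneg_left (by positivity)
    _ = _ := by rw [hx4]; ring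

end Pool.Agent.Lib.MP_80d0cf_nt.Sg
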