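import Pool.Agent.Lib.MP_80d0cf_nt.Sg.Spec

/-! Approximation in the mean and the limit. -/

open Set MeasureTheory ComplexConjugate Filter Topology

namespace Pool.Agent.Lib.MP_80d0cf_nt.Sg

open Up

namespace ApxAux

/-- power of a sum, with weights -/
lemma wsum {A : ℕ} (hA : A ≠ 0) (s : Finset ℕ) {x w : ℕ → ℝ} (hx : ∀ j, 0 ≤ x j)
    (hw : ∀ j, 0 < w j) :
    (∑ j ∈ s, x j) ^ A ≤ (∑ j ∈ s, w j) ^ A * ∑ j ∈ s, x j ^ A / w j ^ A := by
  have h0 : ∀ j, 0 ≤ x j ^ A / w j ^ A := fun j =>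
    div_nonneg (pow_nonneg (hx j) _) (pow_nonneg (hw j).le _)
  obtain ⟨r, hr0, hr⟩ : ∃ r : ℝ, 0 ≤ r ∧ r ^ A = ∑ j ∈ s, x j ^ A / w j ^ A :=
    ⟨_, Real.rpow_nonneg (Finset.sum_nonneg fun j _ => h0 j) _,
      Real.rpow_inv_natCast_pow (Finset.sum_nonneg fun j _ => h0 j) hA⟩
  rw [← hr, ← mul_pow, Finset.sum_mul]
  refine pow_le_pow_left₀ (Finset.sum_nonneg fun j _ => hx j)
    (Finset.sum_le_sum fun j hj => ?_) _
  have h1 : (x j / w j) ^ A ≤ r ^ A := by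
    rw [hr, div_pow]
    exact Finset.single_le_sum (f := fun j => x j ^ A / w j ^ A) (fun j _ => h0 j) hj
  have h2 := le_of_pow_le_pow_left₀ hA hr0 h1
  rwa [div_le_iff₀' (hw j)] at h2

/-- summing the ranges -/
lemma glue {g : ℝ → ℝ} (hg : Continuous g) (h0 : ∀ t, 0 ≤ g t) {θ T1 : ℝ} (hθ : 0 ≤ θ)
    (hT1 : 0 < T1) (h : ∀ T, T1 ≤ T → ∫ t in (9 / 4 * T)..(11 / 4 * T), g t ≤ θ * T / 2) :
    ∃ B : ℝ, ∀ X, 0 ≤ X → ∫ t in (0 : ℝ)..X, g t ≤ B + θ * X := by
  set B := ∫ t in (0 : ℝ)..(11 / 4 * T1), g t with hB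
  have small : ∀ T, 0 ≤ T → T ≤ T1 →
      ∫ t in (0 : ℝ)..(11 / 4 * T), g t ≤ B + θ * (11 / 4 * T) := by
    intro T h1 h2
    have e := intervalIntegral.integral_add_adjacent_intervals (μ := volume)
      (hg.intervalIntegrable 0 (11 / 4 * T)) (hg.intervalIntegrable (11 / 4 * T) (11 / 4 * T1))
    have h3 : 0 ≤ ∫ t in (11 / 4 * T)..(11 / 4 * T1), g t :=
      intervalIntegral.integral_nonneg (by linarith) fun t _ => h0 t
    have h4 : 0 ≤ θ * (11 / 4 * T) := by positivity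
    linarith
  have ind : ∀ m : ℕ, ∀ T, 0 ≤ T → T ≤ T1 * (11 / 9) ^ m →
      ∫ t in (0 : ℝ)..(11 / 4 * T), g t ≤ B + θ * (11 / 4 * T) := by
    intro m
    induction m with
    | zero => intro T h1 h2; exact small T h1 (by simpa using h2)
    | succ m ih =>
      intro T h1 h2
      rcases le_total T T1 with h3 | h3
      · exact small T h1 h3
      have h4 := ih (9 / 11 * T) (by positivity) (by rw [pow_succ] at h2; linarith)
      rw [show 11 / 4 * (9 / 11 * T) = 9 / 4 * T by ring] at h4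
      have e := intervalIntegral.integral_add_adjacent_intervals (μ := volume)
        (hg.intervalIntegrable 0 (9 / 4 * T)) (hg.intervalIntegrable (9 / 4 * T) (11 / 4 * T))
      have h7 := h T h3
      linarith
  refine ⟨B, fun X hX => ?_⟩
  obtain ⟨m, hm⟩ := pow_unbounded_of_one_lt (4 / 11 * X / T1) (by norm_num : (1 : ℝ) < 11 / 9)
  have h1 := ind m (4 / 11 * X) (by positivity) (by rw [div_lt_iff₀ hT1] at hm; linarith)
  rwa [show 11 / 4 * (4 / 11 * X) = X by ring] at h1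

/-- the tail of the dyadic pieces -/
lemma tail {A : ℕ} (hA : A ≠ 0) {σ ρ C T a b g : ℝ} (hab : a ≤ b) (h0 : 0 < ρ) (h1 : ρ ≤ 1)
    (hC : 0 ≤ C * T) (s : Finset ℕ) (hg : ∑ j ∈ s, ρ ^ j ≤ g)
    (h : ∀ j ∈ s, ∫ τ in a..b, ‖DS σ (2 ^ j) τ‖ ^ A ≤ C * T * (ρ ^ (2 * A)) ^ j) :
    ∫ τ in a..b, ‖∑ j ∈ s, DS σ (2 ^ j) τ‖ ^ A ≤ g ^ (A + 1) * (C * T) := by
  have hG : 0 ≤ ∑ j ∈ s, ρ ^ j := Finset.sum_nonneg fun j _ => by positivity
  have c : ∀ j, Continuous fun τ => ‖DS σ (2 ^ j) τ‖ ^ A / (ρ ^ j) ^ A := fun j => by fun_prop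
  calc _ ≤ ∫ τ in a..b, g ^ A * ∑ j ∈ s, ‖DS σ (2 ^ j) τ‖ ^ A / (ρ ^ j) ^ A := by
        refine intervalIntegral.integral_mono_on hab (Continuous.intervalIntegrable (by fun_prop) _ _)
          (Continuous.intervalIntegrable (by fun_prop) _ _) fun τ _ => ?_
        refine (pow_le_pow_left₀ (norm_nonneg _) (norm_sum_le _ _) _).trans
          ((wsum hA s (w := fun j => ρ ^ j) (fun j => norm_nonneg _) fun j => by positivity).trans ?_)
        exact mul_le_mul_of_nonneg_right (pow_le_pow_left₀ hG hg _)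
          (Finset.sum_nonneg fun j _ => by positivity)
    _ = g ^ A * ∑ j ∈ s, (∫ τ in a..b, ‖DS σ (2 ^ j) τ‖ ^ A) / (ρ ^ j) ^ A := by
        rw [intervalIntegral.integral_const_mul,
          intervalIntegral.integral_finsetSum fun j _ => (c j).intervalIntegrable _ _]
        simp only [intervalIntegral.integral_div]
    _ ≤ g ^ A * (g * (C * T)) := by
        refine mul_le_mul_of_nonneg_left ?_ (pow_nonneg (hG.trans hg) _)
        refine le_trans (Finset.sum_le_sum fun j hj => ?_)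
          ((Finset.sum_mul _ _ _).symm.trans_le (mul_le_mul_of_nonneg_right hg hC))
        have p : 0 < (ρ ^ j) ^ A := by positivity
        rw [div_le_iff₀ p]
        refine (h j hj).trans ?_
        have e : (ρ ^ (2 * A)) ^ j = (ρ ^ j) ^ A * (ρ ^ j) ^ A := by ring
        have q : (ρ ^ j) ^ A ≤ ρ ^ j :=
          pow_le_of_le_one (by positivity) (pow_le_one₀ h0.le h1) hA
        rw [e]
        calc _ = (ρ ^ j) ^ A * (C * T * (ρ ^ j) ^ A) := by ring
          _ ≤ ρ ^ j * (C * T * (ρ ^ j) ^ A) := mul_le_mul_of_nonneg_right q (by positivity)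
          _ = _ := by ring
    _ = _ := by ring

lemma two (A : ℕ) {a b t x : ℝ} (ha : 0 ≤ a) (hb : 0 ≤ b) (ht : 0 < t) (hx : 0 ≤ x)
    (h : x ≤ a + b) : x ^ A ≤ (1 + t) ^ A * a ^ A + (1 + 1 / t) ^ A * b ^ A := by
  rw [← mul_pow, ← mul_pow]
  rcases le_total b (t * a) with h1 | h1
  · exact (pow_le_pow_left₀ hx (by linarith) _).trans (le_add_of_nonneg_right (by positivity))
  · have h2 : a ≤ 1 / t * b := by
      rw [one_div, ← div_eq_inv_mul, le_div_iff₀' ht]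
      exact h1
    exact (pow_le_pow_left₀ hx (by linarith) _).trans (le_add_of_nonneg_left (by positivity))

lemma mean_le (A : ℕ) {f g : ℝ → ℂ} (hf : Continuous f) (hg : Continuous g) {X t C0 θ : ℝ}
    (hX : 0 < X) (ht : 0 < t) (h : ∫ τ in (0 : ℝ)..X, ‖f τ - g τ‖ ^ A ≤ C0 + θ * X) :
    X⁻¹ * ∫ τ in (0 : ℝ)..X, ‖f τ‖ ^ A ≤
      (1 + t) ^ A * (X⁻¹ * ∫ τ in (0 : ℝ)..X, ‖g τ‖ ^ A) + (1 + 1 / t) ^ A * (X⁻¹ * C0 + θ) := by
  have h1 : ∫ τ in (0 : ℝ)..X, ‖f τ‖ ^ A ≤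
      ∫ τ in (0 : ℝ)..X, ((1 + t) ^ A * ‖g τ‖ ^ A + (1 + 1 / t) ^ A * ‖f τ - g τ‖ ^ A) :=
    intervalIntegral.integral_mono_on hX.le (Continuous.intervalIntegrable (by fun_prop) _ _)
      (Continuous.intervalIntegrable (by fun_prop) _ _) fun τ _ =>
      two A (norm_nonneg _) (norm_nonneg _) ht (norm_nonneg _) (norm_le_norm_add_norm_sub' _ _)
  rw [intervalIntegral.integral_add (Continuous.intervalIntegrable (by fun_prop) _ _)
    (Continuous.intervalIntegrable (by fun_prop) _ _), intervalIntegral.integral_const_mul,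
    intervalIntegral.integral_const_mul] at h1
  have h2 := mul_le_mul_of_nonneg_left h (by positivity : 0 ≤ (1 + 1 / t) ^ A)
  calc _ ≤ X⁻¹ * ((1 + t) ^ A * (∫ τ in (0 : ℝ)..X, ‖g τ‖ ^ A) +
        (1 + 1 / t) ^ A * (C0 + θ * X)) :=
        mul_le_mul_of_nonneg_left (by linarith) (inv_pos.2 hX).le
    _ = _ := by field_simp

lemma pick (A : ℕ) {a b : ℝ} (h : a < b) :
    ∃ t θ : ℝ, 0 < t ∧ 0 < θ ∧ (1 + t) ^ A * a + (1 + 1 / t) ^ A * θ < b := by
  have h1 : Tendsto (fun t : ℝ => (1 + t) ^ A * a) (𝓝[>] 0) (𝓝 a) := by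
    have : Continuous fun t : ℝ => (1 + t) ^ A * a := by fun_prop
    simpa using (this.tendsto 0).mono_left nhdsWithin_le_nhds
  obtain ⟨t, h2, ht⟩ := ((h1.eventually_lt_const h).and self_mem_nhdsWithin).exists
  have ht : 0 < t := ht
  have w : 0 < (1 + 1 / t) ^ A := by positivity
  refine ⟨t, (b - (1 + t) ^ A * a) / 2 / (1 + 1 / t) ^ A, ht, div_pos (by linarith) w, ?_⟩
  rw [mul_div_cancel₀ _ w.ne']
  linarith

end ApxAux

open ApxAux

theorem apx (hz : ZapS) : ApxS := by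
  intro k σ hk h1 h2 ⟨c, C, T0, hc, hC, hU⟩ θ hθ
  obtain ⟨Z, hZ, hz⟩ := hz σ h1 h2
  have hA : 2 * k ≠ 0 := by omega
  generalize 2 * k = A at hA hU ⊢
  obtain ⟨ρ, ρ0, ρ1, hρ⟩ : ∃ ρ : ℝ, 0 < ρ ∧ ρ < 1 ∧ ρ ^ (2 * A) = 2 ^ (-c) := by
    have p : (0 : ℝ) < (2 * A : ℕ) := by positivity
    refine ⟨((2 : ℝ) ^ (-c)) ^ (((2 * A : ℕ) : ℝ)⁻¹), by positivity, Real.rpow_lt_one (by positivity)
      (Real.rpow_lt_one_of_one_lt_of_neg one_lt_two (by linarith)) (inv_pos.2 p),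
      Real.rpow_inv_natCast_pow (by positivity) (by omega)⟩
  have l1 : Tendsto (fun J : ℕ => 2 ^ (A - 1) * ((ρ ^ J * ρ / (1 - ρ)) ^ (A + 1) * C)) atTop
      (𝓝 0) := by
    have := ((((tendsto_pow_atTop_nhds_zero_of_lt_one ρ0.le ρ1).mul_const ρ).div_const
      (1 - ρ)).pow (A + 1)).mul_const C |>.const_mul (2 ^ (A - 1))
    simpa using this
  filter_upwards [l1.eventually_le_const (by positivity : 0 < θ / 4)] with J hJ
  have l2 : Tendsto (fun T : ℝ => 2 ^ (A - 1) * (Z * T ^ (1 - 2 * σ)) ^ A) atTop (𝓝 0) := by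
    have := (((tendsto_rpow_neg_atTop (by linarith : 0 < 2 * σ - 1)).const_mul Z).pow A).const_mul
      (2 ^ (A - 1))
    simpa [hA] using this
  obtain ⟨T1, hT1⟩ := eventually_atTop.1 ((l2.eventually_le_const (by positivity : 0 < θ / 2)).and
    ((eventually_ge_atTop T0).and (eventually_ge_atTop ((2 : ℝ) ^ J))))
  have cz := continuous_ZS (σ := σ) h2.ne
  refine glue (by fun_prop) (fun t => by positivity) hθ.le (T1 := max T1 1) (by positivity)
    fun T hT => ?_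
  obtain ⟨a1, a2, a3⟩ := hT1 T (le_of_max_le_left hT)
  have hT : 1 ≤ T := le_of_max_le_right hT
  obtain ⟨n, n1, n2⟩ := exists_nat_pow_near (x := T ^ 2) (y := 2) (one_le_pow₀ hT) one_lt_two
  have n3 : (2 : ℝ) ^ (n + 1) ≤ 2 * T ^ 2 := by rw [pow_succ]; linarith
  have hJn : J + 1 ≤ n + 1 + 1 := by
    have : (2 : ℝ) ^ J < 2 ^ (n + 1) := by nlinarith
    have := (pow_lt_pow_iff_right₀ (one_lt_two (α := ℝ))).1 this
    omega
  have hab : 9 / 4 * T ≤ 11 / 4 * T := by linarith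
  have t1 := tail hA (σ := σ) (C := C) (T := T) (g := ρ ^ J * ρ / (1 - ρ)) hab ρ0 ρ1.le
    (by positivity) (Finset.Ico (J + 1) (n + 1 + 1))
    (by rw [← pow_succ]; exact geom_sum_Ico_le_of_lt_one ρ0.le ρ1) fun j hj => by
      have hj := (Finset.mem_Ico.1 hj).2
      have := hU T (2 ^ j) a2 Nat.one_le_two_pow (by
        push_cast
        exact (pow_le_pow_right₀ one_le_two (by omega)).trans n3)
      rw [hρ, ← Real.rpow_natCast, ← Real.rpow_mul two_pos.le, mul_comm (-c),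
        Real.rpow_mul two_pos.le, Real.rpow_natCast]
      exact_mod_cast this
  have t2 : ∫ τ in (9 / 4 * T)..(11 / 4 * T), ‖ZS σ τ - PS σ J τ‖ ^ A ≤
      ∫ τ in (9 / 4 * T)..(11 / 4 * T), 2 ^ (A - 1) * ((Z * T ^ (1 - 2 * σ)) ^ A +
        ‖∑ j ∈ Finset.Ico (J + 1) (n + 1 + 1), DS σ (2 ^ j) τ‖ ^ A) := by
    refine intervalIntegral.integral_mono_on hab (Continuous.intervalIntegrable (by fun_prop) _ _)
      (Continuous.intervalIntegrable (by fun_prop) _ _) fun τ hτ => ?_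
    refine le_trans (pow_le_pow_left₀ (norm_nonneg _) ?_ _)
      (add_pow_le (by positivity) (norm_nonneg _) A)
    have e : ZS σ τ - PS σ J τ = (ZS σ τ - PS σ (n + 1) τ) +
        ∑ j ∈ Finset.Ico (J + 1) (n + 1 + 1), DS σ (2 ^ j) τ := by
      rw [PS, PS, ← Finset.sum_range_add_sum_Ico _ hJn]
      ring
    rw [e]
    refine (norm_add_le _ _).trans (add_le_add_left ?_ _)
    exact hz T τ (n + 1) hT ⟨by linarith [hτ.1], by linarith [hτ.2]⟩ n2.le n3
  rw [intervalIntegral.integral_const_mul, intervalIntegral.integral_add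
    (Continuous.intervalIntegrable (by fun_prop) _ _)
    (Continuous.intervalIntegrable (by fun_prop) _ _), intervalIntegral.integral_const,
    smul_eq_mul] at t2
  have t3 := mul_le_mul_of_nonneg_left t1 (by positivity : (0 : ℝ) ≤ 2 ^ (A - 1))
  have t4 := mul_le_mul_of_nonneg_right hJ (by linarith : 0 ≤ T)
  have t5 := mul_le_mul_of_nonneg_right a1 (by linarith : 0 ≤ T)
  linarith

theorem finS (ha : ApxS) (hl : LimS) (hs : SumS) : FinS := by
  intro k σ hk h1 h2 hU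
  have cz := continuous_ZS (σ := σ) h2.ne
  have inv : ∀ C0 θ w : ℝ, Tendsto (fun X : ℝ => w * (X⁻¹ * C0 + θ)) atTop (𝓝 (w * θ)) :=
    fun C0 θ w => by
      simpa using ((tendsto_inv_atTop_zero.mul_const C0).add_const θ).const_mul w
  have key : Tendsto (fun X : ℝ => X⁻¹ * ∫ τ in (0 : ℝ)..X, ‖ZS σ τ‖ ^ (2 * k)) atTop
      (𝓝 (∑' m, dd k σ m)) := by
    refine tendsto_order.2 ⟨fun a h => ?_, fun b h => ?_⟩
    · obtain ⟨t, θ, ht, hθ, h3⟩ := pick (2 * k) h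
      have l1 : Tendsto (fun J : ℕ => ∑ m ∈ Finset.range (2 ^ J + 1), dd k σ m) atTop
          (𝓝 (∑' m, dd k σ m)) := (hs k σ h1).hasSum.tendsto_sum_nat.comp
        (tendsto_atTop_mono (fun J => (Nat.lt_two_pow_self (n := J)).le.trans (Nat.le_succ _))
          tendsto_id)
      obtain ⟨J, ⟨C0, h4⟩, h5⟩ := ((ha k σ hk h1 h2 hU θ hθ).and (l1.eventually_const_lt h3)).exists
      obtain ⟨c, c1, -, c3⟩ := hl k σ J hk h1
      filter_upwards [(c3.sub (inv C0 θ ((1 + 1 / t) ^ (2 * k)))).eventually_const_lt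
        (by linarith : (1 + t) ^ (2 * k) * a < _), eventually_gt_atTop 0] with X h6 hX
      have h7 := mean_le (2 * k) (continuous_PS σ J) cz hX ht (C0 := C0) (θ := θ) (by
        simpa only [norm_sub_rev] using h4 X hX.le)
      exact lt_of_mul_lt_mul_left (by linarith) (by positivity : 0 ≤ (1 + t) ^ (2 * k))
    · obtain ⟨t, θ, ht, hθ, h3⟩ := pick (2 * k) h
      obtain ⟨J, C0, h4⟩ := (ha k σ hk h1 h2 hU θ hθ).exists
      obtain ⟨c, -, c2, c3⟩ := hl k σ J hk h1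
      have c4 := mul_le_mul_of_nonneg_left c2 (by positivity : 0 ≤ (1 + t) ^ (2 * k))
      filter_upwards [((c3.const_mul ((1 + t) ^ (2 * k))).add
        (inv C0 θ ((1 + 1 / t) ^ (2 * k)))).eventually_lt_const (by linarith : _ < b),
        eventually_gt_atTop 0] with X h6 hX
      exact (mean_le (2 * k) cz (continuous_PS σ J) hX ht (h4 X hX.le)).trans_lt h6
  have hπ : 0 < 2 * Real.pi := by positivity
  refine (key.comp (tendsto_id.atTop_div_const hπ)).congr fun T => ?_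
  have e := intervalIntegral.integral_comp_mul_left (a := 0) (b := T / (2 * Real.pi))
    (fun t : ℝ => ‖riemannZeta (σ + t * Complex.I)‖ ^ (2 * k)) hπ.ne'
  rw [mul_zero, mul_div_cancel₀ _ hπ.ne', smul_eq_mul] at e
  show (T / (2 * Real.pi))⁻¹ * ∫ τ in (0 : ℝ)..(T / (2 * Real.pi)),
    ‖riemannZeta (σ + (2 * Real.pi * τ : ℝ) * Complex.I)‖ ^ (2 * k) = _
  rw [e, inv_div, div_eq_mul_inv, mul_comm (2 * Real.pi), mul_assoc, mul_inv_cancel_left₀ hπ.ne']

end Pool.Agent.Lib.MP_80d0cf_nt.Sg
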