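import Pool.Agent.Lib.MP_80d0cf_nt.Sg.Spec

/-! Large values in short windows. -/

open Set MeasureTheory ComplexConjugate Filter Topology

namespace Pool.Agent.Lib.MP_80d0cf_nt.Sg

open Up

theorem gml (hc : CbS) (he : EnS) (h3 : T3S) (hx : HmxS) : GmlS := by
  intro c hc0 hc1
  obtain ⟨g, N0, hg, hg1, hx⟩ := hx c hc0 hc1
  obtain ⟨η, hη, rfl⟩ : ∃ η : ℝ, 0 < η ∧ g = 10 * η := ⟨g / 10, by positivity, by ring⟩
  obtain ⟨C, hC, hc⟩ := hc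
  obtain ⟨C3, hC3, h3⟩ := h3 η hη
  obtain ⟨N1, he⟩ := he c η hη hc0.le hc1
  obtain ⟨N2, hN2, hl⟩ := exists_log_pow_le (C + 16 + 2 * C3) 1 hη
  refine ⟨η, max N0 (max N1 N2), hη, by linarith, fun N a W hN ha hU hS => ?_⟩
  simp only [max_le_iff] at hN
  have hl := hl N hN.2.2
  rw [pow_one] at hl
  have h1 : (1 : ℝ) ≤ N := hN2.trans hN.2.2
  have hN1 : 1 ≤ N := by exact_mod_cast h1
  have hN0 : (0 : ℝ) < N := by linarith
  have mono : ∀ {x y : ℝ}, x ≤ y → (N : ℝ) ^ x ≤ (N : ℝ) ^ y := fun h =>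
    Real.rpow_le_rpow_of_exponent_le h1 h
  have ad : ∀ x y : ℝ, (N : ℝ) ^ x * (N : ℝ) ^ y = (N : ℝ) ^ (x + y) := fun x y =>
    (Real.rpow_add hN0 x y).symm
  have ad1 : ∀ x : ℝ, (N : ℝ) ^ (1 + x) = (N : ℝ) ^ x * N := fun x => by
    rw [add_comm, Real.rpow_add_one hN0.ne']
  have pw : ∀ (x : ℝ) (n : ℕ), ((N : ℝ) ^ x) ^ n = (N : ℝ) ^ (x * n) := fun x n =>
    (Real.rpow_mul_natCast hN0.le x n).symm
  have sq : ∀ {y x : ℝ}, y ≤ (N : ℝ) ^ x → √y ≤ (N : ℝ) ^ (x / 2) := fun h =>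
    Real.sqrt_le_iff.2 ⟨by positivity, h.trans_eq (by rw [pw]; congr 1; push_cast; ring)⟩
  have le1 : ∀ {x : ℝ}, x ≤ 1 → (N : ℝ) ^ x ≤ N := fun h => (mono h).trans (Real.rpow_one _).le
  have hL := one_le_log_add_two h1
  have b1 : C + 16 + 2 * C3 ≤ (N : ℝ) ^ η := (le_mul_of_one_le_right (by positivity) hL).trans hl
  have b2 : C * N * Real.log (N + 2) ≤ (N : ℝ) ^ (1 + η) := by
    rw [ad1, mul_right_comm]
    gcongr
    exact le_trans (by gcongr; linarith) hl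
  by_contra hW
  obtain ⟨W', hW', hn⟩ := Finset.exists_subset_card_eq (Nat.ceil_le.2 (not_le.1 hW).le)
  have n1 : (N : ℝ) ^ (1 / 2 + c - η) ≤ W'.card := hn ▸ Nat.le_ceil _
  have n2 : (W'.card : ℝ) ≤ (N : ℝ) ^ (1 / 2 + c) := by
    have := Real.one_le_rpow h1 (show 0 ≤ 1 / 2 + c - η by linarith)
    calc _ ≤ (N : ℝ) ^ (1 / 2 + c - η) + 1 := hn ▸ (Nat.ceil_lt_add_one (by positivity)).le
      _ ≤ 2 * (N : ℝ) ^ (1 / 2 + c - η) := by linarith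
      _ ≤ (N : ℝ) ^ η * (N : ℝ) ^ (1 / 2 + c - η) := by gcongr; linarith
      _ = _ := by rw [ad]; congr 1; ring
  have n3 : (0 : ℝ) < W'.card := lt_of_lt_of_le (by positivity) n1
  have hU' : ∀ u ∈ W', ∀ v ∈ W', |(u : ℝ) - v| ≤ (N : ℝ) ^ (1 + c) := fun u hu v hv =>
    hU u (hW' hu) v (hW' hv)
  have a1 := Nat.floor_le (a := 16 * (N : ℝ) ^ c) (by positivity)
  have a2 := (Nat.lt_floor_add_one (16 * (N : ℝ) ^ c)).le
  have hx := fun u => hx N u hN.1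
  generalize ⌊16 * (N : ℝ) ^ c⌋₊ = L at a1 a2 hx
  have a3 : (L : ℝ) ≤ (N : ℝ) ^ (η + c) := a1.trans (by rw [← ad]; gcongr; linarith)
  have a4 : (L : ℝ) ≤ N := a3.trans (le1 (by linarith))
  have k1 := hc N L a W' _ ((N : ℝ) ^ (3 / 4 - η)) ((N : ℝ) ^ (1 + c - 4 * η)) _ hN1
    (by exact_mod_cast n3) (by exact_mod_cast n2.trans (le1 (by linarith))) ha hU'
    ((mono (by linarith)).trans (Real.rpow_two _).le)
    (by rw [ad1, ← mul_assoc]; gcongr) (by nlinarith) (by positivity)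
    (fun u hu => hS u (hW' hu)) (by positivity) (by
      rw [le_div_iff₀ (by positivity)]
      calc _ ≤ ((N : ℝ) ^ (1 + c - 4 * η) + (N : ℝ) ^ (1 + c - 4 * η)) * (5 * N) := by
            gcongr; exact b2.trans (mono (by linarith))
        _ = 10 * ((N : ℝ) ^ (1 + c - 4 * η) * N) := by ring
        _ ≤ (N : ℝ) ^ η * ((N : ℝ) ^ (1 + c - 4 * η) * N) := by gcongr; linarith
        _ = (N : ℝ) ^ (1 / 2 + c - η) * ((N : ℝ) ^ (3 / 4 - η)) ^ 2 := by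
            rw [← ad1, pw, ad, ad]; congr 1; push_cast; ring
        _ ≤ _ := by gcongr) hx
  have k2 := h3 N L W' hN1 (by exact_mod_cast a4)
  have k3 := sq (he N a W' hN.2.1 ha hU' (fun u hu => hS u (hW' hu)) n2)
  have k4 := sq n2
  have k5 : ((N : ℝ) ^ (1 + c - 4 * η)) ^ 3 ≤ (2 * C3 + 1) * (N : ℝ) ^ (3 + 3 * c - 14 * η) := by
    calc _ ≤ C3 * (N : ℝ) ^ (2 + η) * (N : ℝ) ^ ((1 / 2 + c) / 2) *
            (((N : ℝ) ^ (η + c)) ^ 2 * (N : ℝ) ^ (1 / 2 + c) +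
              (N : ℝ) ^ (η + c) * (N : ℝ) ^ ((3 / 2 + c + 8 * η) / 2)) +
          (N : ℝ) ^ (1 + η) * (((N : ℝ) ^ (1 / 2 + c)) ^ 2 * ((N : ℝ) ^ ((1 + c) / 2 - 10 * η)) ^ 2) :=
          k1.trans (add_le_add (k2.trans (by gcongr)) (by gcongr))
      _ ≤ C3 * (N : ℝ) ^ (3 + 3 * c - 14 * η) + C3 * (N : ℝ) ^ (3 + 3 * c - 14 * η) +
          (N : ℝ) ^ (3 + 3 * c - 14 * η) := by
          rw [mul_add, mul_assoc C3, mul_assoc C3, mul_assoc C3]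
          simp only [pw, ad]
          gcongr C3 * ?_ + C3 * ?_ + ?_ <;> exact mono (by push_cast; linarith)
      _ = _ := by ring
  have k6 : (2 * C3 + 1) * (N : ℝ) ^ (3 + 3 * c - 14 * η) <
      (N : ℝ) ^ η * (N : ℝ) ^ (3 + 3 * c - 14 * η) := by gcongr; linarith
  rw [pw] at k5
  rw [ad] at k6
  exact absurd (k5.trans_lt k6) (not_lt.2 (mono (by push_cast; linarith)))

end Pool.Agent.Lib.MP_80d0cf_nt.Sg
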