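import Pool.Agent.Lib.MP_80d0cf_nt.Sg.Spec
import Pool.Agent.Lib.MP_80d0cf_nt.Up.Grid

/-! From points to measure, and the square of a piece. -/

open Set MeasureTheory ComplexConjugate Filter Topology

namespace Pool.Agent.Lib.MP_80d0cf_nt.Sg

open Up

namespace GrdAux

/-- coefficient of a piece -/
noncomputable def cf (N n : ℕ) : ℝ := wN (n / N) / √n

/-- coefficient of the square of a piece -/
noncomputable def bb (N m : ℕ) : ℝ :=
  ∑ p ∈ (Finset.Icc 1 (2 * N) ×ˢ Finset.Icc 1 (2 * N)).filter (fun p => p.1 * p.2 = m),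
    cf N p.1 * cf N p.2

lemma cf_range {N n : ℕ} (hN : 1 ≤ N) (h : cf N n ≠ 0) : (N : ℝ) / 2 < n ∧ (n : ℝ) < 2 * N := by
  have hN0 : (0 : ℝ) < N := by exact_mod_cast hN
  by_contra hc
  refine h ?_
  rw [cf, wN_eq_zero, zero_div]
  rcases not_and_or.1 hc with h1 | h1
  · left; rw [div_le_iff₀ hN0]; linarith [not_lt.1 h1]
  · right; rw [le_div_iff₀ hN0]; exact not_lt.1 h1

lemma abs_cf_mul_le {N : ℕ} (hN : 1 ≤ N) (n m : ℕ) : |cf N n * cf N m| ≤ 2 / N := by
  have hN0 : (0 : ℝ) < N := by exact_mod_cast hN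
  have key : ∀ k : ℕ, |cf N k| ≤ 1 / √((N : ℝ) / 2) := by
    intro k
    by_cases h : cf N k = 0
    · rw [h, abs_zero]; positivity
    · have h1 := (cf_range hN h).1
      rw [cf, abs_div, abs_of_nonneg (Real.sqrt_nonneg _)]
      exact div_le_div₀ one_pos.le (abs_wN_le _) (by positivity) (Real.sqrt_le_sqrt h1.le)
  rw [abs_mul]
  refine (mul_le_mul (key n) (key m) (abs_nonneg _) (by positivity)).trans (le_of_eq ?_)
  rw [div_mul_div_comm, Real.mul_self_sqrt (by positivity)]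
  field_simp

lemma abs_bb_le {N : ℕ} (hN : 1 ≤ N) {m : ℕ} (hm : m ≠ 0) : |bb N m| ≤ Six.D 2 m * (2 / N) := by
  have hN0 : (0 : ℝ) < N := by exact_mod_cast hN
  rw [bb, Six.D_two]
  refine (Finset.abs_sum_le_sum_abs _ _).trans ((Finset.sum_le_card_nsmul _ _ (2 / (N : ℝ))
    fun p _ => abs_cf_mul_le hN p.1 p.2).trans ?_)
  rw [nsmul_eq_mul]
  refine mul_le_mul_of_nonneg_right (Nat.cast_le.2 ?_) (by positivity)
  refine Finset.card_le_card_of_injOn Prod.fst (fun p hp => ?_) fun p hp q hq hpq => ?_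
  · have h1 := (Finset.mem_filter.1 (Finset.mem_coe.1 hp)).2
    exact Finset.mem_coe.2 (Nat.mem_divisors.2 ⟨⟨p.2, h1.symm⟩, hm⟩)
  · have h1 := (Finset.mem_filter.1 (Finset.mem_coe.1 hp)).2
    have h2 := (Finset.mem_filter.1 (Finset.mem_coe.1 hq)).2
    have h3 : q.1 ≠ 0 := fun h => hm (by rw [← h2, h, zero_mul])
    refine Prod.ext hpq (Nat.eq_of_mul_eq_mul_left (Nat.pos_of_ne_zero h3) ?_)
    rw [h2, ← hpq, h1]

lemma bb_range {N m : ℕ} (hN : 1 ≤ N) (h : bb N m ≠ 0) :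
    (N : ℝ) ^ 2 / 4 ≤ m ∧ (m : ℝ) ≤ 4 * (N : ℝ) ^ 2 := by
  have hN0 : (0 : ℝ) < N := by exact_mod_cast hN
  obtain ⟨p, hp, h1⟩ := Finset.exists_ne_zero_of_sum_ne_zero h
  obtain ⟨h2, h3⟩ := cf_range hN (left_ne_zero_of_mul h1)
  obtain ⟨h4, h5⟩ := cf_range hN (right_ne_zero_of_mul h1)
  rw [← (Finset.mem_filter.1 hp).2, Nat.cast_mul]
  constructor <;> nlinarith

lemma DN_sq (N : ℕ) (τ : ℝ) : DN N τ ^ 2 =
    ∑ m ∈ Finset.Icc 1 (5 * N ^ 2), (bb N m : ℂ) * e (-(τ * Real.log m)) := by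
  rw [sq, DN, Finset.sum_mul_sum, ← Finset.sum_product',
    ← Finset.sum_fiberwise_of_maps_to (g := fun p : ℕ × ℕ => p.1 * p.2)
      (t := Finset.Icc 1 (5 * N ^ 2))]
  · refine Finset.sum_congr rfl fun m _ => ?_
    rw [bb, Complex.ofReal_sum, Finset.sum_mul]
    refine Finset.sum_congr rfl fun p hp => ?_
    obtain ⟨h1, h2⟩ := Finset.mem_filter.1 hp
    obtain ⟨h3, h4⟩ := Finset.mem_product.1 h1
    have h5 : (p.1 : ℝ) ≠ 0 := by
      exact_mod_cast (Nat.one_le_iff_ne_zero.1 (Finset.mem_Icc.1 h3).1)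
    have h6 : (p.2 : ℝ) ≠ 0 := by
      exact_mod_cast (Nat.one_le_iff_ne_zero.1 (Finset.mem_Icc.1 h4).1)
    rw [← h2, Nat.cast_mul, Real.log_mul h5 h6, mul_add, neg_add, e_add, Complex.ofReal_mul, cf, cf]
    ring
  · intro p hp
    obtain ⟨h3, h4⟩ := Finset.mem_product.1 hp
    rw [Finset.mem_Icc] at h3 h4 ⊢
    refine ⟨Nat.mul_pos h3.1 h4.1, (Nat.mul_le_mul h3.2 h4.2).trans ?_⟩
    nlinarith

end GrdAux

open GridAux Classical in
theorem grd : GrdS := by
  intro F a b U V R hF hab hU hW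
  have hR : 0 ≤ R := by simpa using hW 0 ∅ (by simp) (by simp)
  set P : ℕ := ⌊U⌋₊ with hP
  have hP1 : 1 ≤ P := Nat.le_floor (by simpa using hU)
  have hP2 : (1 : ℝ) ≤ P := by exact_mod_cast hP1
  have hPU : (P : ℝ) ≤ U := Nat.floor_le (by linarith)
  have hUP : U ≤ 2 * P := by linarith [Nat.lt_floor_add_one U]
  have hba : 0 ≤ b - a := by linarith
  set J : ℕ := ⌊(b - a) / P⌋₊ + 1 with hJ
  have hJ1 : b - a < J * P := by
    rw [← div_lt_iff₀ (by positivity), hJ]; push_cast; exact Nat.lt_floor_add_one _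
  have hJ2 : (J : ℝ) ≤ (b - a) / P + 1 := by
    rw [hJ]; push_cast; linarith [Nat.floor_le (show 0 ≤ (b - a) / P by positivity)]
  set S : Set ℝ := {τ | τ ∈ Icc a b ∧ V ≤ ‖F τ‖} with hS
  have hSm : MeasurableSet S := (isClosed_levSet hF.continuousOn).measurableSet
  have hvol : volume ((fun x => a + x) ⁻¹' S) ≤ ENNReal.ofReal (J * R) := by
    refine vol_le_count (measurable_const_add a hSm) (J * P)
      (fun v hv => ⟨by linarith [hv.1.1], ?_⟩) fun θ _ => ?_
    · push_cast; linarith [hv.1.2]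
    refine card_split (fun n : ℕ => (n : ℝ) + θ ∈ (fun x => a + x) ⁻¹' S) P J fun j => ?_
    rw [← Finset.card_image_of_injective _ (Nat.cast_injective (R := ℤ))]
    refine hW (a + θ + (j * P : ℕ)) _ (fun u hu v hv => ?_) fun u hu => ?_
    · obtain ⟨w, hw, rfl⟩ := Finset.mem_image.1 hu
      obtain ⟨z, hz, rfl⟩ := Finset.mem_image.1 hv
      have h1 : (w : ℝ) < P := by exact_mod_cast Finset.mem_range.1 (Finset.mem_filter.1 hw).1
      have h2 : (z : ℝ) < P := by exact_mod_cast Finset.mem_range.1 (Finset.mem_filter.1 hz).1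
      rw [Int.cast_natCast, Int.cast_natCast, abs_le]
      constructor <;> linarith [Nat.cast_nonneg (α := ℝ) w, Nat.cast_nonneg (α := ℝ) z]
    · obtain ⟨w, hw, rfl⟩ := Finset.mem_image.1 hu
      have h1 : V ≤ ‖F (a + (((j * P + w : ℕ) : ℝ) + θ))‖ := (Finset.mem_filter.1 hw).2.2
      rw [Int.cast_natCast]
      rwa [Nat.cast_add, show a + (((j * P : ℕ) : ℝ) + w + θ) = a + θ + (j * P : ℕ) + w by ring]
        at h1
  rw [measure_preimage_add] at hvol
  refine (ENNReal.toReal_le_of_le_ofReal (by positivity) hvol).trans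
    (mul_le_mul_of_nonneg_right (hJ2.trans ?_) hR)
  have h1 : (b - a) / P ≤ 2 * (b - a) / U := by
    rw [div_le_div_iff₀ (by positivity) (by positivity)]; nlinarith
  linarith

open GrdAux in
theorem sqS : SqS := by
  intro ε hε
  obtain ⟨C0, hC0, hD⟩ := Six.divisor_bound (half_pos hε)
  refine ⟨2 * C0 * 2 ^ ε, by positivity, fun N τ0 hN => ?_⟩
  have hN0 : (0 : ℝ) < N := by exact_mod_cast hN
  set κ : ℝ := N / (2 * C0 * 2 ^ ε * (N : ℝ) ^ ε) with hκ
  have hκ0 : 0 < κ := by positivity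
  refine ⟨fun m => (κ : ℂ) * (bb N m : ℂ) * e (τ0 * Real.log m), fun k => ?_, fun u => ?_⟩
  · rw [norm_mul, norm_mul, norm_e, mul_one, Complex.norm_real, Complex.norm_real,
      Real.norm_of_nonneg hκ0.le, Real.norm_eq_abs]
    by_cases h : bb N k = 0
    · rw [h, abs_zero, mul_zero]; exact bw_nonneg _
    obtain ⟨h1, h2⟩ := bb_range hN h
    have hk : (0 : ℝ) < k := lt_of_lt_of_le (by positivity) h1
    rw [bw_eq_one (by rw [le_div_iff₀ (by positivity)]; push_cast; linarith)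
      (by rw [div_le_iff₀ (by positivity)]; push_cast; linarith)]
    have h3 : (k : ℝ) ^ (ε / 2) ≤ 2 ^ ε * (N : ℝ) ^ ε := by
      refine (Real.rpow_le_rpow hk.le h2 (half_pos hε).le).trans (le_of_eq ?_)
      rw [show 4 * (N : ℝ) ^ 2 = (2 * N) ^ (2 : ℝ) by rw [Real.rpow_two]; ring,
        ← Real.rpow_mul (by positivity), show 2 * (ε / 2) = ε by ring,
        Real.mul_rpow two_pos.le hN0.le]
    have h4 := (abs_bb_le hN (by exact_mod_cast hk.ne')).trans
      (mul_le_mul_of_nonneg_right ((hD k).trans (mul_le_mul_of_nonneg_left h3 (by positivity)))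
        (by positivity))
    refine (mul_le_mul_of_nonneg_left h4 hκ0.le).trans (le_of_eq ?_)
    rw [hκ]; field_simp
  · have h1 : SN (N ^ 2) (fun m => (κ : ℂ) * (bb N m : ℂ) * e (τ0 * Real.log m)) u =
        κ * e (-(u * Real.log ((N ^ 2 : ℕ) : ℝ))) * conj (DN N (τ0 + u) ^ 2) := by
      rw [DN_sq, SN, Sk, map_sum, Finset.mul_sum]
      refine Finset.sum_congr rfl fun m hm => ?_
      have h5 : (m : ℝ) ≠ 0 := by
        exact_mod_cast (Nat.one_le_iff_ne_zero.1 (Finset.mem_Icc.1 hm).1)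
      rw [map_mul, Complex.conj_ofReal, conj_e, neg_neg, Real.log_div h5 (by positivity), mul_sub,
        sub_eq_add_neg, e_add, add_mul, e_add]
      ring
    rw [h1, norm_mul, norm_mul, norm_e, mul_one, Complex.norm_real, Real.norm_of_nonneg hκ0.le,
      Complex.norm_conj, norm_pow, hκ]
    refine le_of_eq ?_
    field_simp

end Pool.Agent.Lib.MP_80d0cf_nt.Sg
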