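import Pool.Agent.Lib.MP_80d0cf_nt.Sg.Spec

/-! Pointwise bound for the nonzero frequencies, and the classical large values estimate. -/

open Set MeasureTheory ComplexConjugate Filter Topology

namespace Pool.Agent.Lib.MP_80d0cf_nt.Sg

open Up

theorem hmx (h0 : K0S) (h2 : K2S) (hb : KbS) (h3 : K3S) : HmxS := by
  intro c hc hc1
  obtain ⟨C0, hC0, h0⟩ := h0
  obtain ⟨C2, hC2, h2⟩ := h2
  obtain ⟨Cb, hCb, hb⟩ := hb
  obtain ⟨J, hJ⟩ := exists_nat_ge (2 / c)
  obtain ⟨C3, γ, hC3, hγ, hγ1, h3⟩ := h3 J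
  have hg : 0 < γ * c / 4 := by positivity
  have hg1 : γ * c / 4 ≤ c / 16 := by nlinarith
  obtain ⟨N1, hN1, hl⟩ := exists_log_pow_le (C0 + C2 + 2 * Cb + 2 * C3) 1 hg
  refine ⟨γ * c / 4, max N1 3, hg, by linarith, fun N u hN hu => ?_⟩
  rw [max_le_iff] at hN
  have hl := hl N hN.1
  rw [pow_one] at hl
  generalize hgd : γ * c / 4 = g at *
  have hN3 : 3 ≤ N := by exact_mod_cast hN.2
  have h1 : (1 : ℝ) ≤ N := by linarith [hN.2]
  have hN0 : (0 : ℝ) < N := by linarith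
  have mono : ∀ {x y : ℝ}, x ≤ y → (N : ℝ) ^ x ≤ (N : ℝ) ^ y := fun h =>
    Real.rpow_le_rpow_of_exponent_le h1 h
  have ad : ∀ x y : ℝ, (N : ℝ) ^ x * (N : ℝ) ^ y = (N : ℝ) ^ (x + y) := fun x y =>
    (Real.rpow_add hN0 x y).symm
  have ad1 : ∀ x : ℝ, (N : ℝ) ^ (1 + x) = (N : ℝ) ^ x * N := fun x => by
    rw [add_comm, Real.rpow_add_one hN0.ne']
  have sq : ∀ {x : ℝ}, |u| ≤ (N : ℝ) ^ x → √|u| ≤ (N : ℝ) ^ (x / 2) := fun h => by
    rw [Real.rpow_div_two_eq_sqrt _ hN0.le, Real.sqrt_eq_rpow, Real.sqrt_eq_rpow,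
      ← Real.rpow_mul hN0.le, mul_comm, Real.rpow_mul hN0.le]
    exact Real.rpow_le_rpow (abs_nonneg u) h (by norm_num)
  have hL := one_le_log_add_two h1
  have hcN : (N : ℝ) ^ c ≤ N := (mono (by linarith)).trans (Real.rpow_one _).le
  have a1 := Nat.floor_le (a := 16 * (N : ℝ) ^ c) (by positivity)
  have a2 := (Nat.lt_floor_add_one (16 * (N : ℝ) ^ c)).le
  have k2 := h2 N ⌊16 * (N : ℝ) ^ c⌋₊ u (by omega)
    (by rw [ad1] at hu; nlinarith [mul_le_mul_of_nonneg_right a2 hN0.le]) (by nlinarith)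
  set Y := (N : ℝ) ^ ((1 + c) / 2 - 2 * g) with hY
  have hY1 : 1 ≤ Y := Real.one_le_rpow h1 (by linarith)
  have key : ‖KD N u - I0 N u‖ ≤ (C0 + 2 * Cb + 2 * C3) * Real.log (N + 2) * Y := by
    have b1 : Y ≤ Real.log (N + 2) * Y := le_mul_of_one_le_left (by linarith) hL
    have b2 : Real.log (N + 2) ≤ Real.log (N + 2) * Y := le_mul_of_one_le_right (by linarith) hY1
    rw [mul_assoc]
    rcases le_total |u| ((N : ℝ) ^ (1 + c / 2)) with h | h
    · have b3 : √|u| ≤ Y := (sq h).trans (mono (by linarith))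
      refine (hb N u (by omega) (hu.trans ((mono (by push_cast; linarith)).trans
        (Real.rpow_natCast _ 3).le))).trans ?_
      calc _ ≤ Cb * (2 * (Real.log (N + 2) * Y)) := by gcongr; linarith
        _ = 2 * Cb * (Real.log (N + 2) * Y) := by ring
        _ ≤ _ := by gcongr; linarith
    · rw [ad1, ← le_div_iff₀ hN0] at h
      have b3 : |u| / N ≤ (N : ℝ) ^ c := by rwa [div_le_iff₀ hN0, ← ad1]
      have b4 : 1 ≤ |u| / N := (Real.one_le_rpow h1 (by linarith)).trans h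
      have b5 := h3 N u (|u| / N) hN3 (by field_simp) b4 (b3.trans hcN) (by
        refine le_trans ?_ (pow_le_pow_left₀ (by positivity) h J)
        rw [← Real.rpow_natCast, ← Real.rpow_mul hN0.le]
        refine (Real.rpow_one _).ge.trans (mono ?_)
        rw [div_le_iff₀ hc] at hJ
        linarith)
      have b6 : √|u| * (|u| / N) ^ (-γ) ≤ Y := by
        calc _ ≤ (N : ℝ) ^ ((1 + c) / 2) * ((N : ℝ) ^ (c / 2)) ^ (-γ) :=
              mul_le_mul (sq hu) (Real.rpow_le_rpow_of_nonpos (by positivity) h (by linarith))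
                (by positivity) (by positivity)
          _ = _ := by rw [← Real.rpow_mul hN0.le, ad, hY, ← hgd]; congr 1; ring
      have b7 : ‖I0 N u‖ ≤ C0 * 1 := by
        refine (h0 N u).trans ?_
        rw [le_div_iff₀ hN0] at b4
        rw [mul_div_assoc]
        gcongr
        rw [div_le_one (by positivity)]
        linarith
      refine (norm_sub_le _ _).trans ((add_le_add b5 b7).trans ?_)
      calc _ ≤ C3 * (2 * (Real.log (N + 2) * Y)) + C0 * (Real.log (N + 2) * Y) := by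
            gcongr <;> linarith
        _ = (C0 + 2 * C3) * (Real.log (N + 2) * Y) := by ring
        _ ≤ _ := by gcongr; linarith
  calc _ = ‖KD N u - I0 N u - (KD N u - I0 N u - HK N ⌊16 * (N : ℝ) ^ c⌋₊ u)‖ := by
        rw [sub_sub_cancel]
    _ ≤ (C0 + 2 * Cb + 2 * C3) * Real.log (N + 2) * Y + C2 * Real.log (N + 2) * Y :=
        (norm_sub_le _ _).trans (add_le_add key
          (k2.trans (le_mul_of_one_le_right (by positivity) hY1)))
    _ = (C0 + C2 + 2 * Cb + 2 * C3) * Real.log (N + 2) * Y := by ring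
    _ ≤ (N : ℝ) ^ g * Y := by gcongr
    _ = _ := by rw [hY, ad]; congr 1; ring

theorem hmv (hm : HmS) (h0 : K0S) (hb : KbS) : HmvS := by
  obtain ⟨C0, hC0, h0⟩ := h0
  obtain ⟨Cb, hCb, hb⟩ := hb
  refine ⟨25 + 10 * Cb + 60 * C0, by positivity, fun N a W U l hN ha hU hl hS hc => ?_⟩
  have h1 : (1 : ℝ) ≤ N := by exact_mod_cast hN
  have hL := one_le_log_add_two h1
  rcases W.eq_empty_or_nonempty with rfl | ⟨u0, hu0⟩
  · rw [Finset.card_empty, Nat.cast_zero]; positivity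
  have hU0 : 0 ≤ U := (abs_nonneg _).trans (hU u0 hu0 u0 hu0)
  have h2 : l ≤ 5 * N := (hS u0 hu0).trans ((norm_sum_le _ _).trans ((Finset.sum_le_sum
    fun k _ => by rw [norm_mul, norm_e, mul_one]; exact ha k).trans (sum_bw_le N)))
  have hs := Real.sqrt_nonneg U
  have h3 : √U ≤ N := by
    have a1 : 25 * N * √U ≤ l ^ 2 := le_trans (by gcongr <;> linarith) hc
    have a2 : l ^ 2 ≤ (5 * N) ^ 2 := by gcongr
    exact le_of_mul_le_mul_left (a := (25 * N : ℝ)) (by linarith) (by positivity)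
  have h4 : U ≤ (N : ℝ) ^ 2 := (Real.sqrt_le_iff.1 h3).2
  have h5 : Real.log (U + 1) ≤ 2 * Real.log (N + 2) := by
    rw [show (2 : ℝ) * _ = (2 : ℕ) * Real.log (N + 2) by norm_num, ← Real.log_pow]
    exact Real.log_le_log (by positivity) (by nlinarith)
  refine (hm _ _ (fun k => bw (k / N)) (fun k => Real.log (k / N)) a W l (C0 * N)
    (Cb * (√U + Real.log (N + 2))) U (5 * N) subset_rfl (fun _ _ => bw_nonneg _) (fun k _ => ha k)
    (sum_bw_le N) hl (by positivity) hU0 hS hU (fun u hu v hv => ?_) (le_trans ?_ hc)).trans ?_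
  · refine (norm_le_insert' _ (I0 N (u - v))).trans (add_le_add (h0 N _) ((hb N _ hN
      ((hU u hu v hv).trans (h4.trans (pow_le_pow_right₀ h1 (by norm_num))))).trans ?_))
    gcongr
    exact hU u hu v hv
  · calc _ = 10 * Cb * N * (√U + Real.log (N + 2)) := by ring
      _ ≤ _ := by gcongr; linarith
  · gcongr ?_ / _
    calc _ ≤ 4 * (5 * N) * (C0 * N) * (3 * Real.log (N + 2)) := by gcongr; linarith
      _ = 60 * C0 * N ^ 2 * Real.log (N + 2) := by ring
      _ ≤ _ := by gcongr; linarith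

end Pool.Agent.Lib.MP_80d0cf_nt.Sg
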