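import Pool.Agent.Lib.MP_80d0cf_nt.Sg.Spec

/-! Bounds for the zero frequency and the nonzero frequencies of the kernel. -/

open Set MeasureTheory ComplexConjugate Filter Topology

namespace Pool.Agent.Lib.MP_80d0cf_nt.Sg

open Up

namespace K01Aux

lemma amp : Amp (-3) 2 5 405 (fun s => (Oe s : ℂ)) (fun s => (Oe1 s : ℂ)) :=
  ⟨fun x _ => (hasDerivAt_Oe x).ofReal_comp,
    fun x _ => by rw [Complex.norm_real]; exact abs_Oe_le x,
    fun x _ => by rw [Complex.norm_real]; exact abs_Oe1_le x⟩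

lemma box {f : ℝ → ℂ} (hf : ∀ x, x ≤ -3 ∨ 2 ≤ x → f x = 0) :
    ∫ x, f x = ∫ x in (-3 : ℝ)..2, f x := by
  refine (intervalIntegral.integral_eq_integral_of_support_subset fun x hx => ?_).symm
  by_contra hx'
  simp only [mem_Ioc, not_and_or, not_lt, not_le] at hx'
  exact hx (hf x (hx'.imp id le_of_lt))

lemma sum_le (L : ℕ) : ∑ l ∈ Ls L, 1 / √|(l : ℝ)| ≤ 4 * √L := by
  induction L with
  | zero => simp [Ls]
  | succ L ih =>
    have e1 : Ls (L + 1) = insert ((L : ℤ) + 1) (insert (-((L : ℤ) + 1)) (Ls L)) := by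
      ext l
      simp only [mem_Ls, Finset.mem_insert, abs_le]
      omega
    have h0 : 0 < √((L : ℝ) + 1) := Real.sqrt_pos.2 (by positivity)
    have h1 : 1 / √((L : ℝ) + 1) ≤ 2 * (√((L : ℝ) + 1) - √L) := by
      rw [div_le_iff₀ h0]
      nlinarith [Real.sq_sqrt (show (0 : ℝ) ≤ L + 1 by positivity),
        Real.sq_sqrt (Nat.cast_nonneg (α := ℝ) L), sq_nonneg (√((L : ℝ) + 1) - √L)]
    rw [e1, Finset.sum_insert (by simp only [mem_Ls, Finset.mem_insert, abs_le]; omega),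
      Finset.sum_insert (by simp only [mem_Ls, abs_le]; omega)]
    push_cast
    rw [abs_neg, abs_of_pos (by positivity)]
    linarith

end K01Aux

open K01Aux in
theorem k0 (hf : Fd1S) : K0S := by
  refine ⟨2070, by norm_num, fun N u => ?_⟩
  rw [I0, norm_mul, Complex.norm_natCast, box fun x hx => by simp [Oe_eq_zero hx], mul_comm 2070,
    mul_div_assoc]
  refine mul_le_mul_of_nonneg_left ?_ (Nat.cast_nonneg N)
  have h1 : ‖∫ s in (-3 : ℝ)..2, (Oe s : ℂ) * e (u * s)‖ ≤ 25 := by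
    refine (intervalIntegral.norm_integral_le_of_norm_le_const (C := 5) fun x _ => ?_).trans
      (by norm_num)
    rw [norm_mul, norm_e, mul_one, Complex.norm_real]
    exact abs_Oe_le x
  rw [le_div_iff₀ (by positivity), mul_add, mul_one]
  rcases eq_or_ne u 0 with rfl | h0
  · rw [abs_zero, mul_zero]; linarith
  have h2 := hf (-3) 2 _ _ |u| _ _ (fun s => u * s) (fun _ => u) (fun _ => 0) (by norm_num) amp
    ⟨fun x _ => by simpa using (hasDerivAt_id x).const_mul u, fun x _ => hasDerivAt_const x u⟩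
    (abs_pos.2 h0) (fun _ _ => le_rfl) (Or.inl fun _ _ => le_rfl)
  rw [le_div_iff₀ (abs_pos.2 h0)] at h2
  linarith

open K01Aux in
theorem k1 (hs : SdS) : K1S := by
  refine ⟨16440 * Real.exp 2, by positivity, fun N L u => ?_⟩
  rcases Nat.eq_zero_or_pos N with rfl | hN
  · simp [HK, hk]
  have hN0 : (0 : ℝ) < N := by exact_mod_cast hN
  have e1 : HK N L u = ∑ l ∈ Ls L, N * ∫ s in (-3 : ℝ)..2,
      (Oe s : ℂ) * e (u * s + l * N * Real.exp s) := by
    rw [HK, box fun x hx => by rw [hk_eq_zero N L hx, zero_mul]]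
    simp only [← intervalIntegral.integral_const_mul]
    rw [← intervalIntegral.integral_finsetSum fun l _ => Continuous.intervalIntegrable
      (by fun_prop) _ _]
    congr 1 with s
    simp only [hk, Finset.mul_sum, Finset.sum_mul, e_add]
    exact Finset.sum_congr rfl fun l _ => by ring
  have h1 : ∀ l ∈ Ls L, ‖(N : ℂ) * ∫ s in (-3 : ℝ)..2, (Oe s : ℂ) * e (u * s + l * N * Real.exp s)‖
      ≤ 4110 * Real.exp 2 * √N * (1 / √|(l : ℝ)|) := by
    intro l hl
    have hl0 : (0 : ℝ) < |(l : ℝ)| := abs_pos.2 (by exact_mod_cast (mem_Ls.1 hl).1)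
    have hx : ∀ x ∈ Icc (-3 : ℝ) 2, |(l : ℝ)| * N * Real.exp (-2) ^ 2 ≤ |(l : ℝ)| * N * Real.exp x :=
      fun x hx => by
        rw [← Real.exp_nat_mul]
        gcongr
        push_cast
        linarith [hx.1]
    have h2 := hs (-3) 2 _ _ (|(l : ℝ)| * N * Real.exp (-2) ^ 2) _ _
      (fun s => u * s + l * N * Real.exp s) (fun s => u + l * N * Real.exp s)
      (fun s => l * N * Real.exp s) (by norm_num) amp
      ⟨fun x _ => (((hasDerivAt_id' x).const_mul u).add
        ((Real.hasDerivAt_exp x).const_mul _)).congr_deriv (by ring),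
        fun x _ => ((Real.hasDerivAt_exp x).const_mul _).const_add u⟩ (by positivity)
      ((abs_choice (l : ℝ)).imp (fun h x a => by have := hx x a; rwa [h] at this ⊢)
        fun h x a => by have := hx x a; rw [h] at this ⊢; linarith)
    rw [norm_mul, Complex.norm_natCast]
    refine (mul_le_mul_of_nonneg_left h2 hN0.le).trans (le_of_eq ?_)
    have a1 := Real.sqrt_pos.2 hl0
    have a2 := Real.sqrt_pos.2 hN0
    rw [Real.sqrt_mul (by positivity), Real.sqrt_mul hl0.le, Real.sqrt_sq (Real.exp_pos _).le,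
      Real.exp_neg]
    nth_rewrite 1 [← Real.mul_self_sqrt hN0.le]
    field_simp
    norm_num
  rw [e1]
  refine (norm_sum_le _ _).trans ((Finset.sum_le_sum h1).trans ?_)
  rw [← Finset.mul_sum, Real.sqrt_mul hN0.le]
  refine (mul_le_mul_of_nonneg_left (sum_le L) (by positivity)).trans (le_of_eq (by ring))

theorem kb (h1 : K1S) (h2 : K2S) : KbS := by
  obtain ⟨C1, hC1, h1⟩ := h1
  obtain ⟨C2, hC2, h2⟩ := h2
  refine ⟨4 * C1 + C2, by positivity, fun N u hN hu => ?_⟩
  have hN1 : (1 : ℝ) ≤ N := by exact_mod_cast hN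
  have hN0 : (0 : ℝ) < N := by linarith
  have a1 := Nat.floor_le (a := 16 * |u| / N) (by positivity)
  have a2 := (Nat.lt_floor_add_one (16 * |u| / N)).le
  rw [le_div_iff₀ hN0] at a1
  rw [div_le_iff₀ hN0] at a2
  have h3 := h2 N ⌊16 * |u| / N⌋₊ u hN a2 (by
    have : (⌊16 * |u| / N⌋₊ : ℝ) ≤ 16 * (N : ℝ) ^ 2 :=
      le_of_mul_le_mul_right (by nlinarith) hN0
    nlinarith)
  have h4 := h1 N ⌊16 * |u| / N⌋₊ u
  have h5 : √(N * ⌊16 * |u| / N⌋₊ : ℝ) ≤ 4 * √|u| :=
    Real.sqrt_le_iff.2 ⟨by positivity, by rw [mul_pow, Real.sq_sqrt (abs_nonneg u)]; linarith⟩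
  have h6 := mul_le_mul_of_nonneg_left h5 hC1.le
  have hL := one_le_log_add_two hN1
  refine (norm_le_insert' _ (HK N ⌊16 * |u| / N⌋₊ u)).trans ?_
  nlinarith [mul_nonneg hC2.le (Real.sqrt_nonneg |u|), mul_nonneg hC1.le (zero_le_one.trans hL)]

end Pool.Agent.Lib.MP_80d0cf_nt.Sg
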