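import Pool.Agent.Lib.MP_80d0cf_nt.Sg.Spec

/-! Poisson summation for the kernel. -/

open Set MeasureTheory ComplexConjugate Filter Topology

namespace Pool.Agent.Lib.MP_80d0cf_nt.Sg

open Up

namespace K2Aux

lemma bw_out {N x : ℝ} (hN : 0 < N) (hx : x ≤ N / 8 ∨ 5 * N ≤ x) : bw (x / N) = 0 :=
  bw_eq_zero (hx.imp (fun h => by rw [div_le_iff₀ hN]; linarith)
    fun h => by rw [le_div_iff₀ hN]; linarith)

lemma subst {N : ℝ} (hN : 0 < N) (u l : ℝ) :
    ∫ x in (N / 8)..(5 * N), (bw (x / N) : ℂ) * e (u * Real.log (x / N) + l * x) =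
      ∫ s : ℝ, N * (Oe s : ℂ) * e (l * N * Real.exp s) * e (u * s) := by
  have h1 := integral_image_eq_integral_abs_deriv_smul (s := univ) (f := fun s => N * Real.exp s)
    (f' := fun s => N * Real.exp s) MeasurableSet.univ
    (fun s _ => ((Real.hasDerivAt_exp s).const_mul N).hasDerivWithinAt)
    (fun s _ t _ h => Real.exp_injective (mul_left_cancel₀ hN.ne' h))
    fun x => (bw (x / N) : ℂ) * e (u * Real.log (x / N) + l * x)
  rw [intervalIntegral.integral_eq_integral_of_support_subset fun x hx => ?_,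
    ← setIntegral_eq_integral_of_forall_compl_eq_zero (s := (fun s => N * Real.exp s) '' univ)
      fun x hx => ?_, h1, Measure.restrict_univ]
  · congr 1 with s
    rw [mul_div_cancel_left₀ _ hN.ne', Real.log_exp, e_add, abs_of_pos (by positivity), Oe,
      Complex.real_smul, mul_assoc l]
    push_cast
    ring
  · rw [bw_out hN (Or.inl ?_), Complex.ofReal_zero, zero_mul]
    by_contra hc
    have h0 : 0 < x / N := div_pos (by linarith) hN
    exact hx ⟨Real.log (x / N), mem_univ _, by simp only [Real.exp_log h0]; field_simp⟩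
  · by_contra hx'
    simp only [mem_Ioc, not_and_or, not_lt, not_le] at hx'
    exact hx (by simp only [bw_out hN (hx'.imp id le_of_lt), Complex.ofReal_zero, zero_mul])

lemma intg (N l u : ℝ) :
    Integrable fun s : ℝ => N * (Oe s : ℂ) * e (l * N * Real.exp s) * e (u * s) := by
  refine Continuous.integrable_of_hasCompactSupport (by fun_prop)
    (HasCompactSupport.intro (isCompact_Icc (a := -3) (b := 2)) fun s hs => ?_)
  simp only [mem_Icc, not_and_or, not_le] at hs
  simp [Oe_eq_zero (hs.imp le_of_lt le_of_lt)]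

end K2Aux

open K2Aux in
theorem k2 (hp : PsS) : K2S := by
  obtain ⟨C, hC, hp⟩ := hp
  refine ⟨500 * C, by positivity, fun N L u hN h1 h2 => ?_⟩
  have hN1 : (1 : ℝ) ≤ N := by exact_mod_cast hN
  have hN0 : (0 : ℝ) < N := by linarith
  have key := hp (N / 8) (5 * N) 1 (16 / N) (8 * |u| / N) (64 * |u| / N ^ 2) (20 * (N : ℝ) ^ 2)
    (fun x => (bw (x / N) : ℂ)) (fun x => ((bw1 (x / N) / N : ℝ) : ℂ))
    (fun x => u * Real.log (x / N)) (fun x => u / x) (fun x => -(u / x ^ 2)) L
    (Finset.Icc ((1 : ℕ) : ℤ) ((5 * N : ℕ) : ℤ)) (by linarith)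
    ⟨fun x _ => (((hasDerivAt_bw _).comp x ((hasDerivAt_id' x).div_const N)).congr_deriv
      (by ring)).ofReal_comp, fun x _ => by rw [Complex.norm_real]; exact abs_bw_le _,
      fun x _ => by
        rw [Complex.norm_real, Real.norm_eq_abs, abs_div, abs_of_pos hN0]
        gcongr
        exact abs_bw1_le _⟩
    (fun x hx => by simp only [bw_out hN0 hx, Complex.ofReal_zero])
    ⟨fun x hx => by
      have h0 : 0 < x := by linarith [hx.1]
      refine ((((hasDerivAt_id' x).div_const N).log (by positivity)).const_mul u).congr_deriv ?_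
      field_simp,
    fun x hx => by
      have h0 : 0 < x := by linarith [hx.1]
      exact ((hasDerivAt_const x u).fun_div (hasDerivAt_id' x) h0.ne').congr_deriv (by ring)⟩
    (fun x hx => by
      have h0 : 0 < x := by linarith [hx.1]
      rw [abs_div, abs_of_pos h0]
      calc _ ≤ |u| / (N / 8) := by gcongr; exact hx.1
        _ = _ := by field_simp)
    (fun x hx => by
      have h0 : 0 < x := by linarith [hx.1]
      rw [abs_neg, abs_div, abs_of_pos (pow_pos h0 2)]
      calc _ ≤ |u| / (N / 8) ^ 2 := by gcongr; exact hx.1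
        _ = _ := by field_simp; norm_num)
    (by rw [← mul_div_assoc, div_le_iff₀ hN0]; linarith)
    (by nlinarith) (by nlinarith) (by nlinarith) (by rw [div_le_iff₀ hN0]; nlinarith) h2
    (fun n a b => by
      have b1 : (0 : ℝ) < n := by linarith
      have b2 : 0 < n := by exact_mod_cast b1
      have b3 : n ≤ ((5 * N : ℕ) : ℤ) := by exact_mod_cast b.le
      exact Finset.mem_Icc.2 ⟨by omega, b3⟩)
  rw [← sum_Icc_natCast (fun n : ℤ => (bw (n / N) : ℂ) * e (u * Real.log (n / N))),
    ← Finset.add_sum_erase _ _ (show (0 : ℤ) ∈ Finset.Icc (-(L : ℤ)) L by simp), ← Ls] at key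
  simp only [subst hN0, Int.cast_natCast] at key
  have e1 : I0 N u = ∫ s : ℝ, (N : ℝ) * (Oe s : ℂ) * e ((0 : ℤ) * (N : ℝ) * Real.exp s) *
      e (u * s) := by
    rw [I0, ← integral_const_mul]
    simp [mul_assoc]
  have e2 : HK N L u = ∑ l ∈ Ls L, ∫ s : ℝ, (N : ℝ) * (Oe s : ℂ) * e (l * (N : ℝ) * Real.exp s) *
      e (u * s) := by
    rw [HK, ← integral_finsetSum _ fun l _ => intg _ _ _]
    simp only [hk, Finset.mul_sum, Finset.sum_mul, Complex.ofReal_natCast]
  rw [sub_sub, e1, e2]
  refine key.trans ?_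
  have hL := one_le_log_add_two hN1
  have h5 : Real.log (20 * (N : ℝ) ^ 2) ≤ 5 * Real.log (N + 2) := by
    rw [show (5 : ℝ) = (5 : ℕ) by norm_num, ← Real.log_pow]
    refine Real.log_le_log (by positivity) ?_
    calc _ ≤ (3 : ℝ) ^ 3 * N ^ 2 := by gcongr; norm_num
      _ ≤ (N + 2) ^ 3 * (N + 2) ^ 2 := by gcongr <;> linarith
      _ = _ := by ring
  have h6 : (5 * N - N / 8 : ℝ) * (16 / N) = 78 := by field_simp; norm_num
  have h7 : (5 * N - N / 8 : ℝ) * 1 * (64 * |u| / N ^ 2) / (L + 1) ≤ 20 := by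
    rw [div_le_iff₀ (by positivity), show (5 * N - N / 8 : ℝ) * 1 * (64 * |u| / N ^ 2) =
      312 * |u| / N by field_simp; ring, div_le_iff₀ hN0]
    linarith [abs_nonneg u]
  have h8 : 1 / (20 * (N : ℝ) ^ 2) ≤ 1 := by rw [div_le_one (by positivity)]; nlinarith
  rw [h6, mul_comm 500, mul_assoc C]
  gcongr
  linarith

end Pool.Agent.Lib.MP_80d0cf_nt.Sg
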