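import Pool.Agent.Lib.MP_80d0cf_nt.Sg.Spec
import Pool.Agent.Lib.MP_80d0cf_nt.Up.Weyl

/-! A power saving for the kernel. -/

open Set MeasureTheory ComplexConjugate Filter Topology

namespace Pool.Agent.Lib.MP_80d0cf_nt.Sg

open Up

namespace K3Aux

/-- derivatives of the dual phase -/
noncomputable def gl (v : ℝ) : ℕ → ℝ → ℝ
  | 0 => fun y => v * Real.log y
  | j + 1 => fun y => (-1) ^ j * (v * j.factorial / y ^ (j + 1))

lemma der_gl (v : ℝ) (j : ℕ) {y : ℝ} (hy : 0 < y) : HasDerivAt (gl v j) (gl v (j + 1) y) y := by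
  cases j with
  | zero =>
    exact ((Real.hasDerivAt_log hy.ne').const_mul v).congr_deriv (by simp [gl, div_eq_mul_inv])
  | succ j =>
    refine (((hasDerivAt_const y (v * j.factorial)).fun_div (hasDerivAt_pow (j + 1) y)
      (by positivity)).const_mul ((-1) ^ j)).congr_deriv ?_
    simp only [gl, Nat.factorial_succ, Nat.add_sub_cancel]
    push_cast
    field_simp
    ring

/-- dual amplitude -/
noncomputable def ww (X y : ℝ) : ℝ := X / y * bw (X / y) / 5

lemma ww_zero {X y : ℝ} (hX : 0 < X) (h : y ≤ X / 5 ∨ 8 * X ≤ y) : bw (X / y) = 0 := by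
  refine bw_eq_zero ?_
  rcases le_or_gt y 0 with h0 | h0
  · exact Or.inl ((div_nonpos_of_nonneg_of_nonpos hX.le h0).trans (by norm_num))
  rcases h with h | h
  · exact Or.inr (by rw [le_div_iff₀ h0]; linarith)
  · exact Or.inl (by rw [div_le_iff₀ h0]; linarith)

lemma dual (hw : WeylUS) (J : ℕ) : ∃ C γ : ℝ, 0 < C ∧ 0 < γ ∧ γ ≤ 1 / 4 ∧ ∀ X v : ℝ, 1 ≤ X →
    √(8 * X) ≤ v → v ≤ X ^ (J + 1) →
    ‖∑ m ∈ Finset.Icc (1 : ℤ) ⌈8 * X⌉, (ww X m : ℂ) * e (v * Real.log m)‖ ≤
      C * (X * X ^ (-γ)) := by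
  have h40 : (0 : ℝ) ≤ (J + 2).factorial * 40 ^ (J + 2) := by positivity
  obtain ⟨C, γ, hC, hγ, hγ1, h⟩ := hw J (3400 + (J + 2).factorial * 40 ^ (J + 2)) (by linarith)
  refine ⟨8 * C, γ, by positivity, hγ, hγ1, fun X v hX h1 h2 => ?_⟩
  have hX0 : 0 < X := by linarith
  have hv : 0 ≤ v := (Real.sqrt_nonneg _).trans h1
  refine (h (X / 5) (8 * X) (8 * X) v (fun y => (ww X y : ℂ))
    (fun y => ((-(X / y ^ 2) * (bw (X / y) + X / y * bw1 (X / y)) / 5 : ℝ) : ℂ)) (gl v) _
    (by linarith) (by linarith) ⟨fun y hy => ?_, fun y hy => ?_, fun y hy => ?_⟩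
    (fun y hy => by simp [ww, ww_zero hX0 hy]) (fun j y hy => der_gl v j (by linarith [hy.1]))
    (fun j j1 j2 => ?_) h1 ?_ fun n a b => ?_).trans ?_
  · have hy0 : 0 < y := by linarith [hy.1]
    have d1 : HasDerivAt (fun y => X / y) (-(X / y ^ 2)) y :=
      ((hasDerivAt_const y X).fun_div (hasDerivAt_id' y) hy0.ne').congr_deriv (by ring)
    refine (((d1.mul ((hasDerivAt_bw _).comp y d1)).div_const 5).congr_deriv ?_).ofReal_comp
    simp only [Function.comp]
    ring
  · have hy0 : 0 < y := by linarith [hy.1]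
    have a1 : X / y ≤ 5 := by rw [div_le_iff₀ hy0]; linarith [hy.1]
    have a2 := mul_le_mul a1 (bw_le_one (X / y)) (bw_nonneg _) (by norm_num)
    have a3 := bw_nonneg (X / y)
    rw [Complex.norm_real, ww, Real.norm_of_nonneg (by positivity)]
    linarith
  · have hy0 : 0 < y := by linarith [hy.1]
    have a1 : X / y ≤ 5 := by rw [div_le_iff₀ hy0]; linarith [hy.1]
    have a2 : X / y ^ 2 ≤ 25 / X := by
      rw [div_le_div_iff₀ (by positivity) hX0]
      nlinarith [hy.1]
    have a3 : |bw (X / y) + X / y * bw1 (X / y)| ≤ 1 + 5 * 16 := by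
      refine (abs_add_le _ _).trans (add_le_add (abs_bw_le _) ?_)
      rw [abs_mul, abs_of_pos (by positivity)]
      gcongr
      exact abs_bw1_le _
    rw [Complex.norm_real, Real.norm_eq_abs, abs_div, abs_mul, abs_neg, abs_of_pos (by positivity),
      abs_of_pos (by norm_num : (0 : ℝ) < 5)]
    calc _ ≤ 25 / X * (1 + 5 * 16) / 5 := by gcongr
      _ = 3240 / (8 * X) := by field_simp; norm_num
      _ ≤ _ := by gcongr; linarith
  · obtain ⟨i, rfl⟩ : ∃ i, j = i + 1 := ⟨j - 1, by omega⟩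
    refine ⟨(-1) ^ i, neg_one_pow_eq_or ℝ i, fun y hy => ?_⟩
    have hy0 : 0 < y := by linarith [hy.1]
    have f1 : (1 : ℝ) ≤ i.factorial := by exact_mod_cast Nat.factorial_pos i
    have f2 : (i.factorial : ℝ) ≤ (J + 2).factorial := by
      exact_mod_cast Nat.factorial_le (by omega)
    simp only [gl]
    rw [← mul_assoc ((-1 : ℝ) ^ i), ← mul_pow, neg_one_mul, neg_neg, one_pow, one_mul]
    constructor
    · calc _ ≤ 1 * (v * 1 / y ^ (i + 1)) := by rw [one_mul, mul_one]; gcongr; exact hy.2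
        _ ≤ _ := by gcongr; linarith
    · calc _ ≤ v * i.factorial / (8 * X / 40) ^ (i + 1) := by gcongr; linarith [hy.1]
        _ = i.factorial * 40 ^ (i + 1) * (v / (8 * X) ^ (i + 1)) := by
            rw [div_pow]; field_simp
        _ ≤ (J + 2).factorial * 40 ^ (J + 2) * (v / (8 * X) ^ (i + 1)) := by gcongr; norm_num
        _ ≤ _ := by gcongr; linarith
  · calc v ≤ (8 * X) ^ (J + 1) * 1 := by rw [mul_one]; exact h2.trans (by gcongr; linarith)
      _ ≤ _ := by gcongr; exact Real.one_le_sqrt.2 (by linarith)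
  · have a1 : (0 : ℝ) < n := by linarith
    have a2 : 0 < n := by exact_mod_cast a1
    exact Finset.mem_Icc.2 ⟨by omega, by exact_mod_cast b.le.trans (Int.le_ceil _)⟩
  · rw [sub_eq_add_neg, Real.rpow_add (by positivity), Real.rpow_one]
    calc _ ≤ C * (8 * X * X ^ (-γ)) := by
          gcongr C * (8 * X * ?_)
          exact Real.rpow_le_rpow_of_nonpos hX0 (by linarith) (by linarith)
      _ = _ := by ring

lemma ph3 {N v : ℝ} (hN : 0 < N) (hv : 0 < v) : Ph3 (N / 8) (5 * N) (v / (25 * N ^ 2)) 128000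
    (fun x => -v * Real.log (x / N)) (fun x => -(v / x)) (fun x => v / x ^ 2)
    (fun x => -(2 * v / x ^ 3)) := by
  refine ⟨⟨fun x hx => ?_, fun x hx => ?_⟩, fun x hx => ?_, fun x hx => ?_, fun x hx => ?_,
    fun x hx => ?_⟩ <;> have h0 : 0 < x := by linarith [hx.1]
  · refine ((((hasDerivAt_id' x).div_const N).log (by positivity)).const_mul (-v)).congr_deriv ?_
    field_simp
  · exact ((hasDerivAt_const x v).fun_div (hasDerivAt_id' x) h0.ne').fun_neg.congr_deriv (by ring)
  · refine ((hasDerivAt_const x v).fun_div (hasDerivAt_pow 2 x) (by positivity)).congr_deriv ?_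
    field_simp
    ring
  · calc _ = v / (5 * N) ^ 2 := by ring
      _ ≤ _ := by gcongr; exact hx.2
  · calc _ ≤ v / (N / 8) ^ 2 := by gcongr; exact hx.1
      _ = 1600 * (v / (25 * N ^ 2)) := by field_simp; norm_num
      _ ≤ _ := by gcongr; norm_num
  · rw [abs_neg, abs_of_pos (by positivity)]
    calc _ ≤ 2 * v / (N / 8) ^ 3 * (5 * N) := by gcongr; exacts [by linarith, hx.1, by linarith]
      _ = _ := by field_simp; norm_num

end K3Aux

open K3Aux in
theorem k3 (hb : BpS) (hw : WeylUS) (hc : CFS) : K3S := by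
  intro J
  obtain ⟨C, hC, hb⟩ := hb 128000 (by norm_num)
  obtain ⟨D, γ, hD, hγ, hγ1, hd⟩ := dual hw J
  refine ⟨50 * D + 20000 * C, γ, by positivity, hγ, hγ1, fun N u X hN hu hX hXN hJ => ?_⟩
  have hN3 : (3 : ℝ) ≤ N := by exact_mod_cast hN
  have hN0 : (0 : ℝ) < N := by linarith
  have hX0 : 0 < X := by linarith
  have e0 : ‖KD N u‖ = ‖KD N (-|u|)‖ := by
    rcases abs_choice u with h | h <;> rw [h]
    · rw [KD_neg, Complex.norm_conj]
    · rw [neg_neg]
  set v := |u| with hv
  have hv0 : 0 < v := by rw [hu]; positivity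
  have hs : 0 < √v := Real.sqrt_pos.2 hv0
  set c : ℂ := cF * e (v - v * Real.log X) * ((5 * √v / X : ℝ) : ℂ) with hcd
  have key := hb (N / 8) (5 * N) _ (16 / N) (8 * X) (20 * (N : ℝ) ^ 2)
    (fun x => (bw (x / N) : ℂ)) (fun x => ((bw1 (x / N) / N : ℝ) : ℂ)) _ _ _ _
    (Finset.Icc ((1 : ℕ) : ℤ) ((5 * N : ℕ) : ℤ)) (Finset.Icc (1 : ℤ) ⌈8 * X⌉)
    (fun m => if 0 < m then c * ((ww X m : ℂ) * e (v * Real.log m)) else 0)
    (by linarith) (by positivity)
    (fun x _ => (((hasDerivAt_bw _).comp x ((hasDerivAt_id' x).div_const N)).congr_deriv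
      (by ring)).ofReal_comp)
    (fun x _ => by
      rw [Complex.norm_real, Real.norm_eq_abs, abs_div, abs_of_pos hN0]
      gcongr
      exact abs_bw1_le _)
    (fun x hx => by
      beta_reduce
      rw [bw_eq_zero (hx.imp (fun h => by rw [div_le_iff₀ hN0]; linarith)
        fun h => by rw [le_div_iff₀ hN0]; linarith)]
      simp) (ph3 hN0 hv0)
    (fun x hx => by
      have h0 : 0 < x := by linarith [hx.1]
      rw [abs_neg, abs_of_pos (by positivity), div_le_iff₀ h0, hu]
      nlinarith [hx.1])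
    (by
      have : (5 * N - N / 8 : ℝ) * (v / (25 * N ^ 2)) = 39 / 200 * X := by
        rw [hu]; field_simp; norm_num
      linarith)
    (by nlinarith) (by nlinarith) (by rw [div_le_iff₀ hN0]; nlinarith) (by nlinarith)
    (fun n a b => by
      have b1 : (0 : ℝ) < n := by linarith
      have b2 : 0 < n := by exact_mod_cast b1
      have b3 : n ≤ ((5 * N : ℕ) : ℤ) := by exact_mod_cast b.le
      exact Finset.mem_Icc.2 ⟨by omega, b3⟩)
    (fun m x hx h => by
      have h0 : 0 < x := by linarith [hx.1]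
      have h1 : (m : ℝ) = v / x := by linarith
      have h2 : (0 : ℝ) < m := by rw [h1]; positivity
      have h3 : x / N = X / m := by rw [h1, hu]; field_simp
      have h4 : √(v / x ^ 2) = m / √v := by
        rw [Real.sqrt_div hv0.le, Real.sqrt_sq h0.le, h1, eq_div_iff hs.ne', div_mul_eq_mul_div,
          Real.mul_self_sqrt hv0.le]
      have h5 : e (-v * Real.log (X / m) + m * x) =
          e (v - v * Real.log X) * e (v * Real.log m) := by
        rw [← e_add, Real.log_div hX0.ne' h2.ne', show m * x = v by rw [h1]; field_simp]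
        congr 1
        ring
      have h6 : (m : ℂ) ≠ 0 := by exact_mod_cast h2.ne'
      have h7 : (X : ℂ) ≠ 0 := by exact_mod_cast hX0.ne'
      have h8 : ((√v : ℝ) : ℂ) ≠ 0 := by exact_mod_cast hs.ne'
      simp only [h3, h4, h5, hcd, ww]
      rw [if_pos (by exact_mod_cast h2)]
      push_cast
      field_simp)
    (fun m h => by
      split_ifs with hm
      · have h2 : (0 : ℝ) < m := by exact_mod_cast hm
        have h3 : ¬ (v / m ∈ Icc (N / 8 : ℝ) (5 * N)) := fun a => h _ a (by field_simp; ring)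
        rw [mem_Icc, not_and_or, not_le, not_le, hu, div_lt_iff₀ h2, lt_div_iff₀ h2] at h3
        rw [ww, ww_zero hX0 (h3.symm.imp (fun a => by nlinarith) fun a => by nlinarith)]
        simp
      · rfl)
    (fun m hm => by
      split_ifs with h
      · rw [Finset.mem_Icc, not_and_or, not_le, not_le] at hm
        have h1 : (⌈8 * X⌉ : ℝ) ≤ m := by exact_mod_cast (by omega : ⌈8 * X⌉ ≤ m)
        rw [ww, ww_zero hX0 (Or.inr ((Int.le_ceil _).trans h1))]
        simp
      · rfl)
  rw [← sum_Icc_natCast (fun n : ℤ => (bw (n / N) : ℂ) * e (-v * Real.log (n / N))),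
    Finset.sum_congr rfl fun m hm => if_pos (by have := (Finset.mem_Icc.1 hm).1; omega),
    ← Finset.mul_sum] at key
  have h1 := hd X v hX (Real.sqrt_le_iff.2 ⟨hv0.le, by rw [hu]; nlinarith [mul_le_mul hX hN3 (by norm_num) hX0.le]⟩)
    (by rw [hu, pow_succ']; gcongr)
  have h2 : ‖c‖ ≤ 10 * (5 * √v / X) := by
    rw [hcd, norm_mul, norm_mul, norm_e, mul_one, Complex.norm_real,
      Real.norm_of_nonneg (by positivity)]
    gcongr
    exact hc.1
  have h3 := (norm_mul_le _ _).trans (mul_le_mul h2 h1 (norm_nonneg _) (by positivity))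
  have h4 : 10 * (5 * √v / X) * (D * (X * X ^ (-γ))) = 50 * D * (√v * X ^ (-γ)) := by
    field_simp; norm_num
  have hL := one_le_log_add_two (by linarith : (1 : ℝ) ≤ N)
  have h5 : Real.log (20 * (N : ℝ) ^ 2) ≤ 4 * Real.log (N + 2) := by
    rw [show (4 : ℝ) = (4 : ℕ) by norm_num, ← Real.log_pow]
    refine Real.log_le_log (by positivity) ?_
    calc _ ≤ (5 : ℝ) ^ 2 * N ^ 2 := by gcongr; norm_num
      _ ≤ (N + 2) ^ 2 * (N + 2) ^ 2 := by gcongr <;> linarith
      _ = _ := by ring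
  have h6 : (8 * X + 1) * (16 / N) / (v / (25 * N ^ 2)) + (5 * N - N / 8) * (16 / N) ≤ 3700 := by
    have : (8 * X + 1) * (16 / N) / (v / (25 * N ^ 2)) + (5 * N - N / 8) * (16 / N) =
        3278 + 400 / X := by rw [hu]; field_simp; ring
    have h7 : 400 / X ≤ 400 := div_le_self (by norm_num) hX
    linarith
  have h7 : 1 / (20 * (N : ℝ) ^ 2) ≤ 1 := by rw [div_le_one (by positivity)]; nlinarith
  have h8 := key.trans (mul_le_mul_of_nonneg_left (add_le_add (mul_le_mul h6 h5
    (Real.log_nonneg (by nlinarith)) (by norm_num)) (h7.trans hL)) hC.le)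
  have h9 : 0 ≤ √v * X ^ (-γ) := by positivity
  simp only [Int.cast_natCast] at h8
  rw [e0]
  refine (norm_le_insert' _ _).trans ((add_le_add (h3.trans h4.le) h8).trans ?_)
  nlinarith [mul_nonneg hC.le h9, mul_nonneg hD.le (by linarith : 0 ≤ Real.log (N + 2)),
    mul_nonneg hC.le (by linarith : 0 ≤ Real.log (N + 2))]

end Pool.Agent.Lib.MP_80d0cf_nt.Sg
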