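import Pool.Agent.Lib.MP_80d0cf_nt.Sg.Spec

/-! A trigonometric majorant. -/

open Set MeasureTheory ComplexConjugate Filter Topology

namespace Pool.Agent.Lib.MP_80d0cf_nt.Sg

open Up

namespace MajAux

/-- normalised square of the Dirichlet kernel -/
noncomputable def Fj (m : ℕ) (y : ℝ) : ℝ := ‖∑ i ∈ Finset.range m, e (i * y)‖ ^ 2 / (m : ℝ) ^ 2

lemma Fj_nonneg (m : ℕ) (y : ℝ) : 0 ≤ Fj m y := by unfold Fj; positivity

lemma Fj_add (m : ℕ) (y : ℝ) (l : ℤ) : Fj m (y + l) = Fj m y := by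
  have : ∀ i : ℕ, e (i * (y + l)) = e (i * y) := fun i => by
    rw [mul_add, e_add, show (i : ℝ) * l = ((i * l : ℤ) : ℝ) by push_cast; ring, e_int, mul_one]
  simp only [Fj, this]

lemma Fj_ge {m : ℕ} {y : ℝ} (hm : 1 ≤ m) (h : 13 * m * |y| ≤ 1) : 1 / 4 ≤ Fj m y := by
  have hm0 : (0 : ℝ) < m := by exact_mod_cast hm
  have h1 : ‖∑ i ∈ Finset.range m, e (i * y) - m‖ ≤ m * (1 / 2) := by
    have : ∑ i ∈ Finset.range m, e (i * y) - m = ∑ i ∈ Finset.range m, (e (i * y) - e 0) := by
      simp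
    rw [this]
    refine (norm_sum_le _ _).trans ((Finset.sum_le_card_nsmul _ _ (1 / 2) fun i hi => ?_).trans
      (by simp))
    have hi' : (i : ℝ) ≤ m := by exact_mod_cast (Finset.mem_range.1 hi).le
    refine (norm_e_sub_e_le _ _).trans ?_
    rw [sub_zero, abs_mul, Nat.abs_cast]
    calc _ ≤ 2 * 3.15 * (m * |y|) := by gcongr; exact Real.pi_lt_d2.le
      _ ≤ _ := by nlinarith [abs_nonneg y]
  have h2 := norm_le_insert (∑ i ∈ Finset.range m, e (i * y)) (m : ℂ)
  rw [Complex.norm_natCast] at h2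
  rw [Fj, le_div_iff₀ (by positivity)]
  nlinarith [norm_nonneg (∑ i ∈ Finset.range m, e (i * y))]

lemma near {N : ℕ} (hN : 1 ≤ N) {y : ℝ} :
    1 / (1 + N * |y|) ≤ 65 / N * ∑ m ∈ Finset.Icc 1 N, Fj m y := by
  have hN0 : (0 : ℝ) < N := by exact_mod_cast hN
  have key : ∀ k : ℕ, k ≤ N → 13 * k * |y| ≤ 1 → (k : ℝ) / 4 ≤ ∑ m ∈ Finset.Icc 1 N, Fj m y := by
    intro k h1 h2
    refine le_trans ?_ (Finset.sum_le_sum_of_subset_of_nonneg (Finset.Icc_subset_Icc_right h1)
      fun _ _ _ => Fj_nonneg _ _)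
    refine le_trans (by simp [div_eq_mul_inv]) (Finset.card_nsmul_le_sum _ _ (1 / 4) fun m hm => ?_)
    rw [Finset.mem_Icc] at hm
    have : (m : ℝ) ≤ k := by exact_mod_cast hm.2
    exact Fj_ge hm.1 (le_trans (by gcongr) h2)
  have one : 1 ≤ ∑ m ∈ Finset.Icc 1 N, Fj m y :=
    le_trans (by simp [Fj]) (Finset.single_le_sum (fun _ _ => Fj_nonneg _ y)
      (Finset.mem_Icc.2 ⟨le_rfl, hN⟩))
  rw [div_mul_eq_mul_div, div_le_div_iff₀ (by positivity) hN0]
  have hy := abs_nonneg y
  rcases le_or_gt (13 * N * |y|) 1 with h | h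
  · have := key N le_rfl h
    nlinarith [mul_nonneg hN0.le hy]
  · have hy0 : 0 < |y| := by
      by_contra hc
      rw [le_antisymm (not_lt.1 hc) hy] at h
      norm_num at h
    have h1 := Nat.floor_le (a := 1 / (13 * |y|)) (by positivity)
    have h2 := Nat.lt_floor_add_one (1 / (13 * |y|))
    rw [le_div_iff₀ (by positivity)] at h1
    rw [div_lt_iff₀ (by positivity)] at h2
    have h3 := key ⌊1 / (13 * |y|)⌋₊ (Nat.floor_le_of_le (by
      rw [div_le_iff₀ (by positivity)]; linarith)) (by linarith)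
    generalize ∑ m ∈ Finset.Icc 1 N, Fj m y = S at *
    have h4 : 1 ≤ 65 * S * |y| := by nlinarith
    nlinarith

/-- coefficients -/
noncomputable def cf (m : ℕ) (k : ℤ) : ℝ :=
  (((Finset.range m ×ˢ Finset.range m).filter fun z => (z.1 : ℤ) - z.2 = k).card : ℝ) / (m : ℝ) ^ 2

lemma cf_le (m : ℕ) (k : ℤ) : cf m k ≤ 1 / m := by
  rcases Nat.eq_zero_or_pos m with rfl | hm
  · simp [cf]
  have hm0 : (0 : ℝ) < m := by exact_mod_cast hm
  have : ((Finset.range m ×ˢ Finset.range m).filter fun z => (z.1 : ℤ) - z.2 = k).card ≤ m := by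
    refine le_trans (Finset.card_le_card_of_injOn (t := Finset.range m) Prod.fst (fun z hz => ?_)
      fun z hz z' hz' h => ?_) (by simp)
    · simp only [Finset.coe_filter, Finset.mem_product, mem_ofPred_eq] at hz
      exact hz.1.1
    · simp only [Finset.coe_filter, Finset.mem_product, mem_ofPred_eq] at hz hz'
      exact Prod.ext h (by omega)
  rw [cf, div_le_div_iff₀ (by positivity) hm0, one_mul, sq]
  gcongr

lemma Fj_eq {m N : ℕ} (h : m ≤ N) (y : ℝ) :
    (Fj m y : ℂ) = ∑ k ∈ Finset.Icc (-(N : ℤ)) N, (cf m k : ℂ) * e (k * y) := by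
  have h1 := Finset.sum_fiberwise_of_maps_to (s := Finset.range m ×ˢ Finset.range m)
    (t := Finset.Icc (-(N : ℤ)) N) (g := fun z => (z.1 : ℤ) - z.2)
    (fun z hz => by
      simp only [Finset.mem_product, Finset.mem_range, Finset.mem_Icc] at hz ⊢
      omega) (fun z => e (z.1 * y) * conj (e (z.2 * y)))
  rw [Fj, Complex.ofReal_div, Complex.ofReal_pow, ← Complex.mul_conj', map_sum, Finset.sum_mul_sum,
    ← Finset.sum_product', ← h1, Finset.sum_div]
  refine Finset.sum_congr rfl fun k _ => ?_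
  rw [Finset.sum_congr rfl (g := fun _ => e (k * y)) fun z hz => by
    rw [← e_sub, ← (Finset.mem_filter.1 hz).2]; push_cast; rw [sub_mul], Finset.sum_const, cf]
  push_cast
  ring

end MajAux

open MajAux in
theorem maj (hr : RowS) : MajS := by
  refine ⟨400, by norm_num, fun N L hN hL => ?_⟩
  have hN1 : (1 : ℝ) ≤ N := by exact_mod_cast hN
  have hL1 : (L : ℝ) ≤ N := by exact_mod_cast hL
  have hlog := one_le_log_add_two hN1
  refine ⟨fun k => (if k = 0 then 200 * Real.log (N + 2) / N else 0) +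
    65 / N * ∑ m ∈ Finset.Icc 1 N, cf m k, fun k => ?_, fun y hy => ?_⟩
  · have h1 : ∑ m ∈ Finset.Icc 1 N, cf m k ≤ 2 * Real.log (N + 2) := by
      refine (Finset.sum_le_sum fun m _ => cf_le m k).trans ((sum_inv_le N).trans ?_)
      linarith [Real.log_le_log (by linarith) (by linarith : (N : ℝ) ≤ N + 2)]
    have h2 : 0 ≤ ∑ m ∈ Finset.Icc 1 N, cf m k :=
      Finset.sum_nonneg fun m _ => by unfold cf; positivity
    beta_reduce
    rw [abs_of_nonneg (by split_ifs <;> positivity)]
    calc _ ≤ 200 * Real.log (N + 2) / N + 100 / N * (2 * Real.log (N + 2)) := by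
          gcongr
          · split_ifs
            · exact le_rfl
            · positivity
          · norm_num
      _ = _ := by ring
  have e1 : ∑ k ∈ Finset.Icc (-(N : ℤ)) N, ((((if k = 0 then 200 * Real.log (N + 2) / N else 0) +
      65 / N * ∑ m ∈ Finset.Icc 1 N, cf m k : ℝ) : ℂ)) * e (k * y) =
      ((200 * Real.log (N + 2) / N + 65 / N * ∑ m ∈ Finset.Icc 1 N, Fj m y : ℝ) : ℂ) := by
    simp only [Complex.ofReal_add, add_mul, Finset.sum_add_distrib]
    congr 1
    · rw [Finset.sum_eq_single 0 (fun k _ h => by simp [h]) (by simp)]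
      simp
    · simp only [Complex.ofReal_mul, Complex.ofReal_sum, mul_assoc, ← Finset.mul_sum,
        Finset.sum_mul]
      rw [Finset.sum_comm]
      congr 1
      exact Finset.sum_congr rfl fun m hm => (Fj_eq (Finset.mem_Icc.1 hm).2 y).symm
  rw [e1, Complex.ofReal_re]
  have h0 := abs_sub_round y
  have h1 : ∀ l ∈ Ls L, 1 / (1 + N * |y + l|) ≤ 4 / N * (1 / (1 + |((-round y : ℤ) : ℝ) - l|)) +
      if l = -round y then 65 / N * ∑ m ∈ Finset.Icc 1 N, Fj m y else 0 := by
    intro l _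
    split_ifs with h
    · refine le_add_of_nonneg_of_le (by positivity) ((near hN).trans (le_of_eq ?_))
      simp only [Fj_add]
    · have a1 : (1 : ℝ) ≤ |((-round y : ℤ) : ℝ) - l| := by
        have : (1 : ℤ) ≤ |-round y - l| := Int.one_le_abs (by omega)
        exact_mod_cast this
      have a2 : |((-round y : ℤ) : ℝ) - l| ≤ |y + l| + |y - round y| := by
        rw [← abs_neg (y + l)]
        refine le_trans (le_of_eq ?_) (abs_add_le _ _)
        push_cast
        congr 1
        ring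
      rw [add_zero, div_mul_div_comm, div_le_div_iff₀ (by positivity) (by positivity)]
      nlinarith
  refine (Finset.sum_le_sum h1).trans ?_
  rw [Finset.sum_add_distrib, ← Finset.mul_sum]
  refine add_le_add ?_ ?_
  · have h2 := hr (Ls L) (-round y) (50002 * N) (by positivity) fun v hv => by
      have a1 : |(v : ℝ)| ≤ L := by exact_mod_cast (mem_Ls.1 hv).2
      have a2 := abs_le.1 a1
      have a3 := abs_le.1 hy
      have a4 := abs_le.1 h0
      push_cast
      rw [abs_le]
      constructor <;> linarith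
    have h3 : Real.log (50002 * N + 1) ≤ 24 * Real.log (N + 2) := by
      rw [show (24 : ℝ) = (24 : ℕ) by norm_num, ← Real.log_pow]
      refine Real.log_le_log (by positivity) ?_
      calc _ ≤ (3 : ℝ) ^ 23 * (N + 2) := by nlinarith
        _ ≤ (N + 2) ^ 23 * (N + 2) := by gcongr; linarith
        _ = _ := by ring
    calc _ ≤ 4 / N * (50 * Real.log (N + 2)) := by gcongr; linarith
      _ = _ := by ring
  · rw [Finset.sum_ite_eq']
    split_ifs
    · exact le_rfl
    · exact mul_nonneg (by positivity) (Finset.sum_nonneg fun _ _ => Fj_nonneg _ _)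

end Pool.Agent.Lib.MP_80d0cf_nt.Sg
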