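import Pool.Agent.Lib.MP_80d0cf_nt.Sg.Spec

/-! Level sets in the middle range. -/

open Set MeasureTheory ComplexConjugate Filter Topology

namespace Pool.Agent.Lib.MP_80d0cf_nt.Sg

open Up

theorem mid (hg : GrdS) (hs : SqS) (hl : GmlS) (hv : HmvS) : MidS := by
  intro d hd hd1
  obtain ⟨η, N0, hη, hη1, hl⟩ := hl (d / 2) (by positivity) (by linarith)
  obtain ⟨δ, hδ, rfl⟩ : ∃ δ : ℝ, 0 < δ ∧ η = 12 * δ := ⟨η / 12, by positivity, by ring⟩
  obtain ⟨Cs, hCs, hs⟩ := hs (δ / 2) (by positivity)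
  obtain ⟨C, hC, hv⟩ := hv
  obtain ⟨N2, hN2, hlog⟩ := exists_log_pow_le (Cs + 2 * C + 4) 1 (show 0 < δ / 2 by positivity)
  refine ⟨δ, max N0 N2, hδ, by linarith, fun T V N hT hN hV h4 h5 => ?_⟩
  rw [max_le_iff] at hN
  have hlog := hlog N hN.2
  rw [pow_one] at hlog
  have h1 : (1 : ℝ) ≤ N := hN2.trans hN.2
  have hN1 : 1 ≤ N := by exact_mod_cast h1
  have hN0 : (0 : ℝ) < N := by linarith
  have hT0 : 0 < T := by linarith
  have mono : ∀ {x y : ℝ}, x ≤ y → (N : ℝ) ^ x ≤ (N : ℝ) ^ y := fun h =>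
    Real.rpow_le_rpow_of_exponent_le h1 h
  have ad : ∀ x y : ℝ, (N : ℝ) ^ x * (N : ℝ) ^ y = (N : ℝ) ^ (x + y) := fun x y =>
    (Real.rpow_add hN0 x y).symm
  have pw : ∀ (x : ℝ) (n : ℕ), ((N : ℝ) ^ x) ^ n = (N : ℝ) ^ (x * n) := fun x n =>
    (Real.rpow_mul_natCast hN0.le x n).symm
  have e2 : ((N ^ 2 : ℕ) : ℝ) = (N : ℝ) ^ (2 : ℝ) := by rw [Real.rpow_two, Nat.cast_pow]
  have s2 : ∀ x : ℝ, ((N ^ 2 : ℕ) : ℝ) ^ x = (N : ℝ) ^ (2 * x) := fun x => by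
    rw [e2, Real.rpow_mul hN0.le]
  have ge1 : ∀ {x : ℝ}, 1 ≤ x → (N : ℝ) ≤ (N : ℝ) ^ x := fun h =>
    (Real.rpow_one _).ge.trans (mono h)
  have hL := one_le_log_add_two h1
  have b1 : Cs + 2 * C + 4 ≤ (N : ℝ) ^ (δ / 2) :=
    (le_mul_of_one_le_right (by positivity) hL).trans hlog
  have b2 : (N : ℝ) ^ (δ / 2) ≤ (N : ℝ) ^ δ := mono (by linarith)
  have b3 : Real.log ((N ^ 2 : ℕ) + 2) ≤ 2 * Real.log (N + 2) := by
    rw [show (2 : ℝ) * _ = (2 : ℕ) * Real.log (N + 2) by norm_num, ← Real.log_pow, Nat.cast_pow]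
    exact Real.log_le_log (by positivity) (by nlinarith)
  have b4 : (N : ℝ) ^ (2 + d) ≤ T := by
    refine (Real.rpow_le_rpow_iff (by positivity) hT0.le (show 0 < 1 - d by linarith)).1 ?_
    calc _ ≤ (N : ℝ) ^ (1 - δ) * (N : ℝ) ^ (1 - δ) := by
          rw [← Real.rpow_mul hN0.le, ad]; exact mono (by nlinarith)
      _ ≤ T ^ (1 - d) * (N : ℝ) ^ (δ - 1) * (N : ℝ) ^ (1 - δ) := by gcongr; exact h4.trans h5
      _ = _ := by rw [mul_assoc, ad]; simp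
  have key : ∀ τ0 : ℝ, ∃ a : ℕ → ℂ, (∀ k, ‖a k‖ ≤ bw (k / (N ^ 2 : ℕ))) ∧ ∀ u : ℝ,
      V ≤ ‖DN N (τ0 + u)‖ → V ^ 2 * (N : ℝ) ^ (1 - δ) ≤ ‖SN (N ^ 2) a u‖ := fun τ0 => by
    obtain ⟨a, ha, hs⟩ := hs N τ0 hN1
    refine ⟨a, ha, fun u hu => le_of_mul_le_mul_left ?_ (Real.rpow_pos_of_pos hN0 δ)⟩
    calc _ = N * V ^ 2 := by rw [mul_left_comm, ad, add_sub_cancel, Real.rpow_one, mul_comm]
      _ ≤ N * ‖DN N (τ0 + u)‖ ^ 2 := by gcongr
      _ ≤ (N : ℝ) ^ (δ / 2) * (N : ℝ) ^ (δ / 2) * ‖SN (N ^ 2) a u‖ :=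
          (hs u).trans (by gcongr; linarith)
      _ = _ := by rw [ad, add_halves]
  have fin : 4 * T * (N : ℝ) ^ (1 - 2 * δ) ≤ T * (N : ℝ) ^ (1 - δ) := by
    calc _ ≤ (N : ℝ) ^ δ * T * (N : ℝ) ^ (1 - 2 * δ) := by gcongr; linarith
      _ = _ := by rw [mul_comm _ T, mul_assoc, ad]; congr 2; ring
  refine le_trans ?_ fin
  have e8 : V ^ 8 = (V ^ 4) ^ 2 := by ring
  have hX : 0 < V ^ 4 := by positivity
  rcases le_total (V ^ 4) ((N : ℝ) ^ (1 + 11 * δ)) with h | h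
  · have k1 := hg (DN N) (2 * T) (3 * T) ((N : ℝ) ^ (2 + d)) V ((N : ℝ) ^ (1 + d - 24 * δ))
      (continuous_DN N) (by linarith) (Real.one_le_rpow h1 (by linarith)) fun τ0 W hU hS => by
        obtain ⟨a, ha, key⟩ := key τ0
        refine (hl (N ^ 2) a W (hN.1.trans (e2 ▸ ge1 one_le_two)) ha (fun u hu v hv =>
          (hU u hu v hv).trans_eq (by rw [s2]; congr 1; ring))
          fun u hu => le_trans ?_ (key u (hS u hu))).trans_eq (by rw [s2]; congr 1; ring)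
        calc _ ≤ (N : ℝ) ^ ((1 - δ) / 2) * (N : ℝ) ^ (1 - δ) := by
              rw [s2, ad]; exact mono (by linarith)
          _ ≤ _ := by
              gcongr
              refine le_of_pow_le_pow_left₀ two_ne_zero (by positivity) ?_
              rw [pw, ← pow_mul]
              exact le_of_eq_of_le (by congr 1; push_cast; ring) h4
    have k2 : 2 * (3 * T - 2 * T) / (N : ℝ) ^ (2 + d) + 2 ≤ 4 * T * (N : ℝ) ^ (-(2 + d)) := by
      have : 1 ≤ T / (N : ℝ) ^ (2 + d) := (one_le_div (by positivity)).2 b4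
      rw [Real.rpow_neg hN0.le, ← div_eq_mul_inv, mul_div_assoc, mul_div_assoc,
        show 3 * T - 2 * T = T by ring]
      linarith
    calc _ ≤ ((N : ℝ) ^ (1 + 11 * δ)) ^ 2 *
          (4 * T * (N : ℝ) ^ (-(2 + d)) * (N : ℝ) ^ (1 + d - 24 * δ)) := by
          rw [e8]
          exact mul_le_mul (by gcongr) (k1.trans (by gcongr)) measureReal_nonneg (by positivity)
      _ = _ := by
          rw [pw, mul_assoc (4 * T), mul_left_comm, ad, ad]; congr 2; push_cast; ring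
  · have c1 : (N : ℝ) ≤ V ^ 4 * (N : ℝ) ^ (-(3 * δ)) :=
      (ge1 (show 1 ≤ 1 + 11 * δ + -(3 * δ) by linarith)).trans (by rw [← ad]; gcongr)
    have c2 : (V ^ 2 * (N : ℝ) ^ (1 - δ)) ^ 2 = V ^ 4 * (N : ℝ) ^ (2 - 2 * δ) := by
      rw [mul_pow, pw, ← pow_mul]; congr 2; push_cast; ring
    have c3 : (0 : ℝ) ≤ Real.log ((N ^ 2 : ℕ) + 2) :=
      Real.log_nonneg (by linarith [Nat.cast_nonneg (α := ℝ) (N ^ 2)])
    have k1 := hg (DN N) (2 * T) (3 * T) ((V ^ 4 * (N : ℝ) ^ (-(3 * δ))) ^ 2) V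
      ((N : ℝ) ^ (2 + 3 * δ) / V ^ 4)
      (continuous_DN N) (by linarith) (one_le_pow₀ (h1.trans c1)) fun τ0 W hU hS => by
        obtain ⟨a, ha, key⟩ := key τ0
        refine (hv (N ^ 2) a W _ _ (Nat.one_le_pow _ _ hN1) ha hU (by positivity)
          (fun u hu => key u (hS u hu)) ?_).trans ?_
        · have : Real.log ((N ^ 2 : ℕ) + 2) ≤ V ^ 4 * (N : ℝ) ^ (-(3 * δ)) := by
            have := (mono (show δ / 2 ≤ 1 by linarith)).trans (Real.rpow_one _).le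
            have : 2 * Real.log (N + 2) ≤ (Cs + 2 * C + 4) * Real.log (N + 2) := by
              gcongr; linarith
            linarith
          rw [Real.sqrt_sq (by positivity), c2]
          calc _ ≤ C * (N ^ 2 : ℕ) * (2 * (V ^ 4 * (N : ℝ) ^ (-(3 * δ)))) := by gcongr; linarith
            _ = 2 * C * (V ^ 4 * ((N : ℝ) ^ (2 : ℝ) * (N : ℝ) ^ (-(3 * δ)))) := by rw [e2]; ring
            _ ≤ (N : ℝ) ^ δ * (V ^ 4 * ((N : ℝ) ^ (2 : ℝ) * (N : ℝ) ^ (-(3 * δ)))) := by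
                gcongr; linarith
            _ = _ := by rw [mul_left_comm, ad, ad]; congr 2; ring
        · rw [c2, div_le_div_iff₀ (by positivity) hX, mul_left_comm, ad, mul_comm (V ^ 4)]
          gcongr ?_ * _
          calc _ ≤ C * ((N ^ 2 : ℕ) : ℝ) ^ 2 * (2 * Real.log (N + 2)) := by gcongr
            _ = 2 * C * Real.log (N + 2) * ((N : ℝ) ^ (2 : ℝ)) ^ 2 := by rw [e2]; ring
            _ ≤ (N : ℝ) ^ δ * ((N : ℝ) ^ (2 : ℝ)) ^ 2 := by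
                gcongr
                exact le_trans (by gcongr; linarith) (hlog.trans b2)
            _ = _ := by rw [pw, ad]; congr 1; push_cast; ring
    have k2 : (N : ℝ) ^ (2 + 9 * δ) / V ^ 4 ≤ (N : ℝ) ^ (1 - 2 * δ) := by
      rw [div_le_iff₀ hX]
      exact le_of_eq_of_le (by rw [ad]; congr 1; ring)
        (mul_le_mul_of_nonneg_left h (Real.rpow_nonneg hN0.le _))
    have k3 : V ^ 4 * (N : ℝ) ^ (2 + 3 * δ) ≤ T * (N : ℝ) ^ (1 - 2 * δ) := by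
      calc _ ≤ T ^ (1 - d) * (N : ℝ) ^ (δ - 1) * (N : ℝ) ^ (2 + 3 * δ) := by gcongr
        _ ≤ T ^ (1 - d) * (N : ℝ) ^ d * (N : ℝ) ^ (1 - 2 * δ) := by
            rw [mul_assoc, mul_assoc, ad, ad]
            exact mul_le_mul_of_nonneg_left (mono (by linarith)) (by positivity)
        _ ≤ T ^ (1 - d) * T ^ d * (N : ℝ) ^ (1 - 2 * δ) := by
            gcongr; exact (ge1 (by linarith)).trans b4
        _ = _ := by rw [← Real.rpow_add hT0]; simp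
    have k4 : (N : ℝ) ^ (2 + 9 * δ) * ((N : ℝ) ^ (-(3 * δ))) ^ 2 = (N : ℝ) ^ (2 + 3 * δ) := by
      rw [pw, ad]; congr 1; push_cast; ring
    calc _ ≤ _ := mul_le_mul_of_nonneg_left k1 (by positivity)
      _ = 2 * T * ((N : ℝ) ^ (2 + 9 * δ) / V ^ 4) + 2 * (V ^ 4 * (N : ℝ) ^ (2 + 3 * δ)) := by
          rw [← k4]; field_simp; ring
      _ ≤ 2 * T * (N : ℝ) ^ (1 - 2 * δ) + 2 * (T * (N : ℝ) ^ (1 - 2 * δ)) := by gcongr
      _ = _ := by ring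

end Pool.Agent.Lib.MP_80d0cf_nt.Sg
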