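import Pool.Agent.Lib.MP_80d0cf_nt.Sg.Spec
import Pool.Agent.Lib.MP_80d0cf_nt.Up.ZetD

/-! Moments of the pieces on the critical line. -/

open Set MeasureTheory ComplexConjugate Filter Topology

namespace Pool.Agent.Lib.MP_80d0cf_nt.Sg

open Up

namespace MomAux

/-- level set bound of order `A` with the factor `N ^ x` -/
def LevN (A : ℕ) (x : ℝ) : Prop := ∀ ε : ℝ, 0 < ε → ∃ T0 : ℝ, 1 ≤ T0 ∧ ∀ (T V : ℝ) (N : ℕ),
  T0 ≤ T → 1 ≤ N → (N : ℝ) ≤ 16 * T → T ^ ε ≤ V →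
  V ^ A * lev (2 * T) (3 * T) (DN N) V ≤ T ^ (1 + ε) * (N : ℝ) ^ x

lemma lev4 (h4 : A4S) : LevN 4 0 := by
  intro ε hε
  obtain ⟨T4, h4⟩ := h4 ε hε
  refine ⟨max 1 T4, le_max_left _ _, fun T V N hT hN hNT hV => ?_⟩
  simp only [max_le_iff] at hT
  have hV0 : 0 < V := (Real.rpow_pos_of_pos (by linarith [hT.1]) ε).trans_le hV
  have h := h4 T V N hT.2 hN hNT hV
  rw [le_div_iff₀ (by positivity)] at h
  rw [Real.rpow_zero, mul_one, mul_comm]
  exact h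

lemma lev8 (h4 : LevN 4 0) {d : ℝ} (hd : 0 < d) (hd1 : d ≤ 1 / 100) (h12 : LevS 12 (2 - d))
    (hm : MidS) : ∃ δ : ℝ, 0 < δ ∧ δ ≤ 1 / 100 ∧ LevN 8 (1 - δ) := by
  obtain ⟨δ, N1, hδ, hδd, hm⟩ := hm d hd hd1
  refine ⟨δ, hδ, by linarith, fun ε hε => ?_⟩
  obtain ⟨T4, hT4, h4⟩ := h4 ε hε
  obtain ⟨T12, -, h12⟩ := h12 ε hε
  obtain ⟨T1, -, h1⟩ := exists_log_pow_le (2 * N1) 0 hε
  refine ⟨max T4 (max T12 T1), le_max_of_le_left hT4, fun T V N hT hN hNT hV => ?_⟩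
  simp only [max_le_iff] at hT
  obtain ⟨t4, t12, t1⟩ := hT
  have hT1 : 1 ≤ T := hT4.trans t4
  have hT0 : 0 < T := by linarith
  have hN0 : (0 : ℝ) < N := by exact_mod_cast hN
  have hV0 : 0 < V := (Real.rpow_pos_of_pos hT0 ε).trans_le hV
  have hl := lev_nonneg (2 * T) (3 * T) (DN N) V
  rcases le_total (V ^ 4) ((N : ℝ) ^ (1 - δ)) with c1 | c1
  · have h := h4 T V N t4 hN hNT hV
    rw [Real.rpow_zero, mul_one] at h
    calc _ = V ^ 4 * lev (2 * T) (3 * T) (DN N) V * V ^ 4 := by ring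
      _ ≤ _ := mul_le_mul h c1 (by positivity) (by positivity)
  rcases le_total (T ^ (1 - d) * (N : ℝ) ^ (δ - 1)) (V ^ 4) with c2 | c2
  · have h := h12 T V N t12 hN hNT hV
    rw [Real.rpow_ofNat] at h
    refine le_of_mul_le_mul_right (a := T ^ (1 - d) * (N : ℝ) ^ (δ - 1)) ?_ (by positivity)
    calc _ ≤ V ^ 8 * lev (2 * T) (3 * T) (DN N) V * V ^ 4 :=
          mul_le_mul_of_nonneg_left c2 (by positivity)
      _ = V ^ 12 * lev (2 * T) (3 * T) (DN N) V := by ring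
      _ ≤ _ := h
      _ = T ^ (1 + ε + (1 - d)) * (N : ℝ) ^ (1 - δ + (δ - 1)) := by
          rw [show 1 - δ + (δ - 1) = 0 by ring, Real.rpow_zero, mul_one]
          congr 1
          ring
      _ = _ := by rw [Real.rpow_add hT0 (1 + ε), Real.rpow_add hN0]; ring
  rcases lt_or_ge (2 * (N : ℝ)) V with c3 | c3
  · rw [lev_eq_zero fun τ _ => (FinAux.norm_DN_le N τ).trans_lt c3, mul_zero]
    positivity
  · have h := h1 T t1
    rw [pow_zero, mul_one] at h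
    refine (hm T V N hT1 (by linarith) hV0 c1 c2).trans
      (mul_le_mul_of_nonneg_right ?_ (by positivity))
    calc T = T ^ (1 : ℝ) := (Real.rpow_one T).symm
      _ ≤ _ := Real.rpow_le_rpow_of_exponent_le hT1 (by linarith)

lemma lev6 (h4 : LevN 4 0) {x : ℝ} (h8 : LevN 8 x) : LevN 6 (x / 2) := by
  intro ε hε
  obtain ⟨T4, hT4, h4⟩ := h4 ε hε
  obtain ⟨T8, -, h8⟩ := h8 ε hε
  refine ⟨max T4 T8, le_max_of_le_left hT4, fun T V N hT hN hNT hV => ?_⟩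
  simp only [max_le_iff] at hT
  have hT0 : 0 < T := by linarith [hT.1]
  have hN0 : (0 : ℝ) < N := by exact_mod_cast hN
  have hl := lev_nonneg (2 * T) (3 * T) (DN N) V
  rcases le_total (V ^ 2) ((N : ℝ) ^ (x / 2)) with c1 | c1
  · have h := h4 T V N hT.1 hN hNT hV
    rw [Real.rpow_zero, mul_one] at h
    calc _ = V ^ 4 * lev (2 * T) (3 * T) (DN N) V * V ^ 2 := by ring
      _ ≤ _ := mul_le_mul h c1 (by positivity) (by positivity)
  · refine le_of_mul_le_mul_right (a := (N : ℝ) ^ (x / 2)) ?_ (by positivity)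
    calc _ ≤ V ^ 6 * lev (2 * T) (3 * T) (DN N) V * V ^ 2 :=
          mul_le_mul_of_nonneg_left c1 (by positivity)
      _ = V ^ 8 * lev (2 * T) (3 * T) (DN N) V := by ring
      _ ≤ _ := h8 T V N hT.2 hN hNT hV
      _ = _ := by rw [mul_assoc, ← Real.rpow_add hN0, add_halves]

lemma momN {A : ℕ} {x : ℝ} (hA8 : A ≤ 8) (hx : 0 ≤ x) (h : LevN A x) {ε : ℝ} (hε : 0 < ε) :
    ∃ C T0 : ℝ, 0 < C ∧ ∀ (T : ℝ) (N : ℕ), T0 ≤ T → 1 ≤ N → (N : ℝ) ≤ 16 * T →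
      ∫ τ in (2 * T)..(3 * T), ‖DN N τ‖ ^ A ≤ C * T ^ (1 + 9 * ε) * (N : ℝ) ^ x := by
  obtain ⟨T0, hT0, h⟩ := h ε hε
  obtain ⟨J, hJ⟩ := exists_nat_ge (2 / ε)
  have hJ0 : (0 : ℝ) ≤ J := Nat.cast_nonneg J
  refine ⟨1 + J, max T0 32, by linarith, fun T N hT hN hNT => ?_⟩
  simp only [max_le_iff] at hT
  have hT1 : 1 ≤ T := by linarith [hT.2]
  have hTp : 0 < T := by linarith
  have hq : 1 ≤ T ^ ε := Real.one_le_rpow hT1 hε.le
  have hNx : 1 ≤ (N : ℝ) ^ x := Real.one_le_rpow (by exact_mod_cast hN) hx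
  have hb : ∀ τ ∈ Icc (2 * T) (3 * T), ‖DN N τ‖ ≤ T ^ ε * (T ^ ε) ^ J := by
    intro τ _
    have h1 : T ^ (2 : ℝ) ≤ (T ^ ε) ^ J := by
      rw [← Real.rpow_natCast, ← Real.rpow_mul hTp.le]
      refine Real.rpow_le_rpow_of_exponent_le hT1 ?_
      rw [div_le_iff₀ hε] at hJ
      linarith
    rw [Real.rpow_two] at h1
    have h2 : (T ^ ε) ^ J ≤ T ^ ε * (T ^ ε) ^ J := le_mul_of_one_le_left (by positivity) hq
    have h3 := FinAux.norm_DN_le N τ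
    nlinarith [hT.2]
  have key := FinAux.layer (A := (A : ℝ)) (by linarith : 2 * T ≤ 3 * T) (continuous_DN N)
    (Nat.cast_nonneg A) (by positivity) (by positivity) J hb
  simp only [Real.rpow_natCast] at key
  refine key.trans ?_
  have hA' : (T ^ ε) ^ A ≤ T ^ (8 * ε) := by
    rw [mul_comm, Real.rpow_mul hTp.le, Real.rpow_ofNat]
    exact pow_le_pow_right₀ hq hA8
  have h1 : (T ^ ε) ^ A * (3 * T - 2 * T) ≤ T ^ (1 + 9 * ε) * (N : ℝ) ^ x := by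
    calc _ ≤ T ^ (8 * ε) * T ^ (1 : ℝ) := by
          rw [Real.rpow_one, show 3 * T - 2 * T = T by ring]
          exact mul_le_mul_of_nonneg_right hA' hTp.le
      _ ≤ T ^ (1 + 9 * ε) := by
          rw [← Real.rpow_add hTp]
          exact Real.rpow_le_rpow_of_exponent_le hT1 (by linarith)
      _ ≤ _ := le_mul_of_one_le_right (by positivity) hNx
  have h2 : ∀ j ∈ Finset.range J, (T ^ ε * (T ^ ε) ^ (j + 1)) ^ A *
      lev (2 * T) (3 * T) (DN N) (T ^ ε * (T ^ ε) ^ j) ≤ T ^ (1 + 9 * ε) * (N : ℝ) ^ x := by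
    intro j _
    have h3 := h T (T ^ ε * (T ^ ε) ^ j) N hT.1 hN hNT
      (le_mul_of_one_le_right (by positivity) (one_le_pow₀ hq))
    calc _ = (T ^ ε) ^ A * ((T ^ ε * (T ^ ε) ^ j) ^ A *
            lev (2 * T) (3 * T) (DN N) (T ^ ε * (T ^ ε) ^ j)) := by
          rw [← mul_assoc, ← mul_pow]
          congr 2
          ring
      _ ≤ T ^ (8 * ε) * (T ^ (1 + ε) * (N : ℝ) ^ x) :=
          mul_le_mul hA' h3 (mul_nonneg (by positivity) (lev_nonneg _ _ _ _)) (by positivity)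
      _ = _ := by
          rw [← mul_assoc, ← Real.rpow_add hTp]
          congr 2
          ring
  have h3 := Finset.sum_le_card_nsmul _ _ _ h2
  rw [Finset.card_range, nsmul_eq_mul] at h3
  linarith

end MomAux

open MomAux in
theorem mom (h4 : A4S) (h12 : ∃ d : ℝ, 0 < d ∧ d ≤ 1 / 400 ∧ LevS 12 (2 - d)) (hm : MidS) :
    MomS := by
  obtain ⟨d, hd, hd1, h12⟩ := h12
  obtain ⟨δ, hδ, hδ1, h8⟩ := lev8 (lev4 h4) hd (by linarith) h12 hm
  have h6 := lev6 (lev4 h4) h8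
  refine ⟨δ, hδ, hδ1, fun k hk ε hε => ?_⟩
  have e9 : 1 + 9 * (ε / 9) = 1 + ε := by ring
  rcases hk with rfl | rfl
  · obtain ⟨C, T0, hC, h⟩ := momN (by norm_num) (by linarith) h6 (show 0 < ε / 9 by positivity)
    refine ⟨C, T0, hC, fun T N hT hN hNT => ?_⟩
    rw [show (1 - δ) * (((3 : ℕ) : ℝ) - 2) / 2 = (1 - δ) / 2 by push_cast; ring, ← e9]
    exact h T N hT hN hNT
  · obtain ⟨C, T0, hC, h⟩ := momN (by norm_num) (by linarith) h8 (show 0 < ε / 9 by positivity)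
    refine ⟨C, T0, hC, fun T N hT hN hNT => ?_⟩
    rw [show (1 - δ) * (((4 : ℕ) : ℝ) - 2) / 2 = 1 - δ by push_cast; ring, ← e9]
    exact h T N hT hN hNT

end Pool.Agent.Lib.MP_80d0cf_nt.Sg
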