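import Pool.Agent.Lib.MP_80d0cf_nt.Sg.Spec
import Pool.Agent.Lib.MP_80d0cf_nt.Up.Kern

/-! Orthogonality. -/

open Set MeasureTheory ComplexConjugate Filter Topology

namespace Pool.Agent.Lib.MP_80d0cf_nt.Sg

open Up

namespace OrtAux

lemma int_e (k : ℤ) (a : ℝ) (m : ℕ) :
    ∫ v in a..(a + m), e (k * v) = if k = 0 then (m : ℂ) else 0 := by
  split_ifs with h
  · simp [h]
  have h0 : 2 * Real.pi * Complex.I * ((k : ℝ) : ℂ) ≠ 0 := by
    simp [h, Real.pi_ne_zero]
  rw [intervalIntegral.integral_eq_sub_of_hasDerivAt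
    (f := fun v => e (k * v) / (2 * Real.pi * Complex.I * ((k : ℝ) : ℂ)))
    (fun x _ => ((hasDerivAt_e_comp ((hasDerivAt_id' x).const_mul (k : ℝ))).div_const _).congr_deriv
      (by rw [mul_one, mul_div_cancel_left₀ _ h0]))
    (Continuous.intervalIntegrable (by fun_prop) _ _), mul_add, e_add,
    show (k : ℝ) * m = ((k * m : ℤ) : ℝ) by push_cast; ring, e_int, mul_one, sub_self]

lemma int_re {f : ℝ → ℂ} (hf : Continuous f) (a b : ℝ) :
    ∫ x in a..b, (f x).re = (∫ x in a..b, f x).re :=
  Complex.reCLM.intervalIntegral_comp_comm (hf.intervalIntegrable a b)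

end OrtAux

open OrtAux in
theorem ort : OrtS := by
  intro ι s j c a m
  have h1 : ∀ v : ℝ, ‖∑ i ∈ s, c i * e (j i * v)‖ ^ 2 =
      (∑ i ∈ s, ∑ i' ∈ s, c i * conj (c i') * e ((j i - j i' : ℤ) * v)).re := by
    intro v
    rw [CombBAux.norm_sq_eq, map_sum, Finset.sum_mul_sum]
    congr 1
    refine Finset.sum_congr rfl fun i _ => Finset.sum_congr rfl fun i' _ => ?_
    push_cast
    rw [sub_mul, e_sub, map_mul]
    ring
  simp only [h1]
  rw [int_re (by fun_prop), intervalIntegral.integral_finsetSum fun _ _ =>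
    Continuous.intervalIntegrable (by fun_prop) _ _, ← Complex.re_ofReal_mul, Finset.mul_sum]
  congr 1
  refine Finset.sum_congr rfl fun i _ => ?_
  rw [intervalIntegral.integral_finsetSum fun _ _ =>
    Continuous.intervalIntegrable (by fun_prop) _ _, Finset.mul_sum]
  refine Finset.sum_congr rfl fun i' _ => ?_
  rw [intervalIntegral.integral_const_mul, int_e]
  simp only [sub_eq_zero]
  split_ifs <;> simp [mul_comm]

theorem rhoS (ho : OrtS) : RhoS := by
  intro W
  constructor
  · have h := ho ℤ W id (fun _ => 1) (-10) 20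
    simp only [id, one_mul, map_one, Finset.sum_ite_eq, Nat.cast_ofNat] at h
    rw [Finset.sum_congr rfl fun i hi => if_pos hi] at h
    norm_num at h
    exact h
  · have h := ho (ℤ × ℤ) (W ×ˢ W) (fun z => z.1 - z.2) (fun _ => 1) (-10) 20
    have h1 : ∀ s : ℝ, ‖rho W s‖ ^ 2 = ‖∑ z ∈ W ×ˢ W, 1 * e ((z.1 - z.2 : ℤ) * s)‖ := by
      intro s
      rw [show ‖rho W s‖ ^ 2 = ‖rho W s * conj (rho W s)‖ by rw [norm_mul, Complex.norm_conj, sq],
        rho, map_sum, Finset.sum_mul_sum, Finset.sum_product]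
      simp only [Int.cast_sub, sub_mul, e_sub, one_mul]
    simp only [h1]
    rw [show (-10 : ℝ) + (20 : ℕ) = 10 by norm_num] at h
    rw [h, En, Finset.card_filter]
    simp only [map_one, mul_one, Finset.sum_product, Complex.re_sum, Nat.cast_sum, Nat.cast_ofNat]
    gcongr with a _ b _ c _ d _
    split_ifs with h2 h3
    · simp
    · exact absurd (by rw [h2]; simp) h3
    · simp
    · simp

open OrtAux in
theorem l2 (ho : OrtS) : L2S := by
  obtain ⟨M, hM⟩ := exists_nat_ge (Real.exp 10)
  have hM0 : (0 : ℝ) < M := (Real.exp_pos _).trans_le hM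
  refine ⟨Real.exp 10 * M, by positivity, fun ι s j Δ hΔ hs => ?_⟩
  have key : ∀ c : ι → ℂ, ∫ p in (-10 : ℝ)..10, ‖∑ i ∈ s, c i * e (j i * Real.exp p)‖ ^ 2 ≤
      Real.exp 10 * M * Δ * ∑ i ∈ s, ‖c i‖ ^ 2 := by
    intro c
    set F : ℝ → ℝ := fun v => ‖∑ i ∈ s, c i * e (j i * v)‖ ^ 2 with hF
    have hc : Continuous F := by rw [hF]; fun_prop
    have h1 := ho ι s j c 0 M
    have h2 := CombAAux.schur_gen s (fun i i' => if j i = j i' then 1 else 0) c Δ
      (fun i hi => le_trans (le_of_eq (by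
        rw [Finset.card_filter]; push_cast
        exact Finset.sum_congr rfl fun i' _ => by simp only [eq_comm (a := j i)]; split_ifs <;> simp))
        (hs i hi))
      (fun i hi => le_trans (le_of_eq (by
        rw [Finset.card_filter]; push_cast
        exact Finset.sum_congr rfl fun i' _ => by split_ifs <;> simp)) (hs i hi))
    simp only [mul_ite, mul_one, mul_zero] at h2
    calc _ ≤ ∫ p in (-10 : ℝ)..10, Real.exp 10 * ((F ∘ Real.exp) p * Real.exp p) := by
          refine intervalIntegral.integral_mono_on (by norm_num)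
            ((hc.comp Real.continuous_exp).intervalIntegrable _ _)
            (Continuous.intervalIntegrable (by fun_prop) _ _) fun p hp => ?_
          rw [mul_left_comm, ← Real.exp_add]
          exact le_mul_of_one_le_right (sq_nonneg _) (Real.one_le_exp (by linarith [hp.1]))
      _ = Real.exp 10 * ∫ v in (Real.exp (-10))..(Real.exp 10), F v := by
          rw [intervalIntegral.integral_const_mul, intervalIntegral.integral_comp_mul_deriv
            (fun x _ => Real.hasDerivAt_exp x) Real.continuous_exp.continuousOn hc]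
      _ ≤ Real.exp 10 * ∫ v in (0 : ℝ)..(0 + M), F v := by
          refine mul_le_mul_of_nonneg_left (intervalIntegral.integral_mono_interval
            (Real.exp_pos _).le (Real.exp_le_exp.2 (by norm_num)) (by linarith)
            (Eventually.of_forall fun v => sq_nonneg _) (hc.intervalIntegrable _ _)) (by positivity)
      _ ≤ _ := by
          rw [h1, mul_assoc, mul_assoc]
          gcongr
          exact (Complex.re_le_norm _).trans h2
  refine ⟨key, fun f hf => ?_⟩
  set z : ι → ℂ := fun i => ∫ q in (-10 : ℝ)..10, (f q : ℂ) * e (j i * Real.exp q) with hz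
  rcases s.eq_empty_or_nonempty with rfl | ⟨i0, hi0⟩
  · rw [Finset.sum_empty]
    exact mul_nonneg (by positivity)
      (intervalIntegral.integral_nonneg (by norm_num) fun _ _ => sq_nonneg _)
  have hΔ0 : 0 < Δ := lt_of_lt_of_le (Nat.cast_pos.2 (Finset.card_pos.2
    ⟨i0, by simp [hi0]⟩)) (hs i0 hi0)
  set t := Real.exp 10 * M * Δ with ht
  have ht0 : 0 < t := by positivity
  set g : ℝ → ℂ := fun q => ∑ i ∈ s, conj (z i) * e (j i * Real.exp q) with hg
  have hgc : Continuous g := by rw [hg]; fun_prop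
  have h1 := key fun i => conj (z i)
  simp only [Complex.norm_conj] at h1
  have h2 : ∑ i ∈ s, ‖z i‖ ^ 2 = ∫ q in (-10 : ℝ)..10, ((f q : ℂ) * g q).re := by
    rw [int_re (by fun_prop)]
    simp only [hg, Finset.mul_sum, mul_left_comm (f _ : ℂ)]
    rw [intervalIntegral.integral_finsetSum fun _ _ =>
      Continuous.intervalIntegrable (by fun_prop) _ _, Complex.re_sum]
    refine Finset.sum_congr rfl fun i _ => ?_
    rw [intervalIntegral.integral_const_mul, CombBAux.norm_sq_eq, mul_comm]
  have h3 : ∫ q in (-10 : ℝ)..10, ((f q : ℂ) * g q).re ≤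
      ∫ q in (-10 : ℝ)..10, (t / 2 * f q ^ 2 + t⁻¹ / 2 * ‖g q‖ ^ 2) := by
    refine intervalIntegral.integral_mono_on (by norm_num)
      (Continuous.intervalIntegrable (by fun_prop) _ _)
      (Continuous.intervalIntegrable (by fun_prop) _ _) fun q _ => (Complex.re_le_norm _).trans ?_
    rw [norm_mul, Complex.norm_real, Real.norm_eq_abs, ← sq_abs (f q)]
    have : t / 2 * |f q| ^ 2 + t⁻¹ / 2 * ‖g q‖ ^ 2 - |f q| * ‖g q‖ =
        t⁻¹ / 2 * (t * |f q| - ‖g q‖) ^ 2 := by field_simp; ring
    have : 0 ≤ t⁻¹ / 2 * (t * |f q| - ‖g q‖) ^ 2 := by positivity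
    linarith
  rw [intervalIntegral.integral_add (Continuous.intervalIntegrable (by fun_prop) _ _)
    (Continuous.intervalIntegrable (by fun_prop) _ _), intervalIntegral.integral_const_mul,
    intervalIntegral.integral_const_mul, ← h2] at h3
  have h4 := mul_le_mul_of_nonneg_left h1 (show 0 ≤ t⁻¹ / 2 by positivity)
  have h5 : t⁻¹ / 2 * (t * ∑ i ∈ s, ‖z i‖ ^ 2) = (∑ i ∈ s, ‖z i‖ ^ 2) / 2 := by field_simp
  linarith

end Pool.Agent.Lib.MP_80d0cf_nt.Sg
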