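import Pool.Agent.Lib.MP_80d0cf_nt.Sg.Spec

/-! Mean squares and powers of Dirichlet polynomials. -/

open Set MeasureTheory ComplexConjugate Filter Topology

namespace Pool.Agent.Lib.MP_80d0cf_nt.Sg

open Up

namespace PowAux

lemma int_e (a b : ℝ) {x : ℝ} (hx : x ≠ 0) : ‖∫ τ in a..b, e (τ * x)‖ ≤ 1 / (2 * |x|) := by
  have h0 : 2 * (Real.pi : ℂ) * Complex.I * x ≠ 0 := by simp [hx]
  have h1 := abs_pos.2 hx
  rw [intervalIntegral.integral_eq_sub_of_hasDerivAt
    (f := fun τ => e (τ * x) / (2 * Real.pi * Complex.I * x)) (fun τ _ =>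
      ((hasDerivAt_e_comp (hasDerivAt_mul_const x)).div_const _).congr_deriv
        (mul_div_cancel_left₀ _ h0)) (Continuous.intervalIntegrable (by fun_prop) _ _), ← sub_div,
    norm_div]
  have h2 : ‖2 * (Real.pi : ℂ) * Complex.I * x‖ = 2 * Real.pi * |x| := by
    simp [abs_of_pos Real.pi_pos]
  have h3 := norm_sub_le (e (b * x)) (e (a * x))
  rw [norm_e, norm_e] at h3
  rw [h2, div_le_div_iff₀ (by positivity) (by positivity)]
  nlinarith [Real.pi_gt_three]

lemma eval_mul (f g : ArithmeticFunction ℝ) {χ : ℕ → ℂ}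
    (hχ : ∀ m n, 1 ≤ m → 1 ≤ n → χ (m * n) = χ m * χ n) {U V : ℕ} (hf : ∀ m, U < m → f m = 0)
    (hg : ∀ m, V < m → g m = 0) :
    (∑ m ∈ Finset.Icc 1 U, (f m : ℂ) * χ m) * ∑ m ∈ Finset.Icc 1 V, (g m : ℂ) * χ m =
      ∑ m ∈ Finset.Icc 1 (U * V), ((f * g) m : ℂ) * χ m := by
  rw [Finset.sum_mul_sum, ← Finset.sum_product', ← Finset.sum_fiberwise_of_maps_to
    (g := fun p : ℕ × ℕ => p.1 * p.2) (t := Finset.Icc 1 (U * V)) fun p hp => by
      simp only [Finset.mem_product, Finset.mem_Icc] at hp ⊢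
      exact ⟨Nat.mul_pos hp.1.1 hp.2.1, Nat.mul_le_mul hp.1.2 hp.2.2⟩]
  refine Finset.sum_congr rfl fun m hm => ?_
  have m0 : m ≠ 0 := Nat.ne_of_gt (Finset.mem_Icc.1 hm).1
  rw [ArithmeticFunction.mul_apply, Complex.ofReal_sum, Finset.sum_mul]
  refine (Finset.sum_congr rfl fun p hp => ?_).trans (Finset.sum_subset (fun p hp =>
    Nat.mem_divisorsAntidiagonal.2 ⟨(Finset.mem_filter.1 hp).2, m0⟩) fun p h1 h2 => ?_)
  · simp only [Finset.mem_filter, Finset.mem_product, Finset.mem_Icc] at hp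
    rw [← hp.2, hχ _ _ hp.1.1.1 hp.1.2.1]
    push_cast
    ring
  · have h3 := Nat.pos_of_ne_zero (Nat.left_ne_zero_of_mem_divisorsAntidiagonal h1)
    have h4 := Nat.pos_of_ne_zero (Nat.right_ne_zero_of_mem_divisorsAntidiagonal h1)
    have h5 := (Nat.mem_divisorsAntidiagonal.1 h1).1
    simp only [Finset.mem_filter, Finset.mem_product, Finset.mem_Icc] at h2
    rcases (by omega : U < p.1 ∨ V < p.2) with k | k
    · simp [hf _ k]
    · simp [hg _ k]

lemma D_step (k m : ℕ) (σ : ℝ) : Six.D (k + 1) m * (m : ℝ) ^ (-σ) =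
    ∑ p ∈ m.divisorsAntidiagonal, Six.D k p.1 * (p.1 : ℝ) ^ (-σ) * (p.2 : ℝ) ^ (-σ) := by
  rw [Six.D_succ, ← Nat.sum_divisorsAntidiagonal fun x _ => Six.D k x, Finset.sum_mul]
  refine Finset.sum_congr rfl fun p hp => ?_
  rw [← (Nat.mem_divisorsAntidiagonal.1 hp).1, Nat.cast_mul,
    Real.mul_rpow p.1.cast_nonneg p.2.cast_nonneg, mul_assoc]

lemma D_zero (m : ℕ) (σ : ℝ) :
    (1 : ArithmeticFunction ℝ) m = Six.D 0 m * (m : ℝ) ^ (-σ) := by
  rw [Six.D, pow_zero, ArithmeticFunction.one_apply]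
  split_ifs with h <;> simp [h]

lemma D_le {ε : ℝ} (hε : 0 < ε) (k : ℕ) :
    ∃ C : ℝ, 0 ≤ C ∧ ∀ m : ℕ, Six.D k m ≤ C * ((m : ℝ) ^ ε) ^ k := by
  obtain ⟨C0, h0, h1⟩ := Six.divisor_bound hε
  induction k with
  | zero =>
    refine ⟨1, zero_le_one, fun m => ?_⟩
    rw [Six.D, pow_zero, ArithmeticFunction.one_apply]
    split_ifs <;> simp
  | succ k ih =>
    obtain ⟨C, c0, c1⟩ := ih
    refine ⟨C0 * C, by positivity, fun m => ?_⟩
    rw [Six.D_succ]
    refine (Finset.sum_le_card_nsmul _ _ (C * ((m : ℝ) ^ ε) ^ k) fun d hd =>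
      (c1 d).trans ?_).trans ?_
    · have := Nat.divisor_le hd
      gcongr
    · rw [nsmul_eq_mul, ← Six.D_two]
      exact (mul_le_mul_of_nonneg_right (h1 m) (by positivity)).trans_eq (by ring)

end PowAux

open PowAux

theorem mv2 : Mv2S := by
  intro X B a b
  have h1 : ∀ τ : ℝ, ((‖∑ m ∈ Finset.Icc 1 X, (B m : ℂ) * e (-(τ * Real.log m))‖ ^ 2 : ℝ) : ℂ) =
      ∑ m ∈ Finset.Icc 1 X, ∑ n ∈ Finset.Icc 1 X,
        (B m * B n : ℂ) * e (τ * (Real.log n - Real.log m)) := fun τ => by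
    rw [Complex.ofReal_pow, ← Complex.mul_conj', map_sum, Finset.sum_mul_sum]
    refine Finset.sum_congr rfl fun m _ => Finset.sum_congr rfl fun n _ => ?_
    rw [map_mul, Complex.conj_ofReal, conj_e, neg_neg, mul_mul_mul_comm, ← e_add]
    congr 2
    ring
  have h2 : (((∫ τ in a..b, ‖∑ m ∈ Finset.Icc 1 X, (B m : ℂ) * e (-(τ * Real.log m))‖ ^ 2) -
      (b - a) * ∑ m ∈ Finset.Icc 1 X, B m ^ 2 : ℝ) : ℂ) =
      ∑ m ∈ Finset.Icc 1 X, ∑ n ∈ Finset.Icc 1 X, (B m * B n : ℂ) *
        if m = n then 0 else ∫ τ in a..b, e (τ * (Real.log n - Real.log m)) := by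
    rw [Complex.ofReal_sub, ← intervalIntegral.integral_ofReal]
    simp only [h1]
    rw [intervalIntegral.integral_finsetSum fun _ _ =>
      Continuous.intervalIntegrable (by fun_prop) _ _]
    push_cast
    rw [Finset.mul_sum, ← Finset.sum_sub_distrib]
    refine Finset.sum_congr rfl fun m hm => ?_
    rw [intervalIntegral.integral_finsetSum fun _ _ =>
      Continuous.intervalIntegrable (by fun_prop) _ _, ← Finset.add_sum_erase _ _ hm,
      ← Finset.add_sum_erase _ _ hm, if_pos rfl, add_sub_right_comm]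
    simp only [intervalIntegral.integral_const_mul, sub_self, mul_zero, e_zero,
      intervalIntegral.integral_const, Complex.real_smul]
    congr 1
    · push_cast
      ring
    · exact Finset.sum_congr rfl fun n hn => by rw [if_neg (Finset.ne_of_mem_erase hn).symm]
  rw [← Real.norm_eq_abs, ← Complex.norm_real, h2]
  refine (norm_sum_le_of_le _ fun m hm => norm_sum_le_of_le _ (n := fun n => |B m| * |B n| * X)
    fun n hn => ?_).trans ?_
  · rw [norm_mul, norm_mul, Complex.norm_real, Complex.norm_real, Real.norm_eq_abs,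
      Real.norm_eq_abs]
    refine mul_le_mul_of_nonneg_left ?_ (by positivity)
    split_ifs with h
    · simp
    · rw [Finset.mem_Icc] at hm hn
      have h3 := Six.abs_log_sub_ge hn.1 hm.1 (Ne.symm h)
      have h4 : (0 : ℝ) < m := Nat.cast_pos.2 hm.1
      have h5 := (by positivity : (0 : ℝ) < 1 / (2 * m)).trans_le h3
      refine (int_e a b (abs_pos.1 h5)).trans (le_trans ?_ (Nat.cast_le.2 hm.2))
      rw [div_le_iff₀ (by positivity)] at h3 ⊢
      linarith
  · have h3 := sq_sum_le_card_mul_sum_sq (s := Finset.Icc 1 X) (f := fun m => |B m|)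
    simp only [sq_abs, Nat.card_Icc, Nat.add_sub_cancel] at h3
    simp only [← Finset.sum_mul, ← Finset.mul_sum]
    exact (mul_le_mul_of_nonneg_right ((sq _).symm.trans_le h3) X.cast_nonneg).trans_eq (by ring)

theorem powS : PowS := by
  intro b σ Y k hk hb
  obtain ⟨β, hβ⟩ : ∃ β : ArithmeticFunction ℝ, ∀ n, β n = if n ∈ Finset.Icc 1 Y then b n else 0 :=
    ⟨⟨fun n => if n ∈ Finset.Icc 1 Y then b n else 0, by simp⟩, fun _ => rfl⟩
  have v1 : ∀ m, Y < m → β m = 0 := fun m h => by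
    rw [hβ, if_neg fun k => (Finset.mem_Icc.1 k).2.not_gt h]
  have v2 : ∀ k m, Y ^ k < m → (β ^ k) m = 0 := fun k => by
    induction k with
    | zero => exact fun m h => ArithmeticFunction.one_apply_ne h.ne'
    | succ k ih =>
      intro m h
      rw [pow_succ, ArithmeticFunction.mul_apply]
      refine Finset.sum_eq_zero fun p hp => ?_
      rw [← (Nat.mem_divisorsAntidiagonal.1 hp).1, pow_succ] at h
      rcases Nat.lt_or_ge (Y ^ k) p.1 with h1 | h1
      · rw [ih _ h1, zero_mul]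
      · rw [v1 _ (not_le.1 fun h2 => h.not_ge (Nat.mul_le_mul h1 h2)), mul_zero]
  have b1 : ∀ n, |β n| ≤ (n : ℝ) ^ (-σ) := fun n => by
    rw [hβ]
    split_ifs with h
    · exact hb n (Finset.mem_Icc.1 h).1
    · rw [abs_zero]
      positivity
  have b2 : ∀ k m, |(β ^ k) m| ≤ Six.D k m * (m : ℝ) ^ (-σ) := fun k => by
    induction k with
    | zero =>
      intro m
      rw [pow_zero, D_zero m σ, abs_of_nonneg (mul_nonneg (Six.D_nonneg _ _) (by positivity))]
    | succ k ih =>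
      intro m
      rw [pow_succ, ArithmeticFunction.mul_apply, D_step]
      refine (Finset.abs_sum_le_sum_abs _ _).trans (Finset.sum_le_sum fun p _ => ?_)
      rw [abs_mul]
      exact mul_le_mul (ih _) (b1 _) (abs_nonneg _) ((abs_nonneg _).trans (ih _))
  refine ⟨(β ^ k : ArithmeticFunction ℝ), fun τ => ?_, fun m => sq_le_sq' (abs_le.1 (b2 k m)).1
    (abs_le.1 (b2 k m)).2, fun Z hZ m hm => ?_, fun Z hY hZ m hm => ?_⟩
  · rw [← Finset.sum_congr (f := fun n => (β n : ℂ) * e (-(τ * Real.log n))) rfl fun n hn => by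
      rw [hβ n, if_pos hn]]
    clear hk
    induction k with
    | zero => simp
    | succ k ih =>
      rw [pow_succ, ih, pow_succ, pow_succ]
      refine eval_mul _ _ (fun m n hm hn => ?_) (v2 k) v1
      rw [Nat.cast_mul, Real.log_mul (by positivity) (by positivity), mul_add, neg_add, e_add]
  · obtain ⟨j, rfl⟩ := Nat.exists_eq_add_of_le' hk
    rw [pow_succ, ArithmeticFunction.mul_apply]
    refine Finset.sum_eq_zero fun p hp => mul_eq_zero_of_right _ ?_
    rw [hβ]
    split_ifs with h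
    · exact hZ _ (Finset.mem_Icc.1 h).1
        ((Nat.divisor_le (Nat.snd_mem_divisors_of_mem_antidiagonal hp)).trans hm)
    · rfl
  · refine congrArg (· ^ 2) ?_
    clear hk
    induction k generalizing m with
    | zero => exact D_zero m σ
    | succ k ih =>
      rw [pow_succ, ArithmeticFunction.mul_apply, D_step]
      refine Finset.sum_congr rfl fun p hp => ?_
      have h1 := (Nat.divisor_le (Nat.snd_mem_divisors_of_mem_antidiagonal hp)).trans hm
      have h2 := Nat.pos_of_ne_zero (Nat.right_ne_zero_of_mem_divisorsAntidiagonal hp)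
      rw [ih _ ((Nat.divisor_le (Nat.fst_mem_divisors_of_mem_antidiagonal hp)).trans hm), hβ,
        if_pos (Finset.mem_Icc.2 ⟨h2, h1.trans hY⟩), hZ _ h2 h1]

theorem sumS : SumS := by
  intro k σ hσ
  have k0 : (0 : ℝ) < k + 1 := by positivity
  obtain ⟨C, c0, c1⟩ := D_le (div_pos (sub_pos.2 hσ) k0) k
  have h1 : ((σ - 1 / 2) / (k + 1) * k + -σ) * (2 : ℕ) < -1 := by
    have := div_mul_cancel₀ (σ - 1 / 2) k0.ne'
    have := div_pos (sub_pos.2 hσ) k0
    push_cast
    nlinarith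
  refine ((Real.summable_nat_rpow.2 h1).mul_left (C ^ 2)).of_nonneg_of_le (dd_nonneg k σ)
    fun m => ?_
  rcases Nat.eq_zero_or_pos m with rfl | hm
  · rw [dd, ArithmeticFunction.map_zero, zero_mul, zero_pow two_ne_zero]
    positivity
  · rw [dd, Real.rpow_mul_natCast m.cast_nonneg, Real.rpow_add (Nat.cast_pos.2 hm),
      Real.rpow_mul_natCast m.cast_nonneg, ← mul_pow, ← mul_assoc]
    exact pow_le_pow_left₀ (mul_nonneg (Six.D_nonneg _ _) (by positivity))
      (mul_le_mul_of_nonneg_right (c1 m) (by positivity)) 2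

end Pool.Agent.Lib.MP_80d0cf_nt.Sg
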