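import Pool.Agent.Lib.MP_80d0cf_nt.Sg.Spec

/-! Short pieces and the limit for the truncated sums. -/

open Set MeasureTheory ComplexConjugate Filter Topology

namespace Pool.Agent.Lib.MP_80d0cf_nt.Sg

open Up

namespace SmvAux

lemma norm_pow_two (z : ℂ) (k : ℕ) : ‖z‖ ^ (2 * k) = ‖z ^ k‖ ^ 2 := by
  rw [norm_pow, ← pow_mul, mul_comm]

lemma dd_split (k : ℕ) (σ : ℝ) {m : ℕ} (hm : 1 ≤ m) :
    dd k σ m = dd k (σ / 2 + 1 / 4) m * (m : ℝ) ^ (1 / 2 - σ) := by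
  have h0 : (0 : ℝ) < m := by exact_mod_cast hm
  have h1 : ((m : ℝ) ^ (-σ)) ^ 2 =
      ((m : ℝ) ^ (-(σ / 2 + 1 / 4))) ^ 2 * (m : ℝ) ^ (1 / 2 - σ) := by
    rw [sq, sq, ← Real.rpow_add h0, ← Real.rpow_add h0, ← Real.rpow_add h0]
    congr 1; ring
  rw [dd, dd, mul_pow, mul_pow, h1]; ring

lemma abs_mul_rpow_le {w : ℝ} (hw : |w| ≤ 1) (n : ℕ) (σ : ℝ) :
    |w * (n : ℝ) ^ (-σ)| ≤ (n : ℝ) ^ (-σ) := by
  have h0 : 0 ≤ (n : ℝ) ^ (-σ) := Real.rpow_nonneg (Nat.cast_nonneg n) _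
  rw [abs_mul, abs_of_nonneg h0]
  exact mul_le_of_le_one_left h0 hw

lemma dd_zero (k : ℕ) (σ : ℝ) : dd k σ 0 = 0 := by simp [dd]

lemma abs_th_le (x : ℝ) : |th x| ≤ 1 := by
  rw [th, abs_of_nonneg (st_nonneg _)]; exact st_le_one _

end SmvAux

open SmvAux

theorem smv (hm : Mv2S) (hp : PowS) (hs : SumS) : SmvS := by
  intro k σ hk hσ
  have hs' := hs k (σ / 2 + 1 / 4) (by linarith)
  have hS : 0 ≤ ∑' m, dd k (σ / 2 + 1 / 4) m := tsum_nonneg fun m => dd_nonneg _ _ _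
  refine ⟨2 * (2 : ℝ) ^ (σ - 1 / 2) * ((∑' m, dd k (σ / 2 + 1 / 4) m) + 1), by positivity, ?_⟩
  intro N T a b hN hT hab hba
  have hN0 : (0 : ℝ) < N := by exact_mod_cast hN
  obtain ⟨B, hB1, hB2, hB3, -⟩ := hp (fun n => wN (n / N) * (n : ℝ) ^ (-σ)) σ (2 * N) k hk
    fun n _ => abs_mul_rpow_le (abs_wN_le _) n σ
  have hz : ∀ m ≤ N / 2, B m = 0 := hB3 (N / 2) fun n _ hn => by
    have h1 : (n : ℝ) * 2 ≤ N := by exact_mod_cast (Nat.le_div_iff_mul_le two_pos).1 hn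
    have h2 : (n : ℝ) / N ≤ 1 / 2 := by rw [div_le_iff₀ hN0]; linarith
    simp only [wN_eq_zero (Or.inl h2), zero_mul]
  have hA0 : 0 ≤ (2 : ℝ) ^ (σ - 1 / 2) * (N : ℝ) ^ (1 / 2 - σ) := by positivity
  have hb : ∀ m ∈ Finset.Icc 1 ((2 * N) ^ k), B m ^ 2 ≤
      dd k (σ / 2 + 1 / 4) m * ((2 : ℝ) ^ (σ - 1 / 2) * (N : ℝ) ^ (1 / 2 - σ)) := by
    intro m hm1
    have hm1 := (Finset.mem_Icc.1 hm1).1
    rcases le_or_gt m (N / 2) with h | h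
    · rw [hz m h, zero_pow two_ne_zero]
      exact mul_nonneg (dd_nonneg _ _ _) hA0
    · refine (hB2 m).trans ?_
      rw [dd_split k σ hm1]
      refine mul_le_mul_of_nonneg_left ?_ (dd_nonneg _ _ _)
      have h1 : (N : ℝ) ≤ 2 * m := by exact_mod_cast (by omega : N ≤ 2 * m)
      have h2 : (m : ℝ) ^ (1 / 2 - σ) ≤ ((N : ℝ) / 2) ^ (1 / 2 - σ) :=
        Real.rpow_le_rpow_of_nonpos (by positivity) (by linarith) (by linarith)
      refine h2.trans (le_of_eq ?_)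
      rw [Real.div_rpow hN0.le two_pos.le, div_eq_mul_inv, ← Real.rpow_neg two_pos.le, neg_sub,
        mul_comm]
  have hsum : ∑ m ∈ Finset.Icc 1 ((2 * N) ^ k), B m ^ 2 ≤
      (∑' m, dd k (σ / 2 + 1 / 4) m) * ((2 : ℝ) ^ (σ - 1 / 2) * (N : ℝ) ^ (1 / 2 - σ)) := by
    refine (Finset.sum_le_sum hb).trans ?_
    rw [← Finset.sum_mul]
    exact mul_le_mul_of_nonneg_right (hs'.sum_le_tsum _ fun m _ => dd_nonneg _ _ _) hA0
  have hsum0 : 0 ≤ ∑ m ∈ Finset.Icc 1 ((2 * N) ^ k), B m ^ 2 :=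
    Finset.sum_nonneg fun m _ => sq_nonneg _
  have hI := (abs_le.1 (hm ((2 * N) ^ k) B a b)).2
  have hX : ((((2 * N) ^ k : ℕ) : ℝ)) ^ 2 ≤ T := by
    refine le_of_eq_of_le ?_ hT
    push_cast
    rw [← pow_mul, mul_comm k 2]
  have hT0 : 0 ≤ T := (sq_nonneg _).trans hX
  have he : ∀ τ : ℝ, ‖DS σ N τ‖ ^ (2 * k) =
      ‖∑ m ∈ Finset.Icc 1 ((2 * N) ^ k), (B m : ℂ) * e (-(τ * Real.log m))‖ ^ 2 := fun τ => by
    rw [norm_pow_two, DS, hB1 τ]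
  simp only [he]
  have h1 := mul_le_mul_of_nonneg_right hba hsum0
  have h2 := mul_le_mul_of_nonneg_right hX hsum0
  have h3 := mul_le_mul_of_nonneg_left hsum hT0
  have h4 := mul_nonneg hT0 hA0
  nlinarith

theorem lim (hq : PeqS) (hm : Mv2S) (hp : PowS) (hs : SumS) : LimS := by
  intro k σ J hk hσ
  obtain ⟨B, hB1, hB2, -, hB4⟩ := hp (fun n => th (((n : ℕ) : ℝ) / 2 ^ J) * (n : ℝ) ^ (-σ)) σ
    (2 * 2 ^ J) k hk fun n _ => abs_mul_rpow_le (abs_th_le _) n σ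
  have hz : ∀ m ≤ 2 ^ J, B m ^ 2 = dd k σ m := hB4 (2 ^ J) (by omega) fun n _ hn => by
    have h1 : (n : ℝ) ≤ 2 ^ J := by exact_mod_cast hn
    have h2 : (n : ℝ) / 2 ^ J ≤ 1 := (div_le_one (by positivity)).2 h1
    simp only [th]
    rw [st_of_one_le (by linarith), one_mul]
  have hY : 2 ^ J ≤ (2 * 2 ^ J) ^ k :=
    le_trans (by omega) (Nat.le_self_pow (by omega) (2 * 2 ^ J))
  refine ⟨∑ m ∈ Finset.Icc 1 ((2 * 2 ^ J) ^ k), B m ^ 2, ?_, ?_, ?_⟩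
  · have h1 : ∑ m ∈ Finset.Icc 1 (2 ^ J), dd k σ m = ∑ m ∈ Finset.range (2 ^ J + 1), dd k σ m := by
      refine Finset.sum_subset (fun m hm1 => ?_) fun m hm1 hm2 => ?_
      · exact Finset.mem_range.2 (Nat.lt_succ_of_le (Finset.mem_Icc.1 hm1).2)
      · have h3 := Finset.mem_range.1 hm1
        have h4 : m = 0 := by
          by_contra h5
          exact hm2 (Finset.mem_Icc.2 ⟨Nat.pos_of_ne_zero h5, Nat.le_of_lt_succ h3⟩)
        rw [h4, dd_zero]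
    rw [← h1, ← Finset.sum_congr rfl fun m hm1 => hz m (Finset.mem_Icc.1 hm1).2]
    exact Finset.sum_le_sum_of_subset_of_nonneg (Finset.Icc_subset_Icc_right hY)
      fun m _ _ => sq_nonneg _
  · exact (Finset.sum_le_sum fun m _ => hB2 m).trans
      ((hs k σ hσ).sum_le_tsum _ fun m _ => dd_nonneg _ _ _)
  · have he : ∀ τ : ℝ, ‖PS σ J τ‖ ^ (2 * k) =
        ‖∑ m ∈ Finset.Icc 1 ((2 * 2 ^ J) ^ k), (B m : ℂ) * e (-(τ * Real.log m))‖ ^ 2 :=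
      fun τ => by rw [norm_pow_two, hq σ J τ, hB1 τ]
    simp only [he]
    generalize (2 * 2 ^ J) ^ k = Y
    have h0 : Tendsto (fun X : ℝ => X⁻¹ * ((Y : ℝ) ^ 2 * ∑ m ∈ Finset.Icc 1 Y, B m ^ 2)) atTop
        (𝓝 0) := by
      simpa using tendsto_inv_atTop_zero.mul_const ((Y : ℝ) ^ 2 * ∑ m ∈ Finset.Icc 1 Y, B m ^ 2)
    refine tendsto_sub_nhds_zero_iff.1 (squeeze_zero_norm' ?_ h0)
    filter_upwards [eventually_gt_atTop (0 : ℝ)] with X hX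
    have h1 := mul_le_mul_of_nonneg_left (hm Y B 0 X) (inv_pos.2 hX).le
    refine le_of_eq_of_le ?_ h1
    rw [Real.norm_eq_abs, ← abs_of_pos (inv_pos.2 hX), ← abs_mul, abs_of_pos (inv_pos.2 hX),
      mul_sub, sub_zero, inv_mul_cancel_left₀ hX.ne']

end Pool.Agent.Lib.MP_80d0cf_nt.Sg
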