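import Pool.Agent.Lib.MP_80d0cf_nt.Sg.Spec

/-! The bound for the trace of the cube. -/

open Set MeasureTheory ComplexConjugate Filter Topology

namespace Pool.Agent.Lib.MP_80d0cf_nt.Sg

open Up

namespace T3Aux

lemma swap (N L : ℕ) {p : ℝ} (hp : -5 ≤ p) (q : ℝ) :
    Kk N L p q ≤ Real.exp 5 * Kk N L (-p) (q - p) := by
  have e1 : Kk N L (-p) (q - p) = ∑ l1 ∈ Ls L, ∑ l2 ∈ Ls L, ∑ l3 ∈ Ls L,
      1 / (1 + N * |l3 * Real.exp (-p) + l2 * Real.exp (q - p) + l1|) := by
    rw [Kk, Finset.sum_comm, Finset.sum_congr rfl fun _ _ => Finset.sum_comm, Finset.sum_comm]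
  rw [e1, Kk]
  simp only [Finset.mul_sum]
  refine Finset.sum_le_sum fun l1 _ => Finset.sum_le_sum fun l2 _ =>
    Finset.sum_le_sum fun l3 _ => ?_
  have e2 : l3 * Real.exp (-p) + l2 * Real.exp (q - p) + l1 =
      Real.exp (-p) * (l1 * Real.exp p + l2 * Real.exp q + l3) := by
    rw [Real.exp_sub, Real.exp_neg]
    have := (Real.exp_pos p).ne'
    field_simp
    ring
  have h1 : Real.exp (-p) ≤ Real.exp 5 := Real.exp_le_exp.2 (by linarith)
  have h2 : 1 ≤ Real.exp 5 := Real.one_le_exp (by norm_num)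
  rw [e2, abs_mul, abs_of_pos (Real.exp_pos _), mul_one_div,
    div_le_div_iff₀ (by positivity) (by positivity), one_mul, mul_add, mul_one, mul_left_comm]
  gcongr

lemma cs {a b : ℝ → ℝ} (ha : Continuous a) (hb : Continuous b) {x y : ℝ} (hx : 0 ≤ x) (hy : 0 ≤ y)
    (h1 : ∫ p in (-10 : ℝ)..10, a p ^ 2 ≤ x ^ 2) (h2 : ∫ p in (-10 : ℝ)..10, b p ^ 2 ≤ y ^ 2) :
    ∫ p in (-10 : ℝ)..10, a p * b p ≤ x * y := by
  have key : ∀ t : ℝ, 0 < t → 2 * ∫ p in (-10 : ℝ)..10, a p * b p ≤ t * x ^ 2 + t⁻¹ * y ^ 2 := by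
    intro t ht
    rw [← intervalIntegral.integral_const_mul]
    calc _ ≤ ∫ p in (-10 : ℝ)..10, (t * a p ^ 2 + t⁻¹ * b p ^ 2) := by
          refine intervalIntegral.integral_mono_on (by norm_num)
            (Continuous.intervalIntegrable (by fun_prop) _ _)
            (Continuous.intervalIntegrable (by fun_prop) _ _) fun p _ => ?_
          have : t * a p ^ 2 + t⁻¹ * b p ^ 2 - 2 * (a p * b p) = t⁻¹ * (t * a p - b p) ^ 2 := by
            field_simp; ring
          have : 0 ≤ t⁻¹ * (t * a p - b p) ^ 2 := by positivity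
          linarith
      _ ≤ _ := by
          rw [intervalIntegral.integral_add (Continuous.intervalIntegrable (by fun_prop) _ _)
            (Continuous.intervalIntegrable (by fun_prop) _ _), intervalIntegral.integral_const_mul,
            intervalIntegral.integral_const_mul]
          gcongr
  refine le_of_forall_pos_le_add fun δ hδ => ?_
  obtain ⟨η, hη, h3⟩ : ∃ η : ℝ, 0 < η ∧ η * (x + y + η) ≤ δ :=
    ⟨min 1 (δ / (x + y + 1)), by positivity, by
      refine le_trans (mul_le_mul (min_le_right _ _) (add_le_add le_rfl (min_le_left _ _))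
        (by positivity) (by positivity)) (le_of_eq ?_)
      field_simp⟩
  have h4 := key ((y + η) / (x + η)) (by positivity)
  have h5 : (y + η) / (x + η) * x ^ 2 ≤ (x + η) * (y + η) := by
    rw [div_mul_eq_mul_div, div_le_iff₀ (by positivity), mul_comm (x + η), mul_assoc, ← sq]
    gcongr
    linarith
  have h6 : ((y + η) / (x + η))⁻¹ * y ^ 2 ≤ (x + η) * (y + η) := by
    rw [inv_div, div_mul_eq_mul_div, div_le_iff₀ (by positivity), mul_assoc, ← sq]
    gcongr
    linarith
  nlinarith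

end T3Aux

open T3Aux in
theorem t3 (ht : TriS) (hg : GamS) (ha : AffS) (hr : RhoS) : T3S := by
  intro ε hε
  obtain ⟨Cg, hCg, hg⟩ := hg
  obtain ⟨Ca, hCa, ha⟩ := ha (2 * ε) (by positivity)
  refine ⟨Cg * (1 + Real.exp 5) * (100 * √Ca), by positivity, fun N L W hN hL => ?_⟩
  have hN0 : (0 : ℝ) < N := by exact_mod_cast hN
  rw [ht _ (HK N L) W (continuous_hk N L) (fun s => hk_eq_zero N L) fun u => rfl]
  refine (Complex.re_le_norm _).trans ?_
  have hf : Continuous fun q => ‖rho W q‖ ^ 2 := by fun_prop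
  set G : ℝ → ℝ := fun p => ∫ q in (-10 : ℝ)..10, ‖rho W q‖ ^ 2 * Kk N L p q with hG
  have hGc : Continuous G := intervalIntegral.continuous_parametric_intervalIntegral_of_continuous'
    ((hf.comp continuous_snd).mul (continuous_Kk N L)) _ _
  have hK : ∀ p, Continuous fun q => ‖rho W q‖ ^ 2 * Kk N L p q := fun p =>
    hf.mul (Continuous.uncurry_left (f := Kk N L) p (continuous_Kk N L))
  have h0 : ∀ p q, 0 ≤ ‖rho W q‖ ^ 2 * Kk N L p q := fun p q =>
    mul_nonneg (sq_nonneg _) (Kk_nonneg _ _ _ _)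
  have hG0 : ∀ p, 0 ≤ G p := fun p =>
    intervalIntegral.integral_nonneg (by norm_num) fun q _ => h0 p q
  have hsub : ∀ p a b : ℝ, -10 ≤ a → a ≤ b → b ≤ 10 →
      ∫ q in a..b, ‖rho W q‖ ^ 2 * Kk N L p q ≤ G p := fun p a b h1 h2 h3 =>
    intervalIntegral.integral_mono_interval h1 h2 h3 (Eventually.of_forall (h0 p))
      ((hK p).intervalIntegrable _ _)
  have h1 : ∀ p ∈ Ioc (-5 : ℝ) 5, ‖∫ q in (-5 : ℝ)..5,
      Gam (hk N L) p q * (rho W p * rho W (q - p) * rho W (-q))‖ ≤
      Cg * N ^ 3 * (‖rho W p‖ * G p + Real.exp 5 * (‖rho W (-p)‖ * G (-p))) := by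
    intro p hp
    have c1 := (hK p).intervalIntegrable (μ := volume) (-5) 5
    have c2 := (((hK (-p)).comp (continuous_sub_right p)).intervalIntegrable (μ := volume)
      (-5) 5).const_mul (Real.exp 5)
    simp only [Function.comp] at c2
    refine (intervalIntegral.norm_integral_le_of_norm_le (by norm_num)
      (g := fun q => Cg * N ^ 3 * ‖rho W p‖ * (‖rho W q‖ ^ 2 * Kk N L p q +
        Real.exp 5 * (‖rho W (q - p)‖ ^ 2 * Kk N L (-p) (q - p))))
      (Eventually.of_forall fun q _ => ?_) ((c1.add c2).const_mul _)).trans ?_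
    · rw [norm_mul, norm_mul, norm_mul, norm_rho_neg]
      have a1 := swap N L hp.1.le q
      have a2 := Kk_nonneg N L p q
      calc _ ≤ Cg * N ^ 3 * Kk N L p q * (‖rho W p‖ * (‖rho W q‖ ^ 2 + ‖rho W (q - p)‖ ^ 2)) := by
            rw [mul_assoc ‖rho W p‖]
            gcongr
            · exact hg N L p q
            · nlinarith [sq_nonneg (‖rho W q‖ - ‖rho W (q - p)‖), sq_nonneg ‖rho W q‖,
                sq_nonneg ‖rho W (q - p)‖]
        _ = Cg * N ^ 3 * ‖rho W p‖ * (‖rho W q‖ ^ 2 * Kk N L p q +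
            ‖rho W (q - p)‖ ^ 2 * Kk N L p q) := by ring
        _ ≤ _ := by rw [mul_left_comm (Real.exp 5)]; gcongr
    · rw [intervalIntegral.integral_const_mul, intervalIntegral.integral_add c1 c2,
        intervalIntegral.integral_const_mul, intervalIntegral.integral_comp_sub_right
          (fun q => ‖rho W q‖ ^ 2 * Kk N L (-p) q) p, norm_rho_neg]
      calc _ ≤ Cg * N ^ 3 * ‖rho W p‖ * (G p + Real.exp 5 * G (-p)) := by
            gcongr
            · exact hsub _ _ _ (by norm_num) (by norm_num) (by norm_num)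
            · exact hsub _ _ _ (by linarith [hp.2]) (by linarith) (by linarith [hp.1])
        _ = _ := by ring
  have hc : Continuous fun p => ‖rho W p‖ * G p := (continuous_rho W).norm.mul hGc
  have c1 := hc.intervalIntegrable (μ := volume) (-5) 5
  have c2 := ((hc.comp continuous_neg).intervalIntegrable (μ := volume) (-5) 5).const_mul
    (Real.exp 5)
  simp only [Function.comp] at c2
  refine (intervalIntegral.norm_integral_le_of_norm_le (by norm_num)
    (Eventually.of_forall h1) ((c1.add c2).const_mul _)).trans ?_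
  rw [intervalIntegral.integral_const_mul, intervalIntegral.integral_add c1 c2,
    intervalIntegral.integral_const_mul, intervalIntegral.integral_comp_neg
      (fun p => ‖rho W p‖ * G p), neg_neg]
  have h2 : ∫ p in (-5 : ℝ)..5, ‖rho W p‖ * G p ≤ 5 * √W.card *
      (20 * √Ca * ((N : ℝ) ^ ε / N) * ((L : ℝ) ^ 2 * W.card + L * √(En W 1))) := by
    refine (intervalIntegral.integral_mono_interval (c := -10) (d := 10) (by norm_num) (by norm_num)
      (by norm_num) (Eventually.of_forall fun p => mul_nonneg (norm_nonneg _) (hG0 p))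
      (hc.intervalIntegrable _ _)).trans (cs (continuous_rho W).norm hGc (by positivity)
      (by positivity) ?_ ?_)
    · rw [(hr W).1, mul_pow, Real.sq_sqrt (Nat.cast_nonneg _)]
      nlinarith [Nat.cast_nonneg (α := ℝ) W.card]
    · refine (ha N L _ hN hL hf fun q => sq_nonneg _).trans ?_
      have e1 : (N : ℝ) ^ (2 * ε) = ((N : ℝ) ^ ε) ^ 2 := by
        rw [← Real.rpow_natCast, ← Real.rpow_mul hN0.le, mul_comm]; norm_num
      rw [(hr W).1, e1]
      calc _ ≤ Ca * ((N : ℝ) ^ ε) ^ 2 / N ^ 2 * (400 * (((L : ℝ) ^ 2 * W.card) ^ 2 +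
            2 * ((L : ℝ) ^ 2 * W.card) * (L * √(En W 1)) + (L : ℝ) ^ 2 * En W 1)) := by
            gcongr
            have a1 := mul_le_mul_of_nonneg_left (hr W).2 (sq_nonneg (L : ℝ))
            have a2 : 0 ≤ ((L : ℝ) ^ 2 * W.card) * (L * √(En W 1)) := by positivity
            have a3 : 0 ≤ (L : ℝ) ^ 2 * En W 1 := by positivity
            linarith
        _ = _ := by
            simp only [mul_pow, add_sq, Real.sq_sqrt hCa.le, Real.sq_sqrt (Nat.cast_nonneg _)]
            ring
  calc _ = Cg * N ^ 3 * (1 + Real.exp 5) * ∫ p in (-5 : ℝ)..5, ‖rho W p‖ * G p := by ring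
    _ ≤ _ := mul_le_mul_of_nonneg_left h2 (by positivity)
    _ = _ := by
        rw [Real.rpow_add hN0, Real.rpow_two]
        field_simp
        ring

end Pool.Agent.Lib.MP_80d0cf_nt.Sg
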