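import Pool.Agent.Lib.MP_80d0cf_nt.Sg.Spec
import Pool.Agent.Lib.MP_80d0cf_nt.Up.ZetD

/-! Transfer to the line `σ`. -/

open Set MeasureTheory ComplexConjugate Filter Topology

namespace Pool.Agent.Lib.MP_80d0cf_nt.Sg

open Up

namespace TrfAux

open scoped SchwartzMap FourierTransform ContDiff Convolution

lemma exists_G (β : ℝ) : ∃ G : ℝ → ℂ, Integrable G ∧ Integrable (fun s : ℝ => s ^ 2 * ‖G s‖) ∧
    ∀ y : ℝ, |y| ≤ 1 → ∫ s : ℝ, G s * e (s * y) = Real.exp (-(β * y)) := by
  let χ : ContDiffBump (0 : ℝ) := ⟨1, 2, one_pos, one_lt_two⟩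
  have hf : ContDiff ℝ ∞ fun y : ℝ => ((χ y * Real.exp (-(β * y)) : ℝ) : ℂ) :=
    Complex.ofRealCLM.contDiff.comp (χ.contDiff.mul (by fun_prop))
  have hc : HasCompactSupport fun y : ℝ => ((χ y * Real.exp (-(β * y)) : ℝ) : ℂ) :=
    (χ.hasCompactSupport.mul_right).comp_left (g := Complex.ofReal) Complex.ofReal_zero
  set φ := hc.toSchwartzMap hf
  refine ⟨(𝓕 φ : 𝓢(ℝ, ℂ)), (𝓕 φ : 𝓢(ℝ, ℂ)).integrable, ?_, fun y hy => ?_⟩
  · simpa using (𝓕 φ : 𝓢(ℝ, ℂ)).integrable_pow_mul volume 2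
  · have h1 : (𝓕⁻ (𝓕 φ) : 𝓢(ℝ, ℂ)) y = ((χ y * Real.exp (-(β * y)) : ℝ) : ℂ) := by
      rw [FourierTransform.fourierInv_fourier_eq]; rfl
    rw [χ.one_of_mem_closedBall (by simpa using hy), one_mul, SchwartzMap.fourierInv_coe,
      Real.fourierInv_eq'] at h1
    rw [← h1]
    congr 1 with s
    rw [smul_eq_mul, mul_comm, e]
    congr 2
    simp only [RCLike.inner_apply, conj_trivial]
    push_cast
    ring

lemma DS_eq {σ : ℝ} {G : ℝ → ℂ} (hG : Integrable G)
    (h : ∀ y : ℝ, |y| ≤ 1 → ∫ s : ℝ, G s * e (s * y) = Real.exp (-((σ - 1 / 2) * y)))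
    {N : ℕ} (hN : 1 ≤ N) (τ : ℝ) : DS σ N τ = (((N : ℝ) ^ (1 / 2 - σ) : ℝ) : ℂ) *
      ∫ s : ℝ, G s * (e (-(s * Real.log N)) * DN N (τ - s)) := by
  have hN' : (0 : ℝ) < N := by exact_mod_cast hN
  have h1 : ∀ s : ℝ, G s * (e (-(s * Real.log N)) * DN N (τ - s))
      = ∑ n ∈ Finset.Icc 1 (2 * N), (((wN (n / N) / √n : ℝ) : ℂ) * e (-(τ * Real.log n))) *
        (G s * e (s * (Real.log n - Real.log N))) := by
    intro s
    rw [DN, Finset.mul_sum, Finset.mul_sum]
    refine Finset.sum_congr rfl fun n _ => ?_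
    have : e (-(s * Real.log N)) * e (-((τ - s) * Real.log n))
        = e (-(τ * Real.log n)) * e (s * (Real.log n - Real.log N)) := by
      rw [← e_add, ← e_add]; congr 1; ring
    linear_combination G s * ((wN (n / N) / √n : ℝ) : ℂ) * this
  simp_rw [h1]
  rw [integral_finsetSum _ fun n _ => (hG.mul_bdd (c := 1) (Continuous.aestronglyMeasurable
    (by fun_prop)) (.of_forall fun s => (norm_e _).le)).const_mul _, DS, Finset.mul_sum]
  refine Finset.sum_congr rfl fun n hn => ?_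
  have hn' : (0 : ℝ) < n := by exact_mod_cast (Finset.mem_Icc.1 hn).1
  rw [integral_const_mul]
  by_cases h0 : (n : ℝ) / N ≤ 1 / 2 ∨ 2 ≤ (n : ℝ) / N
  · simp [wN_eq_zero h0]
  push Not at h0
  have h2 : |Real.log n - Real.log N| ≤ 1 := by
    rw [← Real.log_div hn'.ne' hN'.ne', abs_le]
    have h3 := Real.log_two_lt_d9
    have h4 := Real.log_le_log (by norm_num) h0.1.le
    have h5 := Real.log_le_log (by positivity) h0.2.le
    rw [one_div, Real.log_inv] at h4
    constructor <;> linarith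
  have h3 : (n : ℝ) ^ (-σ) = (N : ℝ) ^ (1 / 2 - σ) *
      (Real.exp (-((σ - 1 / 2) * (Real.log n - Real.log N))) / √n) := by
    rw [Real.sqrt_eq_rpow, Real.rpow_def_of_pos hn', Real.rpow_def_of_pos hn',
      Real.rpow_def_of_pos hN', ← Real.exp_sub, ← Real.exp_add]
    congr 1
    ring
  rw [h _ h2, h3]
  push_cast
  ring

lemma le_add_pow {x l : ℝ} (hx : 0 ≤ x) (hl : 0 < l) (A : ℕ) : x ≤ l + x ^ (A + 1) / l ^ A := by
  rcases le_total x l with h | h
  · exact h.trans (le_add_of_nonneg_right (by positivity))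
  · refine le_add_of_nonneg_of_le hl.le ?_
    rw [le_div_iff₀ (by positivity), pow_succ']
    gcongr

lemma pow_le_of {x a K F : ℝ} {A : ℕ} (hx : 0 ≤ x) (ha : 0 ≤ a) (hK : 0 ≤ K) (hF : 0 ≤ F)
    (h : ∀ l, 0 < l → x ≤ a + l * K + F / l ^ A) :
    x ^ (A + 1) ≤ (4 * a) ^ (A + 1) + 4 * (2 * K + 2) ^ A * F := by
  rcases le_or_gt x (4 * a) with h1 | h1
  · exact le_add_of_le_of_nonneg (by gcongr) (by positivity)
  have h0 : 0 < x := by linarith
  have h2 := h (x / (2 * K + 2)) (by positivity)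
  have h3 : x / (2 * K + 2) * K ≤ x / 2 := by
    rw [div_mul_eq_mul_div, div_le_div_iff₀ (by positivity) two_pos]
    nlinarith
  have h4 : x / 4 ≤ F / (x / (2 * K + 2)) ^ A := by linarith
  rw [div_pow, div_div_eq_mul_div, div_le_div_iff₀ four_pos (by positivity)] at h4
  refine le_add_of_nonneg_of_le (by positivity) ?_
  rw [pow_succ']
  linarith

end TrfAux

open TrfAux in
theorem trf : TrfS := by
  intro σ A hA
  obtain ⟨A, rfl⟩ : ∃ B, A = B + 1 := ⟨A - 1, by omega⟩
  obtain ⟨G, hG, hG2, h⟩ := exists_G (σ - 1 / 2)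
  set K := ∫ s, ‖G s‖ with hK
  set K2 := ∫ s : ℝ, s ^ 2 * ‖G s‖ with hK2
  have K0 : 0 ≤ K := integral_nonneg fun _ => norm_nonneg _
  have K20 : 0 ≤ K2 := integral_nonneg fun _ => by positivity
  refine ⟨(4 * (64 * K2)) ^ (A + 1) + 4 * (2 * K + 2) ^ A * K + 1, by positivity,
    fun T N hT hN hNT => ?_⟩
  have hN' : (0 : ℝ) < N := by exact_mod_cast hN
  have cD : Continuous (DN N) := by unfold DN; fun_prop
  set E : ℝ → ℝ := (Icc (2 * T) (3 * T)).indicator fun t => ‖DN N t‖ ^ (A + 1) with hE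
  have E0 : ∀ t, 0 ≤ E t := fun t => indicator_nonneg (fun _ _ => by positivity) t
  have iE : Integrable E := (integrable_indicator_iff measurableSet_Icc).2
    (Continuous.integrableOn_Icc (by fun_prop))
  have mE : Measurable E := (Continuous.measurable (by fun_prop)).indicator measurableSet_Icc
  have bE : ∀ t, ‖E t‖ ≤ (2 * N) ^ (A + 1) := fun t => by
    rw [Real.norm_of_nonneg (E0 t)]
    exact indicator_le' (fun t _ => pow_le_pow_left₀ (norm_nonneg _) (FinAux.norm_DN_le N t) _)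
      (fun _ _ => by positivity) t
  set F : ℝ → ℝ := fun τ => ∫ s, ‖G s‖ * E (τ - s) with hF
  have F0 : ∀ τ, 0 ≤ F τ := fun τ => integral_nonneg fun s => mul_nonneg (norm_nonneg _) (E0 _)
  have iF : Integrable F := hG.norm.integrable_convolution (ContinuousLinearMap.mul ℝ ℝ) iE
  have eF : ∫ τ, F τ = K * ∫ τ in (2 * T)..(3 * T), ‖DN N τ‖ ^ (A + 1) := by
    rw [intervalIntegral.integral_of_le (by linarith), ← integral_Icc_eq_integral_Ioc,
      ← integral_indicator measurableSet_Icc]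
    exact integral_convolution (ContinuousLinearMap.mul ℝ ℝ) hG.norm iE
  have pt : ∀ τ ∈ Icc (9 / 4 * T) (11 / 4 * T), ‖DS σ N τ‖ ^ (A + 1) ≤
      (N : ℝ) ^ ((1 / 2 - σ) * (A + 1 : ℕ)) *
        ((4 * (64 * K2)) ^ (A + 1) + 4 * (2 * K + 2) ^ A * F τ) := fun τ hτ => by
    rw [DS_eq hG h hN, norm_mul, mul_pow, Complex.norm_real, Real.norm_of_nonneg (by positivity),
      Real.rpow_mul_natCast hN'.le]
    refine mul_le_mul_of_nonneg_left (pow_le_of (norm_nonneg _) (by positivity) K0 (F0 τ)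
      fun l hl => ?_) (by positivity)
    have i3 : Integrable fun s => ‖G s‖ * E (τ - s) :=
      hG.norm.mul_bdd (mE.comp (by fun_prop)).aestronglyMeasurable (.of_forall fun s => bE _)
    have i1 := hG2.const_mul 64
    have i2 := hG.norm.const_mul l
    refine (norm_integral_le_of_norm_le ((i1.add i2).add (i3.div_const (l ^ A)))
      (.of_forall fun s => ?_)).trans (le_of_eq ?_)
    · rw [norm_mul, norm_mul, norm_e, one_mul]
      have : ‖DN N (τ - s)‖ ≤ 64 * s ^ 2 + l + E (τ - s) / l ^ A := by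
        by_cases hs : τ - s ∈ Icc (2 * T) (3 * T)
        · rw [hE, indicator_of_mem hs, add_assoc]
          exact le_add_of_nonneg_of_le (by positivity) (le_add_pow (norm_nonneg _) hl A)
        · have h1 : (T / 4) ^ 2 ≤ s ^ 2 := by
            rw [mem_Icc, not_and_or, not_le, not_le] at hs
            refine sq_le_sq.2 ?_
            rw [abs_of_pos (by linarith), le_abs]
            rcases hs with hs | hs
            · left; linarith [hτ.1]
            · right; linarith [hτ.2]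
          have h2 := FinAux.norm_DN_le N (τ - s)
          have h3 : 0 ≤ E (τ - s) / l ^ A := div_nonneg (E0 _) (by positivity)
          linarith
      refine (mul_le_mul_of_nonneg_left this (norm_nonneg _)).trans (le_of_eq ?_)
      simp only [Pi.add_apply]
      ring
    · rw [integral_add' (i1.add i2) (i3.div_const _), integral_add' i1 i2, integral_const_mul,
        integral_const_mul, integral_div]
  have hab : 9 / 4 * T ≤ 11 / 4 * T := by linarith
  refine (intervalIntegral.integral_mono_on hab (Continuous.intervalIntegrable (by fun_prop) _ _)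
    ((intervalIntegrable_const.add (iF.intervalIntegrable.const_mul _)).const_mul _) pt).trans ?_
  rw [intervalIntegral.integral_const_mul, intervalIntegral.integral_add intervalIntegrable_const
    (iF.intervalIntegrable.const_mul _), intervalIntegral.integral_const,
    intervalIntegral.integral_const_mul, smul_eq_mul,
    mul_comm _ ((N : ℝ) ^ ((1 / 2 - σ) * (A + 1 : ℕ))), mul_assoc ((N : ℝ) ^ (_ : ℝ))]
  refine mul_le_mul_of_nonneg_left ?_ (Real.rpow_nonneg hN'.le _)
  have h1 : ∫ τ in (9 / 4 * T)..(11 / 4 * T), F τ ≤ ∫ τ, F τ := by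
    rw [intervalIntegral.integral_of_le hab]
    exact setIntegral_le_integral iF (.of_forall F0)
  rw [eF] at h1
  set I := ∫ τ in (2 * T)..(3 * T), ‖DN N τ‖ ^ (A + 1)
  have I0 : 0 ≤ I := intervalIntegral.integral_nonneg (by linarith) fun _ _ => by positivity
  have h2 := mul_le_mul_of_nonneg_left h1 (show 0 ≤ 4 * (2 * K + 2) ^ A by positivity)
  have h3 : 0 ≤ (4 * (64 * K2)) ^ (A + 1) := by positivity
  have h4 : 0 ≤ 4 * (2 * K + 2) ^ A * K := by positivity
  have h5 := mul_nonneg h3 I0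
  have h6 := mul_nonneg h4 (show 0 ≤ T by linarith)
  have h7 := mul_nonneg h3 (show 0 ≤ T by linarith)
  linarith

end Pool.Agent.Lib.MP_80d0cf_nt.Sg
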