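import Pool.Agent.Lib.MP_80d0cf_nt.Sg.Spec

/-! The trace of the cube as a double integral. -/

open Set MeasureTheory ComplexConjugate Filter Topology

namespace Pool.Agent.Lib.MP_80d0cf_nt.Sg

open Up

namespace TriAux

variable {h : ℝ → ℂ}

lemma zero1 (h0 : ∀ s, s ≤ -3 ∨ 2 ≤ s → h s = 0) {r p : ℝ} (hp : p ≤ -5 ∨ 5 ≤ p) :
    h r * h (r + p) = 0 := by
  by_cases hr : r ≤ -3 ∨ 2 ≤ r
  · rw [h0 r hr, zero_mul]
  · rw [not_or, not_le, not_le] at hr
    rw [h0 (r + p) (hp.imp (fun a => by linarith) fun a => by linarith), mul_zero]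

lemma intg (hc : Continuous h) (h0 : ∀ s, s ≤ -3 ∨ 2 ≤ s → h s = 0) {g : ℝ × ℝ → ℂ}
    (hg : Continuous g) : Integrable (fun z : ℝ × (ℝ × ℝ) =>
      h z.1 * h (z.1 + z.2.1) * h (z.1 + z.2.2) * g z.2) (volume.prod (volume.prod volume)) := by
  refine Continuous.integrable_of_hasCompactSupport (by fun_prop) ?_
  refine HasCompactSupport.intro (K := Icc (-3) 2 ×ˢ (Icc (-5) 5 ×ˢ Icc (-5) 5))
    (isCompact_Icc.prod (isCompact_Icc.prod isCompact_Icc)) fun z hz => ?_
  simp only [mem_prod, mem_Icc, not_and_or, not_le] at hz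
  rcases hz with a | a | a
  · rw [h0 z.1 (a.imp le_of_lt le_of_lt)]; simp
  · rw [zero1 h0 (a.imp le_of_lt le_of_lt)]; simp
  · rw [mul_right_comm (h z.1), zero1 h0 (a.imp le_of_lt le_of_lt)]; simp

lemma one (hc : Continuous h) (h0 : ∀ s, s ≤ -3 ∨ 2 ≤ s → h s = 0) (x y : ℝ) :
    (∫ s, h s * e (x * s)) * (∫ s, h s * e (y * s)) * (∫ s, h s * e ((-x - y) * s)) =
      ∫ z : ℝ × ℝ, Gam h z.1 z.2 * e (x * z.1 + y * z.2) ∂(volume.prod volume) := by
  have h1 := intg hc h0 (g := fun z => e (x * z.1 + y * z.2)) (by fun_prop)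
  rw [← integral_const_mul]
  have h2 : ∀ z : ℝ × ℝ, Gam h z.1 z.2 * e (x * z.1 + y * z.2) =
      ∫ r, h r * h (r + z.1) * h (r + z.2) * e (x * z.1 + y * z.2) := fun z => by
    rw [Gam, integral_mul_const]
  simp only [h2]
  rw [← integral_integral_swap (f := fun (r : ℝ) (z : ℝ × ℝ) =>
    h r * h (r + z.1) * h (r + z.2) * e (x * z.1 + y * z.2)) h1]
  refine integral_congr_ae (Eventually.of_forall fun r => ?_)
  simp only
  rw [← integral_add_left_eq_self (fun s => h s * e (x * s)) r,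
    ← integral_add_left_eq_self (fun s => h s * e (y * s)) r, ← integral_prod_mul,
    ← integral_mul_const]
  refine integral_congr_ae (Eventually.of_forall fun z => ?_)
  have : e (x * (r + z.1)) * e (y * (r + z.2)) * e ((-x - y) * r) = e (x * z.1 + y * z.2) := by
    rw [← e_add, ← e_add]; congr 1; ring
  simp only
  rw [← this]; ring

lemma intG (hc : Continuous h) (h0 : ∀ s, s ≤ -3 ∨ 2 ≤ s → h s = 0) {g : ℝ × ℝ → ℂ}
    (hg : Continuous g) :
    Integrable (fun z : ℝ × ℝ => Gam h z.1 z.2 * g z) (volume.prod volume) := by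
  have := (intg hc h0 hg).integral_prod_right
  simpa only [Gam, integral_mul_const] using this

lemma box {f : ℝ → ℂ} (hf : ∀ x, x ≤ -5 ∨ 5 ≤ x → f x = 0) :
    ∫ x, f x = ∫ x in (-5 : ℝ)..5, f x := by
  refine (intervalIntegral.integral_eq_integral_of_support_subset fun x hx => ?_).symm
  by_contra hx'
  simp only [mem_Ioc, not_and_or, not_lt, not_le] at hx'
  exact hx (hf x (hx'.imp id le_of_lt))

lemma amp (p q : ℝ) : Amp (-3) 2 125 30375
    (fun r => ((Oe r * Oe (r + p) * Oe (r + q) : ℝ) : ℂ))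
    (fun r => (((Oe1 r * Oe (r + p) + Oe r * Oe1 (r + p)) * Oe (r + q) +
      Oe r * Oe (r + p) * Oe1 (r + q) : ℝ) : ℂ)) := by
  refine ⟨fun x _ => ?_, fun x _ => ?_, fun x _ => ?_⟩
  · exact (((hasDerivAt_Oe x).mul ((hasDerivAt_Oe (x + p)).comp_add_const x p)).mul
      ((hasDerivAt_Oe (x + q)).comp_add_const x q)).ofReal_comp
  · rw [Complex.norm_real, Real.norm_eq_abs, abs_mul, abs_mul]
    calc _ ≤ (5 * 5 * 5 : ℝ) := by gcongr <;> exact abs_Oe_le _
      _ = _ := by norm_num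
  · rw [Complex.norm_real, Real.norm_eq_abs]
    refine (abs_add_le _ _).trans ?_
    rw [abs_mul, abs_mul, abs_mul]
    calc _ ≤ (|Oe1 x| * |Oe (x + p)| + |Oe x| * |Oe1 (x + p)|) * |Oe (x + q)| +
          |Oe x| * |Oe (x + p)| * |Oe1 (x + q)| := by
          gcongr
          exact (abs_add_le _ _).trans (by rw [abs_mul, abs_mul])
      _ ≤ (405 * 5 + 5 * 405) * 5 + 5 * 5 * 405 := by
          gcongr <;> first | exact abs_Oe_le _ | exact abs_Oe1_le _
      _ = _ := by norm_num

lemma osc (hf : Fd1S) (p q ξ : ℝ) :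
    ‖∫ r in (-3 : ℝ)..2, ((Oe r * Oe (r + p) * Oe (r + q) : ℝ) : ℂ) * e (ξ * Real.exp r)‖ ≤
      (625 + 200000 * Real.exp 3) * (1 / (1 + |ξ|)) := by
  have h1 : ‖∫ r in (-3 : ℝ)..2, ((Oe r * Oe (r + p) * Oe (r + q) : ℝ) : ℂ) *
      e (ξ * Real.exp r)‖ ≤ 625 := by
    refine (intervalIntegral.norm_integral_le_of_norm_le_const (C := 125) fun x hx => ?_).trans
      (by norm_num)
    rw [norm_mul, norm_e, mul_one]
    rw [uIoc_of_le (by norm_num)] at hx
    exact (amp p q).b0 x ⟨hx.1.le, hx.2⟩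
  rw [mul_one_div, le_div_iff₀ (by positivity), mul_add, mul_one]
  refine add_le_add h1 ?_
  rcases eq_or_ne ξ 0 with rfl | h0
  · simp only [abs_zero, mul_zero]; positivity
  have hξ : 0 < |ξ| := abs_pos.2 h0
  have h2 := hf (-3) 2 _ _ (|ξ| * Real.exp (-3)) _ _ (fun r => ξ * Real.exp r)
    (fun r => ξ * Real.exp r) (fun r => ξ * Real.exp r) (by norm_num) (amp p q)
    ⟨fun x _ => (Real.hasDerivAt_exp x).const_mul ξ, fun x _ => (Real.hasDerivAt_exp x).const_mul ξ⟩
    (by positivity)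
    (fun x hx => by
      rw [abs_mul, abs_of_pos (Real.exp_pos x)]
      gcongr
      exact hx.1)
    ((le_total 0 ξ).imp (fun a x _ => by positivity)
      fun a x _ => mul_nonpos_of_nonpos_of_nonneg a (Real.exp_pos x).le)
  rw [le_div_iff₀ (by positivity), ← mul_assoc, Real.exp_neg, ← div_eq_mul_inv,
    div_le_iff₀ (Real.exp_pos 3)] at h2
  exact h2.trans (mul_le_mul_of_nonneg_right (by norm_num) (Real.exp_pos 3).le)

end TriAux

open TriAux in
theorem tri : TriS := by
  intro h H W hc h0 hH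
  have h1 : ∀ u v w : ℤ, H ((u : ℝ) - v) * H ((v : ℝ) - w) * H ((w : ℝ) - u) =
      ∫ z : ℝ × ℝ, Gam h z.1 z.2 * (e (u * z.1) * e (v * (z.2 - z.1)) * e (w * -z.2))
        ∂(volume.prod volume) := by
    intro u v w
    rw [hH, hH, hH, show (w : ℝ) - u = -((u : ℝ) - v) - ((v : ℝ) - w) by ring, one hc h0]
    congr 1 with z
    rw [← e_add, ← e_add]
    congr 2
    ring
  have h2 : ∀ u v w : ℤ, Integrable (fun z : ℝ × ℝ => Gam h z.1 z.2 *
      (e (u * z.1) * e (v * (z.2 - z.1)) * e (w * -z.2))) (volume.prod volume) :=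
    fun u v w => intG hc h0 (by fun_prop)
  have h3 := intG hc h0 (g := fun z => rho W z.1 * rho W (z.2 - z.1) * rho W (-z.2)) (by fun_prop)
  calc _ = ∫ z : ℝ × ℝ, Gam h z.1 z.2 * (rho W z.1 * rho W (z.2 - z.1) * rho W (-z.2))
        ∂(volume.prod volume) := by
        simp only [h1]
        simp_rw [← integral_finsetSum _ fun w _ => h2 _ _ w]
        simp_rw [← integral_finsetSum _ fun v _ => integrable_finsetSum _ fun w _ => h2 _ v w]
        rw [← integral_finsetSum _ fun u _ => integrable_finsetSum _ fun v _ =>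
          integrable_finsetSum _ fun w _ => h2 u v w]
        congr 1 with z
        simp only [rho, ← Finset.mul_sum, ← Finset.sum_mul]
    _ = _ := by
        rw [integral_prod _ h3, box fun p hp => ?_]
        · congr 1 with p
          refine box fun q hq => ?_
          simp only [Gam, mul_right_comm (h _) (h (_ + p)), zero1 h0 hq, zero_mul, integral_zero]
        · simp only [Gam, zero1 h0 hp, zero_mul, integral_zero]

open TriAux in
theorem gam (hf : Fd1S) : GamS := by
  refine ⟨625 + 200000 * Real.exp 3, by positivity, fun N L p q => ?_⟩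
  have h1 : Gam (hk N L) p q = ∫ r in (-3 : ℝ)..2, hk N L r * hk N L (r + p) * hk N L (r + q) := by
    refine (intervalIntegral.integral_eq_integral_of_support_subset fun x hx => ?_).symm
    by_contra hx'
    simp only [mem_Ioc, not_and_or, not_lt, not_le] at hx'
    exact hx (by simp only [hk_eq_zero N L (hx'.imp id le_of_lt), zero_mul])
  have h2 : ∀ r, hk N L r * hk N L (r + p) * hk N L (r + q) =
      ∑ l1 ∈ Ls L, ∑ l2 ∈ Ls L, ∑ l3 ∈ Ls L, (N : ℂ) ^ 3 *
        (((Oe r * Oe (r + p) * Oe (r + q) : ℝ) : ℂ) *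
          e (N * (l1 * Real.exp p + l2 * Real.exp q + l3) * Real.exp r)) := by
    intro r
    have h3 : ∀ l1 l2 l3 : ℤ, e (N * (l1 * Real.exp p + l2 * Real.exp q + l3) * Real.exp r) =
        e (l1 * N * Real.exp (r + p)) * (e (l2 * N * Real.exp (r + q)) * e (l3 * N * Real.exp r)) := by
      intro l1 l2 l3
      rw [← e_add, ← e_add, Real.exp_add, Real.exp_add]
      congr 1
      ring
    simp only [h3, hk, ← Finset.mul_sum, ← Finset.sum_mul]
    push_cast
    ring
  have hi : ∀ l1 l2 l3 : ℤ, Continuous fun r => (N : ℂ) ^ 3 *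
      (((Oe r * Oe (r + p) * Oe (r + q) : ℝ) : ℂ) *
        e (N * (l1 * Real.exp p + l2 * Real.exp q + l3) * Real.exp r)) := fun _ _ _ => by fun_prop
  rw [h1]
  simp only [h2]
  rw [intervalIntegral.integral_finsetSum fun l1 _ => (continuous_finsetSum _ fun l2 _ =>
    continuous_finsetSum _ fun l3 _ => hi l1 l2 l3).intervalIntegrable _ _, Kk, Finset.mul_sum]
  refine (norm_sum_le _ _).trans (Finset.sum_le_sum fun l1 _ => ?_)
  rw [intervalIntegral.integral_finsetSum fun l2 _ =>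
    (continuous_finsetSum _ fun l3 _ => hi l1 l2 l3).intervalIntegrable _ _, Finset.mul_sum]
  refine (norm_sum_le _ _).trans (Finset.sum_le_sum fun l2 _ => ?_)
  rw [intervalIntegral.integral_finsetSum fun l3 _ => (hi l1 l2 l3).intervalIntegrable _ _,
    Finset.mul_sum]
  refine (norm_sum_le _ _).trans (Finset.sum_le_sum fun l3 _ => ?_)
  rw [intervalIntegral.integral_const_mul, norm_mul, norm_pow, Complex.norm_natCast,
    mul_comm _ ((N : ℝ) ^ 3), mul_assoc]
  refine mul_le_mul_of_nonneg_left ((osc hf p q _).trans (le_of_eq ?_)) (by positivity)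
  rw [abs_mul, Nat.abs_cast]

end Pool.Agent.Lib.MP_80d0cf_nt.Sg
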