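import Pool.Agent.Lib.MP_80d0cf_nt.Sg.Spec
import Pool.Agent.Lib.MP_80d0cf_nt.Up.XLv

/-! The uniform bound for the pieces. -/

open Set MeasureTheory ComplexConjugate Filter Topology

namespace Pool.Agent.Lib.MP_80d0cf_nt.Sg

open Up

namespace UniAux

lemma int_le {F : ℝ → ℂ} {T C : ℝ} (A : ℕ) (hT : 0 ≤ T)
    (h : ∀ τ ∈ Icc (2 * T) (3 * T), ‖F τ‖ ≤ C) :
    ∫ τ in (2 * T)..(3 * T), ‖F τ‖ ^ A ≤ C ^ A * T := by
  have hab : 2 * T ≤ 3 * T := by linarith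
  have h1 := intervalIntegral.norm_integral_le_of_norm_le_const (a := 2 * T) (b := 3 * T)
    (C := C ^ A) (f := fun τ => ‖F τ‖ ^ A) fun x hx => by
      rw [uIoc_of_le hab] at hx
      rw [Real.norm_of_nonneg (by positivity)]
      exact pow_le_pow_left₀ (norm_nonneg _) (h x (Ioc_subset_Icc_self hx)) A
  rw [show 3 * T - 2 * T = T by ring, abs_of_nonneg hT] at h1
  exact (Real.le_norm_self _).trans h1

lemma pow_eps {T N ε : ℝ} {A : ℕ} (hT : 0 < T) (hN : 0 < N) (hε : 0 ≤ ε)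
    (h : T ≤ (2 * N) ^ A) : T ^ (1 + ε) ≤ T * (2 ^ (A * ε) * N ^ (A * ε)) := by
  rw [Real.rpow_add hT, Real.rpow_one, ← Real.mul_rpow two_pos.le hN.le,
    Real.rpow_natCast_mul (by positivity)]
  exact mul_le_mul_of_nonneg_left (Real.rpow_le_rpow hT.le h hε) hT.le

end UniAux

open UniAux in
theorem uni (hp : PsS) (hf : Fd1S) (hm : MomS) (ht : TrfS) (hs : SmvS) : UniS := by
  obtain ⟨δ, hδ, hδ1, hm⟩ := hm
  obtain ⟨C4, hC4, hD⟩ := ZetAAux.DN_le hp hf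
  refine ⟨δ / 12, by linarith, by linarith, fun k hk σ hσ => ?_⟩
  have hk3 : (3 : ℝ) ≤ k := by rcases hk with rfl | rfl <;> norm_num
  have hk1 : 1 ≤ k := by rcases hk with rfl | rfl <;> norm_num
  have hσ2 : 1 / 2 < σ := by rcases hk with rfl | rfl <;> push_cast at hσ <;> linarith
  obtain ⟨κ, hκ⟩ : ∃ κ : ℝ, κ = 2 * k * (σ - 1 / 2) - (1 - δ) * (k - 2) / 2 := ⟨_, rfl⟩
  have hκ0 : 0 < κ := by rcases hk with rfl | rfl <;> push_cast at hσ hκ <;> linarith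
  obtain ⟨C1, hC1, hs⟩ := hs k σ hk1 hσ2
  obtain ⟨C2, hC2, ht⟩ := ht σ (2 * k) (by omega)
  obtain ⟨C3, T0, hC3, hm⟩ := hm k hk (κ / (4 * k)) (by positivity)
  obtain ⟨c, hc0, hc1, hc2⟩ : ∃ c : ℝ, 0 < c ∧ c ≤ κ / 2 ∧ c ≤ σ - 1 / 2 :=
    ⟨min (κ / 2) (σ - 1 / 2), lt_min (by linarith) (by linarith), min_le_left _ _,
      min_le_right _ _⟩
  have p1 : 0 < C2 * (C3 * 2 ^ (κ / 2)) := by positivity
  have p2 : 0 < C2 * C4 ^ (2 * k) := by positivity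
  refine ⟨c, C1 + C2 + C2 * (C3 * 2 ^ (κ / 2)) + C2 * C4 ^ (2 * k), max T0 1, hc0, by linarith,
    fun T N hT hN hNT => ?_⟩
  have hT0 : T0 ≤ T := (le_max_left _ _).trans hT
  have hT1 : 1 ≤ T := (le_max_right _ _).trans hT
  have hTp : 0 < T := by linarith
  have hN1 : (1 : ℝ) ≤ N := by exact_mod_cast hN
  have hNp : (0 : ℝ) < N := by linarith
  have mono : ∀ {x : ℝ}, x ≤ -c → (N : ℝ) ^ x ≤ (N : ℝ) ^ (-c) := fun h =>
    Real.rpow_le_rpow_of_exponent_le hN1 h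
  have hP : 0 < T * (N : ℝ) ^ (-c) := by positivity
  have hx : (N : ℝ) ^ ((1 / 2 - σ) * ((2 * k : ℕ) : ℝ)) ≤ (N : ℝ) ^ (-c) := mono (by
    push_cast; nlinarith)
  have hx0 : 0 < (N : ℝ) ^ ((1 / 2 - σ) * ((2 * k : ℕ) : ℝ)) := by positivity
  have q1 := mul_pos hC1 hP
  have q2 := mul_pos hC2 hP
  have q3 := mul_pos p1 hP
  have q4 := mul_pos p2 hP
  rw [mul_assoc]
  rcases le_total ((2 * N : ℝ) ^ (2 * k)) T with h | h
  · have a1 := hs N T (9 / 4 * T) (11 / 4 * T) hN h (by linarith) (by linarith)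
    have a2 : C1 * T * (N : ℝ) ^ (1 / 2 - σ) ≤ C1 * (T * (N : ℝ) ^ (-c)) := by
      rw [mul_assoc]
      exact mul_le_mul_of_nonneg_left
        (mul_le_mul_of_nonneg_left (mono (by linarith)) hTp.le) hC1.le
    linarith
  have a1 := ht T N hT1 hN hNT
  have a2 : C2 * (N : ℝ) ^ ((1 / 2 - σ) * ((2 * k : ℕ) : ℝ)) * T ≤
      C2 * (T * (N : ℝ) ^ (-c)) := by
    rw [mul_assoc, mul_comm T]
    exact mul_le_mul_of_nonneg_left (mul_le_mul_of_nonneg_right hx hTp.le) hC2.le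
  rw [mul_add] at a1
  rcases le_total (N : ℝ) (16 * T) with h' | h'
  · have a3 := hm T N hT0 hN h'
    have a4 := pow_eps (ε := κ / (4 * k)) hTp hNp (by positivity) h
    rw [show ((2 * k : ℕ) : ℝ) * (κ / (4 * k)) = κ / 2 by push_cast; field_simp; ring] at a4
    have a5 : (N : ℝ) ^ ((1 / 2 - σ) * ((2 * k : ℕ) : ℝ)) * ((N : ℝ) ^ (κ / 2) *
        (N : ℝ) ^ ((1 - δ) * (k - 2) / 2)) ≤ (N : ℝ) ^ (-c) := by
      rw [← Real.rpow_add hNp, ← Real.rpow_add hNp]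
      exact mono (by push_cast; linarith)
    have a6 : ∫ τ in (2 * T)..(3 * T), ‖DN N τ‖ ^ (2 * k) ≤
        C3 * (T * (2 ^ (κ / 2) * (N : ℝ) ^ (κ / 2))) * (N : ℝ) ^ ((1 - δ) * (k - 2) / 2) :=
      a3.trans (by gcongr)
    have a7 := mul_le_mul_of_nonneg_left a6 (mul_pos hC2 hx0).le
    have a8 := mul_le_mul_of_nonneg_left a5 (mul_pos p1 hTp).le
    nlinarith
  · have a3 := int_le (F := DN N) (2 * k) hTp.le fun τ hτ => hD T τ N hT1 hτ h' hNT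
    have a4 := mul_le_mul_of_nonneg_left a3 (mul_pos hC2 hx0).le
    have a5 := mul_le_mul_of_nonneg_left hx (mul_pos p2 hTp).le
    nlinarith

end Pool.Agent.Lib.MP_80d0cf_nt.Sg
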