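import Pool.Agent.Lib.MP_80d0cf_nt.Sg.Spec
import Pool.Agent.Lib.MP_80d0cf_nt.Up.XLv

/-! Approximation of zeta on the line `σ`. -/

open Set MeasureTheory ComplexConjugate Filter Topology

namespace Pool.Agent.Lib.MP_80d0cf_nt.Sg

open Up

namespace ZapAux

open Six ZetAAux Complex

lemma approx {N : ℕ} (hN : 1 ≤ N) {s : ℂ} (h1 : 1 / 2 ≤ s.re) (h2 : s.re ≤ 1) (ht : 0 < s.im) :
    ‖riemannZeta s - ∑ n ∈ Finset.Ioc 0 N, pw n s‖ ≤
      ((N : ℝ) + 1) ^ (1 - s.re) / s.im + (1 + s.im) * ((N : ℝ) ^ (1 / 2 - s.re) * (2 / √N)) := by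
  have hs1 : s ≠ 1 := by intro h; rw [h] at ht; simp at ht
  have hN0 : (0 : ℝ) < N := by exact_mod_cast hN
  have hsum : Summable fun n => zt n s :=
    Summable.of_norm_bounded ((summable_rpow_succ (a := s.re) (by linarith)).mul_left _)
      fun n => norm_zt_le n (by linarith)
  have h3 := hsum.sum_add_tsum_nat_add N
  rw [tsum_zt (by linarith), sum_zt] at h3
  have hP : ∑ n ∈ Finset.Ioc 0 N, pw n s = ∑ n ∈ Finset.range N, pw (n + 1) s := by
    rw [← Finset.Ico_add_one_add_one_eq_Ioc, ← Finset.sum_Ico_add' (fun n : ℕ => pw n s) 0 N 1,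
      Nat.Ico_zero_eq_range]
    simp
  have htail : ‖∑' n, zt (n + N) s‖ ≤
      ‖1 - s‖ * ‖s‖ * ((N : ℝ) ^ (1 / 2 - s.re) * (2 / √N)) := by
    refine tsum_of_norm_bounded (f := fun n => zt (n + N) s)
      (g := fun n : ℕ => ‖1 - s‖ * ‖s‖ * (((n + N : ℕ) : ℝ) + 1) ^ (-s.re - 1))
      ((((summable_nat_add_iff N).2 (summable_rpow_succ (a := s.re) (by linarith))).hasSum).mul_left _)
      (fun n => norm_zt_le _ (by linarith)) |>.trans ?_
    gcongr
    refine Real.tsum_le_of_sum_range_le (fun n => by positivity) fun V => ?_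
    refine le_trans ?_ (mul_le_mul_of_nonneg_left (sum_Ioc_rpow_le hN (V + N)) (by positivity))
    rw [← Finset.Ico_add_one_add_one_eq_Ioc, Finset.sum_Ico_eq_sum_range,
      show V + N + 1 - (N + 1) = V by omega, Finset.mul_sum]
    refine Finset.sum_le_sum fun n _ => ?_
    have e1 : ((N + 1 + n : ℕ) : ℝ) = ((n + N : ℕ) : ℝ) + 1 := by push_cast; ring
    have hn : (N : ℝ) ≤ ((n + N : ℕ) : ℝ) + 1 := by
      push_cast; linarith [(Nat.cast_nonneg n : (0 : ℝ) ≤ n)]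
    rw [e1, show -s.re - 1 = (1 / 2 - s.re) + (-(1 / 2 : ℝ) - 1) by ring,
      Real.rpow_add (by positivity)]
    exact mul_le_mul_of_nonneg_right
      (Real.rpow_le_rpow_of_nonpos hN0 hn (by linarith)) (by positivity)
  have h1s : s.im ≤ ‖1 - s‖ := by
    have := abs_im_le_norm (1 - s)
    simp only [sub_im, one_im, zero_sub, abs_neg] at this
    exact (le_abs_self _).trans this
  have hne : 1 - s ≠ 0 := sub_ne_zero.2 hs1.symm
  have e : riemannZeta s - ∑ n ∈ Finset.Ioc 0 N, pw n s =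
      (-pw (N + 1) (s - 1) + ∑' n, zt (n + N) s) / (1 - s) := by
    rw [hP, riemannZeta_eq_inv_sub_mul hs1, eq_div_iff hne]
    have : s - 1 ≠ 0 := sub_ne_zero.2 hs1
    have h2 : (s - 1)⁻¹ * riemannZeta₁ s * (1 - s) = -riemannZeta₁ s := by field_simp; ring
    linear_combination h2 - h3
  have hpos : 0 < ‖1 - s‖ := ht.trans_le h1s
  rw [e, norm_div, div_le_iff₀ hpos]
  refine (norm_add_le _ _).trans ?_
  rw [norm_neg, norm_pw (by positivity), add_mul]
  refine add_le_add ?_ (htail.trans ?_)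
  · simp only [sub_re, one_re]
    rw [neg_sub, div_mul_eq_mul_div, le_div_iff₀ ht]
    gcongr
  · have h4 := norm_le_abs_re_add_abs_im s
    rw [abs_of_pos ht, abs_of_pos (by linarith)] at h4
    have h5 : ‖s‖ * ((N : ℝ) ^ (1 / 2 - s.re) * (2 / √N)) ≤
        (1 + s.im) * ((N : ℝ) ^ (1 / 2 - s.re) * (2 / √N)) :=
      mul_le_mul_of_nonneg_right (by linarith) (by positivity)
    calc _ = ‖s‖ * ((N : ℝ) ^ (1 / 2 - s.re) * (2 / √N)) * ‖1 - s‖ := by ring
      _ ≤ _ := mul_le_mul_of_nonneg_right h5 hpos.le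

lemma smooth {T : ℝ} {s : ℂ} (hT : 1 ≤ T) (hs : 1 / 2 ≤ s.re) (hs' : s.re ≤ 1)
    (h1 : 12 * T ≤ s.im) (h2 : s.im ≤ 19 * T) {Y : ℕ} (hY : T ^ 2 ≤ Y) (hY' : (Y : ℝ) ≤ 2 * T ^ 2) :
    ‖riemannZeta s - ∑ n ∈ Finset.Ioc 0 (2 * Y), (th (n / Y) : ℂ) * pw n s‖ ≤
      41 * T ^ (1 - 2 * s.re) := by
  have hT2 : 1 ≤ T ^ 2 := one_le_pow₀ hT
  have hT0 : 0 < T := by linarith
  have hY0 : (0 : ℝ) < Y := by linarith
  have hY1 : 1 ≤ Y := by exact_mod_cast hY0
  have h := abel (f := fun n : ℕ => th (n / Y)) (a := fun n : ℕ => pw n s)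
    (z := riemannZeta s) (E := 41 * T ^ (1 - 2 * s.re)) (Y := Y) (M := 2 * Y)
    (fun n n' h => th_anti (by gcongr))
    (fun n hn => th_of_le (by rw [div_le_one hY0]; exact_mod_cast hn)) (by omega)
    (fun N a1 a2 => by
      refine (approx (by omega) hs hs' (by linarith)).trans ?_
      have b1 : (Y : ℝ) ≤ N := by exact_mod_cast a1
      have b2 : (N : ℝ) + 1 ≤ 2 * Y := by exact_mod_cast a2
      have b4 : T ≤ √(N : ℝ) := Real.le_sqrt_of_sq_le (by linarith)
      have p0 : 0 < T ^ (1 - 2 * s.re) := Real.rpow_pos_of_pos hT0 _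
      have c1 : ∀ x : ℝ, (T ^ 2) ^ x = T ^ (2 * x) := fun x => by
        rw [← Real.rpow_natCast, ← Real.rpow_mul hT0.le]; norm_num
      have b3 : ((N : ℝ) + 1) ^ (1 - s.re) ≤ 4 * (T * T ^ (1 - 2 * s.re)) := by
        calc _ ≤ (4 * T ^ 2) ^ (1 - s.re) :=
              Real.rpow_le_rpow (by positivity) (by linarith) (by linarith)
          _ = 4 ^ (1 - s.re) * (T * T ^ (1 - 2 * s.re)) := by
              rw [Real.mul_rpow (by norm_num) (by positivity), c1,
                show 2 * (1 - s.re) = 1 + (1 - 2 * s.re) by ring, Real.rpow_add hT0, Real.rpow_one]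
          _ ≤ _ := by
              gcongr
              calc (4 : ℝ) ^ (1 - s.re) ≤ 4 ^ (1 : ℝ) :=
                    Real.rpow_le_rpow_of_exponent_le (by norm_num) (by linarith)
                _ = 4 := Real.rpow_one _
      have b5 : ((N : ℝ) + 1) ^ (1 - s.re) / s.im ≤ T ^ (1 - 2 * s.re) := by
        rw [div_le_iff₀ (by linarith)]
        nlinarith
      have b7 : (N : ℝ) ^ (1 / 2 - s.re) ≤ T ^ (1 - 2 * s.re) := by
        rw [show 1 - 2 * s.re = 2 * (1 / 2 - s.re) by ring, ← c1]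
        exact Real.rpow_le_rpow_of_nonpos (by positivity) (by linarith) (by linarith)
      have b6 : (1 + s.im) * (2 / √(N : ℝ)) ≤ 40 := by
        rw [mul_div_assoc', div_le_iff₀ (by linarith)]; linarith
      have b8 : (1 + s.im) * ((N : ℝ) ^ (1 / 2 - s.re) * (2 / √N)) ≤ T ^ (1 - 2 * s.re) * 40 := by
        rw [mul_left_comm]
        exact mul_le_mul b7 b6 (mul_nonneg (by linarith) (by positivity)) p0.le
      linarith)
  have h0 : th (((2 * Y : ℕ) : ℝ) / Y) = 0 :=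
    th_of_ge (by rw [le_div_iff₀ hY0]; push_cast; exact le_rfl)
  simpa only [h0, sub_zero, Complex.ofReal_one, one_mul, Complex.ofReal_zero, zero_mul] using h

lemma pw_line {x : ℝ} (hx : 0 < x) (σ τ : ℝ) :
    pw x (σ + (2 * Real.pi * τ : ℝ) * Complex.I) = ((x ^ (-σ) : ℝ) : ℂ) * e (-(τ * Real.log x)) := by
  rw [Real.rpow_def_of_pos hx, Complex.ofReal_exp, pw, e, ← Complex.exp_add]
  congr 1
  push_cast
  ring

end ZapAux

theorem peq : PeqS := by
  intro σ J τ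
  have h1 : ∀ j ∈ Finset.range (J + 1), DS σ (2 ^ j) τ = ∑ n ∈ Finset.Icc (1 : ℕ) (2 * 2 ^ J),
      ((wN (n / ((2 ^ j : ℕ) : ℝ)) * (n : ℝ) ^ (-σ) : ℝ) : ℂ) * e (-(τ * Real.log n)) := by
    intro j hj
    have hj' : 2 ^ j ≤ 2 ^ J :=
      Nat.pow_le_pow_right (by norm_num) (Nat.lt_succ_iff.1 (Finset.mem_range.1 hj))
    refine Finset.sum_subset (fun n hn => ?_) fun n hn hn' => ?_
    · simp only [Finset.mem_Icc] at hn ⊢
      omega
    · have : 2 * 2 ^ j ≤ n := by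
        simp only [Finset.mem_Icc] at hn hn'
        omega
      rw [wN_eq_zero (Or.inr (by
        rw [le_div_iff₀ (by positivity)]
        exact_mod_cast this))]
      simp
  rw [PS, Finset.sum_congr rfl h1, Finset.sum_comm]
  refine Finset.sum_congr rfl fun n hn => ?_
  have hn1 : (1 : ℝ) ≤ n := by exact_mod_cast (Finset.mem_Icc.1 hn).1
  rw [ZetAAux.th_eq_sum hn1, Finset.sum_mul, Complex.ofReal_sum, Finset.sum_mul]
  refine Finset.sum_congr rfl fun j _ => ?_
  rw [Nat.cast_pow, Nat.cast_ofNat]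

theorem zap (hq : PeqS) : ZapS := by
  intro σ h1 h2
  refine ⟨41, by norm_num, fun T τ J hT hτ hJ hJ' => ?_⟩
  have hπ := Real.pi_gt_three
  have hπ' := Real.pi_lt_d2
  have hre : ((σ : ℂ) + (2 * Real.pi * τ : ℝ) * Complex.I).re = σ := by simp
  have him : ((σ : ℂ) + (2 * Real.pi * τ : ℝ) * Complex.I).im = 2 * Real.pi * τ := by simp
  have h := ZapAux.smooth (T := T) (s := (σ : ℂ) + (2 * Real.pi * τ : ℝ) * Complex.I) hT
    (by rw [hre]; exact h1.le) (by rw [hre]; exact h2.le) (by rw [him]; nlinarith [hτ.1])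
    (by rw [him]; nlinarith [hτ.2]) (Y := 2 ^ J) (by push_cast; exact hJ) (by push_cast; exact hJ')
  rw [hre] at h
  rw [hq σ J τ, ZS]
  refine le_trans (le_of_eq ?_) h
  congr 2
  rw [← Finset.Icc_add_one_left_eq_Ioc, zero_add]
  refine Finset.sum_congr rfl fun n hn => ?_
  have hn1 : (0 : ℝ) < n := by exact_mod_cast (Finset.mem_Icc.1 hn).1
  rw [ZapAux.pw_line hn1, Nat.cast_pow, Nat.cast_ofNat]
  push_cast
  ring

end Pool.Agent.Lib.MP_80d0cf_nt.Sg
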