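import Pool.Agent.Lib.MP_80d0cf_nt.Up.YAll
import Pool.Agent.Lib.MP_80d0cf_nt.Sg.K01
import Pool.Agent.Lib.MP_80d0cf_nt.Sg.K2
import Pool.Agent.Lib.MP_80d0cf_nt.Sg.K3
import Pool.Agent.Lib.MP_80d0cf_nt.Sg.Hmx
import Pool.Agent.Lib.MP_80d0cf_nt.Sg.Ort
import Pool.Agent.Lib.MP_80d0cf_nt.Sg.Maj
import Pool.Agent.Lib.MP_80d0cf_nt.Sg.Aff
import Pool.Agent.Lib.MP_80d0cf_nt.Sg.Tri
import Pool.Agent.Lib.MP_80d0cf_nt.Sg.T3
import Pool.Agent.Lib.MP_80d0cf_nt.Sg.Cb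
import Pool.Agent.Lib.MP_80d0cf_nt.Sg.Gml
import Pool.Agent.Lib.MP_80d0cf_nt.Sg.Grd
import Pool.Agent.Lib.MP_80d0cf_nt.Sg.Mid
import Pool.Agent.Lib.MP_80d0cf_nt.Sg.Mom
import Pool.Agent.Lib.MP_80d0cf_nt.Sg.Trf
import Pool.Agent.Lib.MP_80d0cf_nt.Sg.Pow
import Pool.Agent.Lib.MP_80d0cf_nt.Sg.Smv
import Pool.Agent.Lib.MP_80d0cf_nt.Sg.Uni
import Pool.Agent.Lib.MP_80d0cf_nt.Sg.Zap
import Pool.Agent.Lib.MP_80d0cf_nt.Sg.Apx

/-! All steps put together. -/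

open Filter Topology

namespace Pool.Agent.Lib.MP_80d0cf_nt.Sg

open Up

theorem k2S : K2S := k2 psS

theorem kbS : KbS := kb (k1 sd) k2S

theorem gmlS : GmlS :=
  gml (cb cubic schur psd dual row (k0 fd1) k2S) (en energy (k0 fd1) kbS)
    (t3 tri (gam fd1) (aff (l2 ort) (maj row)) (rhoS ort))
    (hmx (k0 fd1) k2S kbS (k3 bpS weylUS cf))

theorem momS : MomS :=
  mom (a4 redS (mv fd1)) (lev12 redS (mv fd1) hmpS (xfam grid lv2S)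
    (yfam grid (dhm2 (hmaxG weylUS cf) f1S hm)) swS) (mid grd sqS gmlS (hmv hm (k0 fd1) kbS))

theorem uniS : UniS := uni psS fd1 momS trf (smv mv2 powS sumS)

theorem D_eq (k n : ℕ) : Six.D k n = (((ArithmeticFunction.zeta ^ k) n : ℕ) : ℝ) := by
  have h : Six.D k = ((ArithmeticFunction.zeta ^ k : ArithmeticFunction ℕ) :
      ArithmeticFunction ℝ) := by
    induction k with
    | zero => simp [Six.D]
    | succ k ih => rw [Six.D, pow_succ, pow_succ, ArithmeticFunction.natCoe_mul, ← ih, Six.D]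
  rw [h, ArithmeticFunction.natCoe_apply]

theorem main : ∃ δ : ℝ, 0 < δ ∧ ∀ k : ℕ, k = 3 ∨ k = 4 → ∀ σ : ℝ,
    3 / 4 - 1 / (2 * k) - δ < σ → σ < 1 → ∃ c : ℝ,
      HasSum (fun n : ℕ => (((ArithmeticFunction.zeta ^ k) n : ℕ) : ℝ) ^ 2 / (n : ℝ) ^ (2 * σ)) c ∧
      Tendsto (fun T : ℝ => T⁻¹ * ∫ t in (0 : ℝ)..T, ‖riemannZeta (σ + t * Complex.I)‖ ^ (2 * k))
        atTop (𝓝 c) := by
  obtain ⟨δ, hδ, hδ1, h⟩ := uniS
  refine ⟨δ, hδ, fun k hk σ h1 h2 => ?_⟩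
  have h3 : 1 / 2 < σ := by rcases hk with rfl | rfl <;> (push_cast at h1; linarith)
  refine ⟨_, ?_, finS (apx (zap peq)) (lim peq mv2 powS sumS) sumS k σ (by omega) h3 h2
    (h k hk σ h1)⟩
  convert (sumS k σ h3).hasSum using 2 with n
  rw [dd, D_eq, mul_pow, ← Real.rpow_natCast (_ ^ _), ← Real.rpow_mul (Nat.cast_nonneg n),
    div_eq_mul_inv, ← Real.rpow_neg (Nat.cast_nonneg n)]
  congr 2
  push_cast
  ring

end Pool.Agent.Lib.MP_80d0cf_nt.Sg
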