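import Pool.Agent.Lib.MP_80d0cf_nt.Sg.Spec

/-! The cubic inequality and the energy. -/

open Set MeasureTheory ComplexConjugate Filter Topology

namespace Pool.Agent.Lib.MP_80d0cf_nt.Sg

open Up

theorem cb (hcu : CubicS) (hs : SchurS) (hp : PsdS) (hd : DualS) (hr : RowS) (h0 : K0S)
    (h2 : K2S) : CbS := by
  obtain ⟨C0, hC0, h0⟩ := h0
  obtain ⟨C2, hC2, h2⟩ := h2
  refine ⟨6 * C0 + C2, by positivity,
    fun N L a W U l q Hm hN hW hWN ha hU hUN hL1 hL2 hl hS hq hq' hH => ?_⟩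
  have h1 : (1 : ℝ) ≤ N := by exact_mod_cast hN
  have hlog := one_le_log_add_two h1
  obtain ⟨u0, hu0⟩ := Finset.card_pos.1 hW
  have hU0 : 0 ≤ U := (abs_nonneg _).trans (hU u0 hu0 u0 hu0)
  have h5 : Real.log (U + 1) ≤ 2 * Real.log (N + 2) := by
    rw [show (2 : ℝ) * _ = (2 : ℕ) * Real.log (N + 2) by norm_num, ← Real.log_pow]
    exact Real.log_le_log (by positivity) (by nlinarith)
  set Lc := (6 * C0 + C2) * N * Real.log (N + 2) with hLc
  have hLc0 : 0 ≤ Lc := by positivity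
  set E : ℤ → ℤ → ℂ := fun u v => KD N ((u : ℝ) - v) - HK N L ((u : ℝ) - v) with hEd
  have hE : ∀ u ∈ W, ∑ v ∈ W, ‖E u v‖ ≤ Lc := fun u hu => by
    calc _ ≤ ∑ v ∈ W, (C0 * N * (1 / (1 + |(u : ℝ) - v|)) + C2 * Real.log (N + 2)) := by
          refine Finset.sum_le_sum fun v hv => (norm_le_insert' _ (I0 N (u - v))).trans
            (add_le_add ((h0 N _).trans_eq (by ring)) ?_)
          rw [hEd, sub_right_comm]
          exact h2 N L _ hN (by linarith [hU u hu v hv]) hL2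
      _ = C0 * N * ∑ v ∈ W, 1 / (1 + |(u : ℝ) - v|) + W.card * (C2 * Real.log (N + 2)) := by
          rw [Finset.sum_add_distrib, ← Finset.mul_sum, Finset.sum_const, nsmul_eq_mul]
      _ ≤ C0 * N * (6 * Real.log (N + 2)) + N * (C2 * Real.log (N + 2)) := by
          gcongr
          linarith [hr W u U hU0 (hU u hu)]
      _ = _ := by rw [hLc]; ring
  have hE' : ∀ v ∈ W, ∑ u ∈ W, ‖E u v‖ ≤ Lc := fun v hv => by
    refine le_trans (le_of_eq (Finset.sum_congr rfl fun u _ => ?_)) (hE v hv)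
    rw [← Complex.norm_conj, hEd]
    simp only [map_sub, ← KD_neg, ← HK_neg, neg_sub]
  have hsplit : ∀ η : ℤ → ℂ, (∑ u ∈ W, ∑ v ∈ W, η u * conj (η v) * HK N L ((u : ℝ) - v)).re =
      (∑ u ∈ W, ∑ v ∈ W, η u * conj (η v) * KD N ((u : ℝ) - v)).re -
        (∑ u ∈ W, ∑ v ∈ W, η u * conj (η v) * E u v).re := fun η => by
    rw [← Complex.sub_re, ← Finset.sum_sub_distrib]
    congr 1
    refine Finset.sum_congr rfl fun u _ => ?_
    rw [← Finset.sum_sub_distrib]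
    refine Finset.sum_congr rfl fun v _ => ?_
    simp only [hEd]; ring
  have hEb : ∀ η : ℤ → ℂ, (∑ u ∈ W, ∑ v ∈ W, η u * conj (η v) * E u v).re ≤
      Lc * ∑ u ∈ W, ‖η u‖ ^ 2 := fun η => (Complex.re_le_norm _).trans (hs W E η Lc hE hE')
  obtain ⟨θ, hθ, hθ2⟩ := hd _ _ (fun k => bw (k / N)) (fun k => Real.log (k / N)) a W l subset_rfl
    (fun k _ => bw_nonneg _) (fun k _ => ha k) hl hS
  have hn : ∑ u ∈ W, ‖θ u‖ ^ 2 = W.card := by simp [hθ]
  have hW' : (0 : ℝ) < W.card := by exact_mod_cast hW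
  have hpsd : ∀ η : ℤ → ℂ, 0 ≤ (∑ u ∈ W, ∑ v ∈ W, η u * conj (η v) * KD N ((u : ℝ) - v)).re :=
    fun η => hp _ _ _ W η fun k _ => bw_nonneg _
  have h3 := hcu W (fun u v => HK N L ((u : ℝ) - v)) θ Lc q
    (fun u _ v _ => by rw [← HK_neg, neg_sub]) hLc0 hq
    (fun η => by rw [hsplit]; linarith [hpsd η, hEb η]) (by rw [hn]; exact hW') (by
      rw [hsplit]
      have h2 := hEb θ
      rw [hn] at h2 ⊢
      have h3 : ((W.card : ℝ) * l) ^ 2 ≤
          5 * N * (∑ u ∈ W, ∑ v ∈ W, θ u * conj (θ v) * KD N ((u : ℝ) - v)).re :=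
        hθ2.trans (mul_le_mul_of_nonneg_right (sum_bw_le N) (hpsd θ))
      have h4 : (q + Lc) * W.card ≤ ((W.card : ℝ) * l) ^ 2 / (5 * N) :=
        (mul_le_mul_of_nonneg_right hq' hW'.le).trans (le_of_eq (by ring))
      rw [le_div_iff₀ (by positivity)] at h4
      have h5 : (q + Lc) * W.card ≤
          (∑ u ∈ W, ∑ v ∈ W, θ u * conj (θ v) * KD N ((u : ℝ) - v)).re :=
        le_of_mul_le_mul_right (by linarith) (show (0 : ℝ) < 5 * N by positivity)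
      linarith)
  refine h3.trans (add_le_add le_rfl (mul_le_mul_of_nonneg_left ?_ hLc0))
  calc _ ≤ ∑ u ∈ W, ∑ v ∈ W, Hm ^ 2 :=
        Finset.sum_le_sum fun u hu => Finset.sum_le_sum fun v hv =>
          pow_le_pow_left₀ (norm_nonneg _) (hH _ (hU u hu v hv)) 2
    _ = _ := by simp; ring

namespace CbAux

lemma pairs (W : Finset ℤ) :
    (((W ×ˢ W).filter fun q => |(q.1 : ℝ) - q.2| ≤ 2 * (1 : ℕ)).card : ℝ) ≤ 5 * W.card := by
  have : ((W ×ˢ W).filter fun q => |(q.1 : ℝ) - q.2| ≤ 2 * (1 : ℕ)).card ≤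
      (W ×ˢ Finset.Icc (-2 : ℤ) 2).card := by
    refine Finset.card_le_card_of_injOn (fun q => (q.1, q.1 - q.2)) (fun q hq => ?_)
      fun q _ q' _ h => ?_
    · simp only [Finset.coe_filter, Finset.mem_product, mem_ofPred_eq] at hq
      have h1 : |q.1 - q.2| ≤ 2 := by exact_mod_cast hq.2
      simpa [hq.1.1] using abs_le.1 h1
    · simp only [Prod.mk.injEq] at h
      exact Prod.ext h.1 (by omega)
  have h5 : (Finset.Icc (-2 : ℤ) 2).card = 5 := by simp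
  rw [Finset.card_product, h5, mul_comm W.card] at this
  exact (Nat.cast_le.2 this).trans_eq (by push_cast; ring)

end CbAux

theorem en (he : EnergyS) (h0 : K0S) (hb : KbS) : EnS := by
  intro c η hη hc0 hc
  obtain ⟨C0, hC0, h0⟩ := h0
  obtain ⟨Cb, hCb, hb⟩ := hb
  obtain ⟨A, hA1, hA2, hA3⟩ : ∃ A : ℝ, 1 ≤ A ∧ 2 * C0 ^ 2 ≤ A ∧ 52 * Cb ^ 2 ≤ A :=
    ⟨1 + 2 * C0 ^ 2 + 52 * Cb ^ 2, by nlinarith [sq_nonneg C0, sq_nonneg Cb],
      by nlinarith [sq_nonneg Cb], by nlinarith [sq_nonneg C0]⟩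
  obtain ⟨N1, hN1, hl⟩ := exists_log_pow_le (220 * A ^ 2) 0 (show 0 < 4 * η by positivity)
  refine ⟨max N1 4, fun N a W hN ha hU hS hW => ?_⟩
  rw [max_le_iff] at hN
  have hl := hl N hN.1
  rw [pow_zero, mul_one] at hl
  have h1 : (1 : ℝ) ≤ N := by linarith [hN.2]
  have hN0 : (0 : ℝ) < N := by linarith
  have mono : ∀ {x y : ℝ}, x ≤ y → (N : ℝ) ^ x ≤ (N : ℝ) ^ y := fun h =>
    Real.rpow_le_rpow_of_exponent_le h1 h
  have ad : ∀ x y : ℝ, (N : ℝ) ^ x * (N : ℝ) ^ y = (N : ℝ) ^ (x + y) := fun x y =>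
    (Real.rpow_add hN0 x y).symm
  have pw : ∀ (x : ℝ) (n : ℕ), ((N : ℝ) ^ x) ^ n = (N : ℝ) ^ (x * n) := fun x n =>
    (Real.rpow_mul_natCast hN0.le x n).symm
  have hU1 : (N : ℝ) ≤ (N : ℝ) ^ (1 + c) := (Real.rpow_one _).ge.trans (mono (by linarith))
  have hU2 : (N : ℝ) ^ (1 + c) ≤ (N : ℝ) ^ 2 := (mono (by linarith)).trans (Real.rpow_two _).le
  have key := he _ _ (fun k => bw (k / N)) (fun k => Real.log (k / N)) a W 1
    ((N : ℝ) ^ (3 / 4 - η)) (A * (N : ℝ) ^ (2 : ℝ)) (A * (N : ℝ) ^ (1 + c)) _ _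
    (44 * A * (N : ℝ) ^ (5 / 2 + c)) (44 * A * (N : ℝ) ^ (3 + 5 * c)) subset_rfl
    (fun _ _ => bw_nonneg _) (fun k _ => ha k) (by positivity) (by positivity) (by positivity)
    le_rfl hS hU (fun v hv => by
      rw [Nat.cast_one] at hv
      have a1 := hb N v (by exact_mod_cast h1) (by nlinarith [hN.2])
      have a2 := h0 N v
      have a3 : Real.log (N + 2) ≤ 2 * √((N : ℝ) + 2) := by
        have := Real.log_le_sub_one_of_pos (x := √((N : ℝ) + 2)) (by positivity)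
        rw [Real.log_sqrt (by positivity)] at this
        linarith
      have a4 : (√|(v : ℝ)| + Real.log (N + 2)) ^ 2 ≤ 26 * (N : ℝ) ^ (1 + c) := by
        have b1 := pow_le_pow_left₀ (Real.log_nonneg (by linarith)) a3 2
        rw [mul_pow, Real.sq_sqrt (by positivity)] at b1
        nlinarith [sq_nonneg (√|(v : ℝ)| - Real.log (N + 2)), Real.sq_sqrt (abs_nonneg (v : ℝ)),
          hN.2]
      have a5 : ‖KD N v‖ ^ 2 ≤ 2 * ‖I0 N v‖ ^ 2 + 2 * ‖KD N v - I0 N v‖ ^ 2 := by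
        refine (pow_le_pow_left₀ (norm_nonneg _) (norm_le_insert' _ (I0 N v)) 2).trans ?_
        nlinarith [sq_nonneg (‖I0 N v‖ - ‖KD N v - I0 N v‖)]
      refine a5.trans (add_le_add ?_ ?_)
      · calc _ ≤ 2 * (C0 * N / (1 + |(v : ℝ)|)) ^ 2 := by gcongr
          _ = 2 * C0 ^ 2 * (N : ℝ) ^ (2 : ℝ) / (1 + |(v : ℝ)|) ^ 2 := by
              rw [Real.rpow_two, div_pow]; ring
          _ ≤ _ := by gcongr
      · calc _ ≤ 2 * (Cb ^ 2 * (26 * (N : ℝ) ^ (1 + c))) := by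
              gcongr 2 * ?_
              refine (pow_le_pow_left₀ (norm_nonneg _) a1 2).trans ?_
              rw [mul_pow]
              gcongr
          _ = 52 * Cb ^ 2 * (N : ℝ) ^ (1 + c) := by ring
          _ ≤ _ := by gcongr) (CbAux.pairs W)
    (by
      calc _ ≤ 8 * (A * (N : ℝ) ^ (2 : ℝ)) * (1 : ℕ) * (5 * (N : ℝ) ^ (1 / 2 + c)) +
            4 * ((1 : ℕ) : ℝ) ^ 2 * ((N : ℝ) ^ (1 / 2 + c)) ^ 2 * (A * (N : ℝ) ^ (1 + c)) := by
            gcongr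
        _ = 40 * A * ((N : ℝ) ^ (2 : ℝ) * (N : ℝ) ^ (1 / 2 + c)) +
            4 * A * (((N : ℝ) ^ (1 / 2 + c)) ^ 2 * (N : ℝ) ^ (1 + c)) := by push_cast; ring
        _ ≤ 40 * A * (N : ℝ) ^ (5 / 2 + c) + 4 * A * (N : ℝ) ^ (5 / 2 + c) := by
            rw [pw, ad, ad]
            gcongr 40 * A * ?_ + 4 * A * ?_ <;> exact mono (by push_cast; linarith)
        _ = _ := by ring)
    (by
      calc _ ≤ 4 * ((1 : ℕ) : ℝ) ^ 2 * ((N : ℝ) ^ (1 / 2 + c)) ^ 4 * (A * (N : ℝ) ^ (1 + c)) := by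
            gcongr
        _ = 4 * A * (((N : ℝ) ^ (1 / 2 + c)) ^ 4 * (N : ℝ) ^ (1 + c)) := by push_cast; ring
        _ ≤ _ := by
            rw [pw, ad]
            gcongr ?_ * A * ?_
            · norm_num
            · exact mono (by push_cast; linarith))
  rw [Nat.cast_one, one_mul] at key
  refine key.trans ?_
  have e1 : √(44 * A * (N : ℝ) ^ (5 / 2 + c) * (44 * A * (N : ℝ) ^ (3 + 5 * c))) =
      44 * A * (N : ℝ) ^ (11 / 4 + 3 * c) := by
    rw [Real.sqrt_eq_iff_mul_self_eq (by positivity) (by positivity), mul_mul_mul_comm,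
      mul_mul_mul_comm _ _ (44 * A), ad, ad]
    congr 2
    ring
  calc _ ≤ 176 * A ^ 2 * (N : ℝ) ^ (3 / 2 + c + 4 * η) + 44 * A ^ 2 * (N : ℝ) ^ (3 / 2 + c + 4 * η) := by
        refine add_le_add ?_ ?_
        · rw [div_le_iff₀ (by positivity), pw, mul_assoc (176 * A ^ 2), ad]
          calc _ = 176 * A ^ 2 * ((N : ℝ) ^ (2 : ℝ) * (N : ℝ) ^ (5 / 2 + c)) := by ring
            _ ≤ _ := by rw [ad]; gcongr 176 * A ^ 2 * ?_; exact mono (by push_cast; linarith)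
        · rw [e1, div_le_iff₀ (by positivity), pw, mul_assoc (44 * A ^ 2), ad]
          gcongr 44 * ?_ * ?_
          · exact le_self_pow₀ hA1 two_ne_zero
          · exact mono (by push_cast; linarith)
    _ = 220 * A ^ 2 * (N : ℝ) ^ (3 / 2 + c + 4 * η) := by ring
    _ ≤ (N : ℝ) ^ (4 * η) * (N : ℝ) ^ (3 / 2 + c + 4 * η) := by gcongr
    _ = _ := by rw [ad]; congr 1; ring

end Pool.Agent.Lib.MP_80d0cf_nt.Sg
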