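import Pool.Agent.Lib.MP_80d0cf_nt.Up.Lev
import Pool.Agent.Lib.MP_80d0cf_nt.Six.Zeta

/-! Definitions and statements of the steps for the moments on a line to the right of one half. -/

open Set MeasureTheory ComplexConjugate Filter Topology

namespace Pool.Agent.Lib.MP_80d0cf_nt.Sg

open Up

/-- bump, one on `[1/4, 4]`, zero outside `(1/8, 5)` -/
noncomputable def bw (x : ℝ) : ℝ := st (8 * x - 1) * st (5 - x)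

/-- derivative of `bw` -/
noncomputable def bw1 (x : ℝ) : ℝ :=
  8 * st1 (8 * x - 1) * st (5 - x) - st (8 * x - 1) * st1 (5 - x)

/-- the bump in logarithmic coordinates, with the Jacobian -/
noncomputable def Oe (s : ℝ) : ℝ := bw (Real.exp s) * Real.exp s

/-- derivative of `Oe` -/
noncomputable def Oe1 (s : ℝ) : ℝ := bw1 (Real.exp s) * Real.exp s ^ 2 + bw (Real.exp s) * Real.exp s

/-- Dirichlet polynomial -/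
noncomputable def SN (N : ℕ) (a : ℕ → ℂ) (u : ℝ) : ℂ :=
  Sk (Finset.Icc 1 (5 * N)) a (fun k => Real.log (k / N)) u

/-- Gram kernel -/
noncomputable def KD (N : ℕ) (u : ℝ) : ℂ :=
  Dk (Finset.Icc 1 (5 * N)) (fun k => bw (k / N)) (fun k => Real.log (k / N)) u

/-- nonzero integers of size at most `L` -/
noncomputable def Ls (L : ℕ) : Finset ℤ := (Finset.Icc (-(L : ℤ)) L).erase 0

/-- zero frequency of the kernel -/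
noncomputable def I0 (N : ℕ) (u : ℝ) : ℂ := N * ∫ s : ℝ, (Oe s : ℂ) * e (u * s)

/-- density of the nonzero frequencies -/
noncomputable def hk (N L : ℕ) (s : ℝ) : ℂ :=
  N * (Oe s : ℂ) * ∑ l ∈ Ls L, e (l * N * Real.exp s)

/-- nonzero frequencies of the kernel -/
noncomputable def HK (N L : ℕ) (u : ℝ) : ℂ := ∫ s : ℝ, hk N L s * e (u * s)

/-- exponential sum over the points -/
noncomputable def rho (W : Finset ℤ) (s : ℝ) : ℂ := ∑ u ∈ W, e (u * s)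

/-- the sum over affine relations -/
noncomputable def Kk (N L : ℕ) (p q : ℝ) : ℝ :=
  ∑ l1 ∈ Ls L, ∑ l2 ∈ Ls L, ∑ l3 ∈ Ls L,
    1 / (1 + N * |l1 * Real.exp p + l2 * Real.exp q + l3|)

/-- triple correlation -/
noncomputable def Gam (h : ℝ → ℂ) (p q : ℝ) : ℂ := ∫ r : ℝ, h r * h (r + p) * h (r + q)

/-- dyadic piece of zeta on the line `σ` -/
noncomputable def DS (σ : ℝ) (N : ℕ) (τ : ℝ) : ℂ :=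
  ∑ n ∈ Finset.Icc 1 (2 * N), ((wN (n / N) * (n : ℝ) ^ (-σ) : ℝ) : ℂ) * e (-(τ * Real.log n))

/-- smooth truncated sum of zeta on the line `σ` -/
noncomputable def PS (σ : ℝ) (J : ℕ) (τ : ℝ) : ℂ := ∑ j ∈ Finset.range (J + 1), DS σ (2 ^ j) τ

/-- zeta on the line `σ` at height `2 pi τ` -/
noncomputable def ZS (σ τ : ℝ) : ℂ := riemannZeta (σ + (2 * Real.pi * τ : ℝ) * Complex.I)

/-- the terms of the limit -/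
noncomputable def dd (k : ℕ) (σ : ℝ) (m : ℕ) : ℝ := (Six.D k m * (m : ℝ) ^ (-σ)) ^ 2

/-! ### Small facts -/

lemma bw_nonneg (x : ℝ) : 0 ≤ bw x := mul_nonneg (st_nonneg _) (st_nonneg _)
lemma bw_le_one (x : ℝ) : bw x ≤ 1 := mul_le_one₀ (st_le_one _) (st_nonneg _) (st_le_one _)
lemma abs_bw_le (x : ℝ) : |bw x| ≤ 1 := by rw [abs_of_nonneg (bw_nonneg x)]; exact bw_le_one x
lemma bw_eq_zero {x : ℝ} (h : x ≤ 1 / 8 ∨ 5 ≤ x) : bw x = 0 := by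
  rcases h with h | h
  · rw [bw, st_of_nonpos (by linarith), zero_mul]
  · rw [bw, st_of_nonpos (x := 5 - x) (by linarith), mul_zero]
lemma bw1_eq_zero {x : ℝ} (h : x ≤ 1 / 8 ∨ 5 ≤ x) : bw1 x = 0 := by
  rcases h with h | h
  · rw [bw1, st_of_nonpos (x := 8 * x - 1) (by linarith), st1_of_nonpos (by linarith)]; ring
  · rw [bw1, st_of_nonpos (x := 5 - x) (by linarith), st1_of_nonpos (x := 5 - x) (by linarith)]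
    ring
lemma bw_eq_one {x : ℝ} (h1 : 1 / 4 ≤ x) (h2 : x ≤ 4) : bw x = 1 := by
  rw [bw, st_of_one_le (by linarith), st_of_one_le (by linarith), one_mul]
lemma abs_bw1_le (x : ℝ) : |bw1 x| ≤ 16 := by
  have h1 := mul_nonneg (st1_nonneg (8 * x - 1)) (st_nonneg (5 - x))
  have h2 := mul_nonneg (st_nonneg (8 * x - 1)) (st1_nonneg (5 - x))
  have h3 := mul_le_mul (st1_le_two (8 * x - 1)) (st_le_one (5 - x)) (st_nonneg _) two_pos.le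
  have h4 := mul_le_mul (st_le_one (8 * x - 1)) (st1_le_two (5 - x)) (st1_nonneg _) one_pos.le
  rw [bw1, abs_le]; constructor <;> nlinarith
lemma hasDerivAt_bw (x : ℝ) : HasDerivAt bw (bw1 x) x := by
  have h1 := (hasDerivAt_st (8 * x - 1)).comp x (((hasDerivAt_id x).const_mul 8).sub_const 1)
  have h2 := (hasDerivAt_st (5 - x)).comp x ((hasDerivAt_id x).const_sub 5)
  refine (h1.mul h2).congr_deriv ?_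
  simp [bw1]; ring
@[fun_prop] lemma continuous_bw : Continuous bw := by unfold bw; fun_prop
@[fun_prop] lemma continuous_Oe : Continuous Oe := by unfold Oe; fun_prop

lemma exp_out {s : ℝ} (h : s ≤ -3 ∨ 2 ≤ s) : Real.exp s ≤ 1 / 8 ∨ 5 ≤ Real.exp s := by
  have h1 := Real.exp_one_gt_d9
  rcases h with h | h
  · left
    refine (Real.exp_le_exp.2 h).trans ?_
    rw [Real.exp_neg, show (3 : ℝ) = (3 : ℕ) * 1 by norm_num, Real.exp_nat_mul, one_div]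
    exact inv_anti₀ (by norm_num) (le_trans (by norm_num) (pow_le_pow_left₀ (by norm_num) h1.le 3))
  · right
    refine le_trans ?_ (Real.exp_le_exp.2 h)
    rw [show (2 : ℝ) = (2 : ℕ) * 1 by norm_num, Real.exp_nat_mul]
    exact le_trans (by norm_num) (pow_le_pow_left₀ (by norm_num) h1.le 2)
lemma Oe_eq_zero {s : ℝ} (h : s ≤ -3 ∨ 2 ≤ s) : Oe s = 0 := by
  rw [Oe, bw_eq_zero (exp_out h), zero_mul]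
lemma Oe_nonneg (s : ℝ) : 0 ≤ Oe s := mul_nonneg (bw_nonneg _) (Real.exp_pos s).le
lemma abs_Oe_le (s : ℝ) : |Oe s| ≤ 5 := by
  rw [abs_of_nonneg (Oe_nonneg s), Oe]
  rcases le_total 5 (Real.exp s) with h | h
  · rw [bw_eq_zero (Or.inr h)]; norm_num
  · nlinarith [bw_le_one (Real.exp s), bw_nonneg (Real.exp s), Real.exp_pos s]
lemma abs_Oe1_le (s : ℝ) : |Oe1 s| ≤ 405 := by
  rcases le_total 5 (Real.exp s) with h | h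
  · rw [Oe1, bw_eq_zero (Or.inr h), bw1_eq_zero (Or.inr h)]; norm_num
  · have h1 := abs_Oe_le s
    have h2 : |bw1 (Real.exp s) * Real.exp s ^ 2| ≤ 16 * 5 ^ 2 := by
      rw [abs_mul, abs_of_pos (pow_pos (Real.exp_pos s) 2)]
      exact mul_le_mul (abs_bw1_le _) (pow_le_pow_left₀ (Real.exp_pos s).le h 2) (by positivity)
        (by norm_num)
    exact (abs_add_le _ _).trans (by rw [Oe] at h1; linarith)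
lemma hasDerivAt_Oe (s : ℝ) : HasDerivAt Oe (Oe1 s) s := by
  refine (((hasDerivAt_bw _).comp s (Real.hasDerivAt_exp s)).mul
    (Real.hasDerivAt_exp s)).congr_deriv ?_
  simp only [Oe1, Function.comp]; ring

lemma mem_Ls {L : ℕ} {l : ℤ} : l ∈ Ls L ↔ l ≠ 0 ∧ |l| ≤ L := by
  simp [Ls, abs_le]
lemma card_Ls (L : ℕ) : (Ls L).card = 2 * L := by
  rw [Ls, Finset.card_erase_of_mem (by simp), Int.card_Icc]; omega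
lemma sum_Ls_neg {β : Type*} [AddCommMonoid β] (L : ℕ) (f : ℤ → β) :
    ∑ l ∈ Ls L, f (-l) = ∑ l ∈ Ls L, f l :=
  Finset.sum_equiv (Equiv.neg ℤ) (fun l => by simp [mem_Ls]) fun _ _ => rfl

@[fun_prop] lemma continuous_hk (N L : ℕ) : Continuous (hk N L) := by unfold hk; fun_prop
lemma hk_eq_zero (N L : ℕ) {s : ℝ} (h : s ≤ -3 ∨ 2 ≤ s) : hk N L s = 0 := by
  simp [hk, Oe_eq_zero h]
lemma conj_hk (N L : ℕ) (s : ℝ) : conj (hk N L s) = hk N L s := by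
  rw [hk, map_mul, map_mul, map_sum, Complex.conj_ofReal, Complex.conj_natCast,
    ← sum_Ls_neg L fun l => e (l * N * Real.exp s)]
  simp only [conj_e, Int.cast_neg, neg_mul]
lemma HK_neg (N L : ℕ) (u : ℝ) : HK N L (-u) = conj (HK N L u) := by
  rw [HK, HK, ← integral_conj]
  simp only [map_mul, conj_hk, conj_e, neg_mul]
lemma KD_neg (N : ℕ) (u : ℝ) : KD N (-u) = conj (KD N u) := by
  simp only [KD, Dk, map_sum, map_mul, Complex.conj_ofReal, conj_e, neg_mul]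
lemma I0_neg (N : ℕ) (u : ℝ) : I0 N (-u) = conj (I0 N u) := by
  rw [I0, I0, map_mul, Complex.conj_natCast, ← integral_conj]
  simp only [map_mul, Complex.conj_ofReal, conj_e, neg_mul]
lemma sum_bw_le (N : ℕ) : ∑ k ∈ Finset.Icc 1 (5 * N), bw (k / N) ≤ 5 * N :=
  (Finset.sum_le_card_nsmul _ _ 1 fun _ _ => bw_le_one _).trans (by simp)
@[fun_prop] lemma continuous_rho (W : Finset ℤ) : Continuous (rho W) := by unfold rho; fun_prop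
lemma norm_rho_neg (W : Finset ℤ) (s : ℝ) : ‖rho W (-s)‖ = ‖rho W s‖ := by
  rw [← Complex.norm_conj (rho W s)]
  simp only [rho, map_sum, conj_e, mul_neg]
lemma Kk_nonneg (N L : ℕ) (p q : ℝ) : 0 ≤ Kk N L p q :=
  Finset.sum_nonneg fun _ _ => Finset.sum_nonneg fun _ _ => Finset.sum_nonneg fun _ _ => by
    positivity
lemma continuous_Kk (N L : ℕ) : Continuous fun x : ℝ × ℝ => Kk N L x.1 x.2 := by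
  unfold Kk
  refine continuous_finsetSum _ fun _ _ => continuous_finsetSum _ fun _ _ =>
    continuous_finsetSum _ fun _ _ => Continuous.div continuous_const (by fun_prop) fun x => ?_
  positivity
@[fun_prop] lemma continuous_DS (σ : ℝ) (N : ℕ) : Continuous (DS σ N) := by unfold DS; fun_prop
@[fun_prop] lemma continuous_PS (σ : ℝ) (J : ℕ) : Continuous (PS σ J) := by unfold PS; fun_prop
lemma continuous_ZS {σ : ℝ} (h : σ ≠ 1) : Continuous (ZS σ) := by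
  refine continuous_iff_continuousAt.2 fun t => ?_
  have h1 : (σ : ℂ) + (2 * Real.pi * t : ℝ) * Complex.I ≠ 1 := fun h2 => h (by
    simpa using congrArg Complex.re h2)
  exact ContinuousAt.comp (f := fun t : ℝ => (σ : ℂ) + (2 * Real.pi * t : ℝ) * Complex.I)
    (differentiableAt_riemannZeta h1).continuousAt (by fun_prop)
lemma dd_nonneg (k : ℕ) (σ : ℝ) (m : ℕ) : 0 ≤ dd k σ m := sq_nonneg _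

/-! ### The kernel -/

def K0S : Prop := ∃ C : ℝ, 0 < C ∧ ∀ (N : ℕ) (u : ℝ), ‖I0 N u‖ ≤ C * N / (1 + |u|)

def K1S : Prop := ∃ C : ℝ, 0 < C ∧ ∀ (N L : ℕ) (u : ℝ), ‖HK N L u‖ ≤ C * √(N * L)

def K2S : Prop := ∃ C : ℝ, 0 < C ∧ ∀ (N L : ℕ) (u : ℝ), 1 ≤ N → 16 * |u| ≤ (L + 1) * N →
  (L : ℝ) + 1 ≤ 20 * (N : ℝ) ^ 2 → ‖KD N u - I0 N u - HK N L u‖ ≤ C * Real.log (N + 2)

def KbS : Prop := ∃ C : ℝ, 0 < C ∧ ∀ (N : ℕ) (u : ℝ), 1 ≤ N → |u| ≤ (N : ℝ) ^ 3 →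
  ‖KD N u - I0 N u‖ ≤ C * (√|u| + Real.log (N + 2))

def K3S : Prop := ∀ J : ℕ, ∃ C γ : ℝ, 0 < C ∧ 0 < γ ∧ γ ≤ 1 / 4 ∧ ∀ (N : ℕ) (u X : ℝ), 3 ≤ N →
  |u| = X * N → 1 ≤ X → X ≤ N → (N : ℝ) ≤ X ^ J →
  ‖KD N u‖ ≤ C * (√|u| * X ^ (-γ) + Real.log (N + 2))

def HmxS : Prop := ∀ c : ℝ, 0 < c → c ≤ 1 / 8 → ∃ g N0 : ℝ, 0 < g ∧ g ≤ c / 8 ∧
  ∀ (N : ℕ) (u : ℝ), N0 ≤ N → |u| ≤ (N : ℝ) ^ (1 + c) →
  ‖HK N ⌊16 * (N : ℝ) ^ c⌋₊ u‖ ≤ (N : ℝ) ^ ((1 + c) / 2 - g)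

/-! ### The trace of the cube -/

def OrtS : Prop := ∀ (ι : Type) (s : Finset ι) (j : ι → ℤ) (c : ι → ℂ) (a : ℝ) (m : ℕ),
  ∫ v in a..(a + m), ‖∑ i ∈ s, c i * e (j i * v)‖ ^ 2 =
    m * (∑ i ∈ s, ∑ i' ∈ s, if j i = j i' then c i * conj (c i') else 0).re

def RhoS : Prop := ∀ W : Finset ℤ, (∫ s in (-10 : ℝ)..10, ‖rho W s‖ ^ 2) = 20 * W.card ∧
  (∫ s in (-10 : ℝ)..10, (‖rho W s‖ ^ 2) ^ 2) ≤ 20 * En W 1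

def L2S : Prop := ∃ C : ℝ, 0 < C ∧ ∀ (ι : Type) (s : Finset ι) (j : ι → ℤ) (Δ : ℝ), 0 ≤ Δ →
  (∀ i ∈ s, ((s.filter fun i' => j i' = j i).card : ℝ) ≤ Δ) →
  (∀ c : ι → ℂ, ∫ p in (-10 : ℝ)..10, ‖∑ i ∈ s, c i * e (j i * Real.exp p)‖ ^ 2 ≤
    C * Δ * ∑ i ∈ s, ‖c i‖ ^ 2) ∧
  ∀ f : ℝ → ℝ, Continuous f →
    ∑ i ∈ s, ‖∫ q in (-10 : ℝ)..10, (f q : ℂ) * e (j i * Real.exp q)‖ ^ 2 ≤
      C * Δ * ∫ q in (-10 : ℝ)..10, f q ^ 2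

def MajS : Prop := ∃ C : ℝ, 0 < C ∧ ∀ N L : ℕ, 1 ≤ N → L ≤ N → ∃ φ : ℤ → ℝ,
  (∀ k, |φ k| ≤ C * Real.log (N + 2) / N) ∧ ∀ y : ℝ, |y| ≤ 50000 * L →
    ∑ l ∈ Ls L, 1 / (1 + N * |y + l|) ≤
      (∑ k ∈ Finset.Icc (-(N : ℤ)) N, (φ k : ℂ) * e (k * y)).re

def AffS : Prop := ∀ ε : ℝ, 0 < ε → ∃ C : ℝ, 0 < C ∧ ∀ (N L : ℕ) (f : ℝ → ℝ), 1 ≤ N → L ≤ N →
  Continuous f → (∀ q, 0 ≤ f q) →
  ∫ p in (-10 : ℝ)..10, (∫ q in (-10 : ℝ)..10, f q * Kk N L p q) ^ 2 ≤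
    C * (N : ℝ) ^ ε / (N : ℝ) ^ 2 * ((L : ℝ) ^ 4 * (∫ q in (-10 : ℝ)..10, f q) ^ 2 +
      (L : ℝ) ^ 2 * ∫ q in (-10 : ℝ)..10, f q ^ 2)

def TriS : Prop := ∀ (h H : ℝ → ℂ) (W : Finset ℤ), Continuous h →
  (∀ s, s ≤ -3 ∨ 2 ≤ s → h s = 0) → (∀ u, H u = ∫ s : ℝ, h s * e (u * s)) →
  ∑ u ∈ W, ∑ v ∈ W, ∑ w ∈ W, H ((u : ℝ) - v) * H ((v : ℝ) - w) * H ((w : ℝ) - u) =
    ∫ p in (-5 : ℝ)..5, ∫ q in (-5 : ℝ)..5,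
      Gam h p q * (rho W p * rho W (q - p) * rho W (-q))

def GamS : Prop := ∃ C : ℝ, 0 < C ∧ ∀ (N L : ℕ) (p q : ℝ),
  ‖Gam (hk N L) p q‖ ≤ C * (N : ℝ) ^ 3 * Kk N L p q

def T3S : Prop := ∀ ε : ℝ, 0 < ε → ∃ C : ℝ, 0 < C ∧ ∀ (N L : ℕ) (W : Finset ℤ), 1 ≤ N → L ≤ N →
  (∑ u ∈ W, ∑ v ∈ W, ∑ w ∈ W,
    HK N L ((u : ℝ) - v) * HK N L ((v : ℝ) - w) * HK N L ((w : ℝ) - u)).re ≤
    C * (N : ℝ) ^ (2 + ε) * √W.card * ((L : ℝ) ^ 2 * W.card + L * √(En W 1))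

/-! ### Large values of Dirichlet polynomials -/

def CbS : Prop := ∃ C : ℝ, 0 < C ∧
  ∀ (N L : ℕ) (a : ℕ → ℂ) (W : Finset ℤ) (U l q Hm : ℝ), 1 ≤ N → 0 < W.card → W.card ≤ N →
  (∀ k, ‖a k‖ ≤ bw (k / N)) → (∀ u ∈ W, ∀ v ∈ W, |(u : ℝ) - v| ≤ U) → U ≤ (N : ℝ) ^ 2 →
  16 * U ≤ (L + 1) * N → (L : ℝ) + 1 ≤ 20 * (N : ℝ) ^ 2 → 0 ≤ l → (∀ u ∈ W, l ≤ ‖SN N a u‖) →
  0 ≤ q → q + C * N * Real.log (N + 2) ≤ W.card * l ^ 2 / (5 * N) →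
  (∀ u : ℝ, |u| ≤ U → ‖HK N L u‖ ≤ Hm) →
  q ^ 3 ≤ (∑ u ∈ W, ∑ v ∈ W, ∑ w ∈ W,
    HK N L ((u : ℝ) - v) * HK N L ((v : ℝ) - w) * HK N L ((w : ℝ) - u)).re +
    C * N * Real.log (N + 2) * ((W.card : ℝ) ^ 2 * Hm ^ 2)

def EnS : Prop := ∀ c η : ℝ, 0 < η → 0 ≤ c → c ≤ 1 / 8 → ∃ N0 : ℝ,
  ∀ (N : ℕ) (a : ℕ → ℂ) (W : Finset ℤ), N0 ≤ N → (∀ k, ‖a k‖ ≤ bw (k / N)) →
  (∀ u ∈ W, ∀ v ∈ W, |(u : ℝ) - v| ≤ (N : ℝ) ^ (1 + c)) →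
  (∀ u ∈ W, (N : ℝ) ^ (3 / 4 - η) ≤ ‖SN N a u‖) → (W.card : ℝ) ≤ (N : ℝ) ^ (1 / 2 + c) →
  (En W 1 : ℝ) ≤ (N : ℝ) ^ (3 / 2 + c + 8 * η)

def GmlS : Prop := ∀ c : ℝ, 0 < c → c ≤ 1 / 8 → ∃ η N0 : ℝ, 0 < η ∧ η ≤ c / 80 ∧
  ∀ (N : ℕ) (a : ℕ → ℂ) (W : Finset ℤ), N0 ≤ N → (∀ k, ‖a k‖ ≤ bw (k / N)) →
  (∀ u ∈ W, ∀ v ∈ W, |(u : ℝ) - v| ≤ (N : ℝ) ^ (1 + c)) →
  (∀ u ∈ W, (N : ℝ) ^ (3 / 4 - η) ≤ ‖SN N a u‖) → (W.card : ℝ) ≤ (N : ℝ) ^ (1 / 2 + c - η)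

def HmvS : Prop := ∃ C : ℝ, 0 < C ∧ ∀ (N : ℕ) (a : ℕ → ℂ) (W : Finset ℤ) (U l : ℝ), 1 ≤ N →
  (∀ k, ‖a k‖ ≤ bw (k / N)) → (∀ u ∈ W, ∀ v ∈ W, |(u : ℝ) - v| ≤ U) → 0 < l →
  (∀ u ∈ W, l ≤ ‖SN N a u‖) → C * N * (√U + Real.log (N + 2)) ≤ l ^ 2 →
  (W.card : ℝ) ≤ C * (N : ℝ) ^ 2 * Real.log (N + 2) / l ^ 2

/-! ### Level sets and moments of the pieces on the critical line -/

def GrdS : Prop := ∀ (F : ℝ → ℂ) (a b U V R : ℝ), Continuous F → a ≤ b → 1 ≤ U →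
  (∀ (τ0 : ℝ) (W : Finset ℤ), (∀ u ∈ W, ∀ v ∈ W, |(u : ℝ) - v| ≤ U) →
    (∀ u ∈ W, V ≤ ‖F (τ0 + u)‖) → (W.card : ℝ) ≤ R) →
  lev a b F V ≤ (2 * (b - a) / U + 2) * R

def SqS : Prop := ∀ ε : ℝ, 0 < ε → ∃ C : ℝ, 0 < C ∧ ∀ (N : ℕ) (τ0 : ℝ), 1 ≤ N →
  ∃ a : ℕ → ℂ, (∀ k, ‖a k‖ ≤ bw (k / (N ^ 2 : ℕ))) ∧
    ∀ u : ℝ, N * ‖DN N (τ0 + u)‖ ^ 2 ≤ C * (N : ℝ) ^ ε * ‖SN (N ^ 2) a u‖

def MidS : Prop := ∀ d : ℝ, 0 < d → d ≤ 1 / 100 → ∃ δ N1 : ℝ, 0 < δ ∧ δ ≤ d / 6 ∧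
  ∀ (T V : ℝ) (N : ℕ), 1 ≤ T → N1 ≤ N → 0 < V → (N : ℝ) ^ (1 - δ) ≤ V ^ 4 →
  V ^ 4 ≤ T ^ (1 - d) * (N : ℝ) ^ (δ - 1) →
  V ^ 8 * lev (2 * T) (3 * T) (DN N) V ≤ T * (N : ℝ) ^ (1 - δ)

def MomS : Prop := ∃ δ : ℝ, 0 < δ ∧ δ ≤ 1 / 100 ∧ ∀ k : ℕ, k = 3 ∨ k = 4 → ∀ ε : ℝ, 0 < ε →
  ∃ C T0 : ℝ, 0 < C ∧ ∀ (T : ℝ) (N : ℕ), T0 ≤ T → 1 ≤ N → (N : ℝ) ≤ 16 * T →
  ∫ τ in (2 * T)..(3 * T), ‖DN N τ‖ ^ (2 * k) ≤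
    C * T ^ (1 + ε) * (N : ℝ) ^ ((1 - δ) * (k - 2) / 2)

/-! ### The line `σ` -/

def TrfS : Prop := ∀ (σ : ℝ) (A : ℕ), 1 ≤ A → ∃ C : ℝ, 0 < C ∧ ∀ (T : ℝ) (N : ℕ), 1 ≤ T → 1 ≤ N →
  (N : ℝ) ≤ 2 * T ^ 2 → ∫ τ in (9 / 4 * T)..(11 / 4 * T), ‖DS σ N τ‖ ^ A ≤
    C * (N : ℝ) ^ ((1 / 2 - σ) * A) * (T + ∫ τ in (2 * T)..(3 * T), ‖DN N τ‖ ^ A)

def Mv2S : Prop := ∀ (X : ℕ) (B : ℕ → ℝ) (a b : ℝ),
  |(∫ τ in a..b, ‖∑ m ∈ Finset.Icc 1 X, (B m : ℂ) * e (-(τ * Real.log m))‖ ^ 2) -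
    (b - a) * ∑ m ∈ Finset.Icc 1 X, B m ^ 2| ≤ (X : ℝ) ^ 2 * ∑ m ∈ Finset.Icc 1 X, B m ^ 2

def PowS : Prop := ∀ (b : ℕ → ℝ) (σ : ℝ) (Y k : ℕ), 1 ≤ k →
  (∀ n, 1 ≤ n → |b n| ≤ (n : ℝ) ^ (-σ)) → ∃ B : ℕ → ℝ,
  (∀ τ : ℝ, (∑ n ∈ Finset.Icc 1 Y, (b n : ℂ) * e (-(τ * Real.log n))) ^ k =
    ∑ m ∈ Finset.Icc 1 (Y ^ k), (B m : ℂ) * e (-(τ * Real.log m))) ∧
  (∀ m, B m ^ 2 ≤ dd k σ m) ∧
  (∀ Z : ℕ, (∀ n, 1 ≤ n → n ≤ Z → b n = 0) → ∀ m ≤ Z, B m = 0) ∧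
  ∀ Z : ℕ, Z ≤ Y → (∀ n, 1 ≤ n → n ≤ Z → b n = (n : ℝ) ^ (-σ)) → ∀ m ≤ Z, B m ^ 2 = dd k σ m

def SumS : Prop := ∀ (k : ℕ) (σ : ℝ), 1 / 2 < σ → Summable (dd k σ)

def SmvS : Prop := ∀ (k : ℕ) (σ : ℝ), 1 ≤ k → 1 / 2 < σ → ∃ C : ℝ, 0 < C ∧
  ∀ (N : ℕ) (T a b : ℝ), 1 ≤ N → (2 * N : ℝ) ^ (2 * k) ≤ T → a ≤ b → b - a ≤ T →
  ∫ τ in a..b, ‖DS σ N τ‖ ^ (2 * k) ≤ C * T * (N : ℝ) ^ (1 / 2 - σ)

/-- uniform power saving for the pieces on the line `σ` -/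
def Uni (k : ℕ) (σ : ℝ) : Prop := ∃ c C T0 : ℝ, 0 < c ∧ 0 < C ∧ ∀ (T : ℝ) (N : ℕ), T0 ≤ T →
  1 ≤ N → (N : ℝ) ≤ 2 * T ^ 2 →
  ∫ τ in (9 / 4 * T)..(11 / 4 * T), ‖DS σ N τ‖ ^ (2 * k) ≤ C * T * (N : ℝ) ^ (-c)

def UniS : Prop := ∃ δ : ℝ, 0 < δ ∧ δ ≤ 1 / 100 ∧ ∀ k : ℕ, k = 3 ∨ k = 4 → ∀ σ : ℝ,
  3 / 4 - 1 / (2 * k) - δ < σ → Uni k σ

def PeqS : Prop := ∀ (σ : ℝ) (J : ℕ) (τ : ℝ), PS σ J τ = ∑ n ∈ Finset.Icc 1 (2 * 2 ^ J),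
  ((th (((n : ℕ) : ℝ) / 2 ^ J) * (n : ℝ) ^ (-σ) : ℝ) : ℂ) * e (-(τ * Real.log n))

def ZapS : Prop := ∀ σ : ℝ, 1 / 2 < σ → σ < 1 → ∃ C : ℝ, 0 < C ∧ ∀ (T τ : ℝ) (J : ℕ), 1 ≤ T →
  τ ∈ Icc (2 * T) (3 * T) → T ^ 2 ≤ 2 ^ J → 2 ^ J ≤ 2 * T ^ 2 →
  ‖ZS σ τ - PS σ J τ‖ ≤ C * T ^ (1 - 2 * σ)

def ApxS : Prop := ∀ (k : ℕ) (σ : ℝ), 1 ≤ k → 1 / 2 < σ → σ < 1 → Uni k σ → ∀ θ : ℝ, 0 < θ →
  ∀ᶠ J : ℕ in atTop, ∃ C0 : ℝ, ∀ X : ℝ, 0 ≤ X →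
    ∫ τ in (0 : ℝ)..X, ‖ZS σ τ - PS σ J τ‖ ^ (2 * k) ≤ C0 + θ * X

def LimS : Prop := ∀ (k : ℕ) (σ : ℝ) (J : ℕ), 1 ≤ k → 1 / 2 < σ → ∃ c : ℝ,
  ∑ m ∈ Finset.range (2 ^ J + 1), dd k σ m ≤ c ∧ c ≤ ∑' m, dd k σ m ∧
  Tendsto (fun X : ℝ => X⁻¹ * ∫ τ in (0 : ℝ)..X, ‖PS σ J τ‖ ^ (2 * k)) atTop (𝓝 c)

def FinS : Prop := ∀ (k : ℕ) (σ : ℝ), 1 ≤ k → 1 / 2 < σ → σ < 1 → Uni k σ →
  Tendsto (fun T : ℝ => T⁻¹ * ∫ t in (0 : ℝ)..T, ‖riemannZeta (σ + t * Complex.I)‖ ^ (2 * k))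
    atTop (𝓝 (∑' m, dd k σ m))

end Pool.Agent.Lib.MP_80d0cf_nt.Sg
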